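import Mathlib

set_option autoImplicit false

namespace Pool.Agent.N151.FR

/-- powers of the relation -/
lemma rel_pow {P : Type*} [Group P] (x v : P) (k : ℕ) (h : v⁻¹ * x ^ k * v = x ^ (k + 1)) (j : ℕ) :
    (v ^ j)⁻¹ * x ^ (k ^ j) * v ^ j = x ^ ((k + 1) ^ j) := by
  induction j with
  | zero => simp
  | succ j ih =>
    have e1 : (v ^ (j + 1))⁻¹ * x ^ (k ^ (j + 1)) * v ^ (j + 1)
        = v⁻¹ * (((v ^ j)⁻¹ * x ^ (k ^ j) * v ^ j) ^ k) * v := by
      have : ((v ^ j)⁻¹ * x ^ (k ^ j) * v ^ j) ^ k = (v ^ j)⁻¹ * x ^ (k ^ (j + 1)) * v ^ j := by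
        have h1 : (v ^ j)⁻¹ * x ^ (k ^ j) * v ^ j = (v ^ j)⁻¹ * x ^ (k ^ j) * ((v ^ j)⁻¹)⁻¹ := by
          rw [inv_inv]
        rw [h1, conj_pow, inv_inv, ← pow_mul, pow_succ]
      rw [this, pow_succ]
      group
    rw [e1, ih]
    have e2 : v⁻¹ * (x ^ ((k + 1) ^ j)) ^ k * v = (v⁻¹ * x ^ k * v) ^ ((k + 1) ^ j) := by
      have h1 : v⁻¹ * x ^ k * v = v⁻¹ * x ^ k * (v⁻¹)⁻¹ := by rw [inv_inv]
      rw [h1, conj_pow, inv_inv, ← pow_mul, ← pow_mul, mul_comm]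
    rw [e2, h, ← pow_mul, pow_succ, mul_comm]

/-- the Higman-type argument: a prime dividing the order of `x` forces a smaller prime dividing the
order of `v` -/
lemma smaller_prime {P : Type*} [Group P] [Finite P] (x v : P) (k : ℕ)
    (h : v⁻¹ * x ^ k * v = x ^ (k + 1)) (p : ℕ) (hp : p.Prime) (hpx : p ∣ orderOf x) :
    ∃ q, q.Prime ∧ q < p ∧ q ∣ orderOf v := by
  have : Fact p.Prime := ⟨hp⟩
  have hN : 0 < orderOf x := orderOf_pos x
  -- orders
  have h1 : orderOf (x ^ k) = orderOf (x ^ (k + 1)) := by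
    rw [← h]
    have : v⁻¹ * x ^ k * v = MulAut.conj v⁻¹ (x ^ k) := by simp
    rw [this]
    exact (MulEquiv.orderOf_eq _ _).symm
  have h2 : Nat.gcd (orderOf x) k = Nat.gcd (orderOf x) (k + 1) := by
    rw [orderOf_pow, orderOf_pow] at h1
    obtain ⟨a, ha⟩ := Nat.gcd_dvd_left (orderOf x) k
    obtain ⟨b, hb⟩ := Nat.gcd_dvd_left (orderOf x) (k + 1)
    have ga : 0 < Nat.gcd (orderOf x) k := Nat.gcd_pos_of_pos_left _ hN
    have gb : 0 < Nat.gcd (orderOf x) (k + 1) := Nat.gcd_pos_of_pos_left _ hN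
    have e1 : orderOf x / Nat.gcd (orderOf x) k = a := Nat.div_eq_of_eq_mul_right ga ha
    have e2 : orderOf x / Nat.gcd (orderOf x) (k + 1) = b := Nat.div_eq_of_eq_mul_right gb hb
    have hab : a = b := by rw [← e1, ← e2, h1]
    subst hab
    have ha0 : 0 < a := by
      rcases Nat.eq_zero_or_pos a with h0 | h0
      · rw [h0, mul_zero] at ha; omega
      · exact h0
    exact Nat.eq_of_mul_eq_mul_right ha0 (ha.symm.trans hb)
  have h3 : Nat.gcd (orderOf x) k = 1 := by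
    have d1 : Nat.gcd (orderOf x) k ∣ k := Nat.gcd_dvd_right _ _
    have d2 : Nat.gcd (orderOf x) k ∣ k + 1 := by rw [h2]; exact Nat.gcd_dvd_right _ _
    have := (Nat.dvd_add_right d1).mp d2
    exact Nat.dvd_one.mp this
  have h4 : Nat.gcd (orderOf x) (k + 1) = 1 := by rw [← h2, h3]
  have hpk : ¬ p ∣ k := fun hd =>
    hp.one_lt.ne' (Nat.dvd_one.mp (h3 ▸ Nat.dvd_gcd hpx hd))
  have hpk1 : ¬ p ∣ k + 1 := fun hd =>
    hp.one_lt.ne' (Nat.dvd_one.mp (h4 ▸ Nat.dvd_gcd hpx hd))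
  -- the power relation with `j` the order of `v`
  set M := orderOf v with hM
  have h5 := rel_pow x v k h M
  rw [hM, pow_orderOf_eq_one, ← hM, inv_one, one_mul, mul_one] at h5
  have h6 : (k ^ M : ℕ) ≡ (k + 1) ^ M [MOD orderOf x] := pow_eq_pow_iff_modEq.mp h5
  have h7 : (k ^ M : ℕ) ≡ (k + 1) ^ M [MOD p] := h6.of_dvd hpx
  have h8 : ((k : ZMod p)) ^ M = ((k : ZMod p) + 1) ^ M := by
    have := (ZMod.natCast_eq_natCast_iff _ _ _).mpr h7
    push_cast at this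
    exact this
  have hk0 : (k : ZMod p) ≠ 0 := fun h0 => hpk ((ZMod.natCast_eq_zero_iff _ _).mp h0)
  have hk1 : (k : ZMod p) + 1 ≠ 0 := fun h0 => by
    apply hpk1
    rw [← ZMod.natCast_eq_zero_iff]
    push_cast
    exact h0
  set u : ZMod p := ((k : ZMod p) + 1) / k with hu
  have hu0 : u ≠ 0 := div_ne_zero hk1 hk0
  have hu1 : u ^ M = 1 := by
    rw [hu, div_pow, ← h8, div_self (pow_ne_zero _ hk0)]
  have hun : u ≠ 1 := by
    intro h0
    rw [hu, div_eq_one_iff_eq hk0] at h0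
    exact one_ne_zero (add_eq_left.mp h0)
  have d1 : orderOf u ∣ M := orderOf_dvd_of_pow_eq_one hu1
  have d2 : orderOf u ∣ p - 1 := ZMod.orderOf_dvd_card_sub_one hu0
  have d3 : orderOf u ≠ 1 := fun h0 => hun (orderOf_eq_one_iff.mp h0)
  obtain ⟨q, hq, hqu⟩ := Nat.exists_prime_and_dvd d3
  refine ⟨q, hq, ?_, hqu.trans d1⟩
  have hp1 : 0 < p - 1 := by have := hp.two_le; omega
  have := Nat.le_of_dvd hp1 (hqu.trans d2)
  omega

/-- **Chains in finite groups are trivial.** -/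
theorem chain_trivial {ι P : Type*} [Group P] [Finite P] (x : ι → P) (nx : ι → ι) (k : ℕ) (l : ℤ)
    (h : ∀ i, (x (nx i) ^ l)⁻¹ * x i ^ k * x (nx i) ^ l = x i ^ (k + 1)) (i : ι) : x i = 1 := by
  classical
  by_contra hne
  have hex : ∃ p : ℕ, p.Prime ∧ ∃ i, p ∣ orderOf (x i) := by
    have h1 : orderOf (x i) ≠ 1 := fun h0 => hne (orderOf_eq_one_iff.mp h0)
    obtain ⟨p, hp, hd⟩ := Nat.exists_prime_and_dvd h1
    exact ⟨p, hp, i, hd⟩
  obtain ⟨hp, j, hj⟩ := Nat.find_spec hex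
  obtain ⟨q, hq, hlt, hqv⟩ := smaller_prime (x j) (x (nx j) ^ l) k (h j) _ hp hj
  apply Nat.find_min hex hlt
  refine ⟨hq, nx j, hqv.trans ?_⟩
  exact orderOf_dvd_of_mem_zpowers (Subgroup.zpow_mem_zpowers _ _)

end Pool.Agent.N151.FR
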