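import Mathlib
import Pool.Agent.N151.RFC.Ext

set_option autoImplicit false

/-! Finite quotients of a free group in which two given elements become conjugate. -/

namespace Pool.Agent.N151.FR

open Pool.Agent.N151.RFC

lemma red_pow (n q : ℕ) (hq : q.Prime) (hn : n ≤ q) (A : U n) : (red n q A) ^ q = 1 := by
  have : Fact q.Prime := ⟨hq⟩
  have h0 : ∀ k : ℕ, ((((A : (MZ n)ˣ) : MZ n) - 1) ^ k) ∈ J n k := by
    intro k
    induction k with
    | zero => rw [pow_zero]; exact one_mem_J n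
    | succ k ih => rw [pow_succ]; exact J_mul ih A.2.1
  have h1 : (((A : (MZ n)ˣ) : MZ n) - 1) ^ q = 0 := eq_zero_of_mem_J hn (h0 q)
  rcases Nat.eq_zero_or_pos n with hn0 | hn0
  · subst hn0
    apply Units.ext
    exact Subsingleton.elim _ _
  · have : Nonempty (Fin n) := ⟨⟨0, hn0⟩⟩
    apply Units.ext
    rw [Units.val_pow_eq_pow_val, Units.val_one]
    have h2 : ((red n q A : Matrix (Fin n) (Fin n) (ZMod q)) - 1) ^ q = 0 := by
      have h3 : (RingHom.mapMatrix (Int.castRingHom (ZMod q)) :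
          MZ n →+* Matrix (Fin n) (Fin n) (ZMod q)) ((((A : (MZ n)ˣ) : MZ n) - 1) ^ q) = 0 := by
        rw [h1, map_zero]
      rw [map_pow, map_sub, map_one] at h3
      exact h3
    rw [sub_pow_char_of_commute _ (Commute.one_right _), one_pow, sub_eq_zero] at h2
    exact h2

lemma red_ne_one (n q : ℕ) (A : U n) (r c : Fin n) (hrc : ((A : (MZ n)ˣ) : MZ n) r c ≠ 0)
    (hpow : ∀ j : ℤ, (((A ^ j : U n) : (MZ n)ˣ) : MZ n) r c = j * ((A : (MZ n)ˣ) : MZ n) r c)
    (hq : (((A : (MZ n)ˣ) : MZ n) r c).natAbs < q) : red n q A ≠ 1 := by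
  intro h
  have h0 : (1 : MZ n) r c = 0 := by
    have := hpow 0
    rw [zpow_zero] at this
    simpa using this
  have hne : r ≠ c := by
    rintro rfl
    simp at h0
  have h1 : ((red n q A : UM n q) : Matrix (Fin n) (Fin n) (ZMod q)) r c
      = ((1 : UM n q) : Matrix (Fin n) (Fin n) (ZMod q)) r c := by rw [h]
  rw [red_apply, Units.val_one, Matrix.one_apply_ne hne, ZMod.intCast_zmod_eq_zero_iff_dvd] at h1
  have h2 := Nat.le_of_dvd (Int.natAbs_pos.mpr hrc) (Int.natCast_dvd.mp h1)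
  omega

open Classical in
/-- elements of the same prime order are conjugate in the regular representation -/
lemma conj_of_order {P : Type} [Group P] [Finite P] (q : ℕ) (hq : q.Prime) (x y : P)
    (hx : x ≠ 1) (hy : y ≠ 1) (hxq : x ^ q = 1) (hyq : y ^ q = 1) :
    ∃ t : Equiv.Perm P, t * MulAction.toPermHom P P x * t⁻¹ = MulAction.toPermHom P P y := by
  have : Fintype P := Fintype.ofFinite P
  have : Fact q.Prime := ⟨hq⟩
  have ox : orderOf x = q := orderOf_eq_prime hxq hx
  have oy : orderOf y = q := orderOf_eq_prime hyq hy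
  have hinj : Function.Injective (MulAction.toPermHom P P) := by
    rw [injective_iff_map_eq_one]
    intro a ha
    have := congrArg (fun σ : Equiv.Perm P => σ 1) ha
    simpa using this
  have key : ∀ z : P, z ≠ 1 → orderOf z = q →
      ∃ n : ℕ, (MulAction.toPermHom P P z).cycleType = Multiset.replicate (n + 1) q ∧
        (n + 1) * q = Fintype.card P := by
    intro z hz oz
    have oz' : orderOf (MulAction.toPermHom P P z) = q := by
      rw [orderOf_injective _ hinj, oz]
    obtain ⟨n, hn⟩ := Equiv.Perm.cycleType_prime_order (σ := MulAction.toPermHom P P z)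
      (by rw [oz']; exact hq)
    rw [oz'] at hn
    refine ⟨n, hn, ?_⟩
    have h1 := Equiv.Perm.sum_cycleType (MulAction.toPermHom P P z)
    rw [hn, Multiset.sum_replicate, smul_eq_mul] at h1
    rw [h1, ← Finset.card_univ]
    congr 1
    ext a
    simp only [Finset.mem_univ, iff_true, Equiv.Perm.mem_support]
    intro h2
    apply hz
    have h3 : z * a = a := h2
    exact mul_eq_right.mp h3
  obtain ⟨n, hn1, hn2⟩ := key x hx ox
  obtain ⟨m, hm1, hm2⟩ := key y hy oy
  have hnm : n = m := by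
    have h1 : (n + 1) * q = (m + 1) * q := by rw [hn2, hm2]
    have := Nat.eq_of_mul_eq_mul_right hq.pos h1
    omega
  subst hnm
  have h2 : (MulAction.toPermHom P P x).cycleType = (MulAction.toPermHom P P y).cycleType := by
    rw [hn1, hm1]
  obtain ⟨t, ht⟩ := isConj_iff.mp (Equiv.Perm.isConj_iff_cycleType_eq.mpr h2)
  exact ⟨t, ht⟩

/-- finite quotients of `⟨Y, t ; t u t⁻¹ = v⟩` detect the elements of `F(Y)` -/
theorem exists_fin {Y : Type*} (u v g : FreeGroup Y) (hu : u ≠ 1) (hv : v ≠ 1) (hg : g ≠ 1) :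
    ∃ (B : Type) (_ : Group B) (_ : Finite B) (σ : FreeGroup Y →* B) (t : B),
      t * σ u * t⁻¹ = σ v ∧ σ g ≠ 1 := by
  obtain ⟨n1, f1, h1⟩ := exists_rep u hu
  obtain ⟨n2, f2, h2⟩ := exists_rep v hv
  obtain ⟨n3, f3, h3⟩ := exists_rep g hg
  obtain ⟨r1, c1, hx1, hp1⟩ := exists_entry (f1 u) h1
  obtain ⟨r2, c2, hx2, hp2⟩ := exists_entry (f2 v) h2
  obtain ⟨r3, c3, hx3, hp3⟩ := exists_entry (f3 g) h3
  obtain ⟨q, hq1, hq⟩ := Nat.exists_infinite_primes (n1 + n2 + n3 + 1 +
    ((((f1 u : U n1) : (MZ n1)ˣ) : MZ n1) r1 c1).natAbs +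
    ((((f2 v : U n2) : (MZ n2)ˣ) : MZ n2) r2 c2).natAbs +
    ((((f3 g : U n3) : (MZ n3)ˣ) : MZ n3) r3 c3).natAbs)
  have : NeZero q := ⟨hq.ne_zero⟩
  let P := UM n1 q × UM n2 q × UM n3 q
  let σ0 : FreeGroup Y →* P :=
    ((red n1 q).comp f1).prod (((red n2 q).comp f2).prod ((red n3 q).comp f3))
  have e1 : ∀ x, σ0 x = (red n1 q (f1 x), red n2 q (f2 x), red n3 q (f3 x)) := fun x => rfl
  have hpow : ∀ x, σ0 x ^ q = 1 := by
    intro x
    rw [e1]
    refine Prod.ext ?_ (Prod.ext ?_ ?_)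
    · exact red_pow n1 q hq (by omega) _
    · exact red_pow n2 q hq (by omega) _
    · exact red_pow n3 q hq (by omega) _
  have hu' : σ0 u ≠ 1 := by
    intro h
    exact red_ne_one n1 q _ r1 c1 hx1 hp1 (by omega) (congrArg Prod.fst h)
  have hv' : σ0 v ≠ 1 := by
    intro h
    exact red_ne_one n2 q _ r2 c2 hx2 hp2 (by omega) (congrArg (fun p : P => p.2.1) h)
  have hg' : σ0 g ≠ 1 := by
    intro h
    exact red_ne_one n3 q _ r3 c3 hx3 hp3 (by omega) (congrArg (fun p : P => p.2.2) h)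
  obtain ⟨t, ht⟩ := conj_of_order q hq (σ0 u) (σ0 v) hu' hv' (hpow u) (hpow v)
  refine ⟨Equiv.Perm P, inferInstance, inferInstance, (MulAction.toPermHom P P).comp σ0, t, ht, ?_⟩
  intro h
  apply hg'
  have := congrArg (fun σ : Equiv.Perm P => σ 1) h
  simpa using this

end Pool.Agent.N151.FR
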