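import Mathlib
import Pool.Agent.N151.FR.Fin

set_option autoImplicit false

namespace Pool.Agent.N151.FR

variable {G Q : Type*} [Group G] [Group Q]

/-- the intersection of the subgroups of finite index of `S`, as a subgroup of `G` -/
def nextF (S : Subgroup G) : Subgroup G :=
  ⨅ (K : Subgroup G) (_ : K ≤ S) (_ : (K.subgroupOf S).index ≠ 0), K

lemma mem_nextF (S : Subgroup G) (g : G) :
    g ∈ nextF S ↔ ∀ K : Subgroup G, K ≤ S → (K.subgroupOf S).index ≠ 0 → g ∈ K := by
  simp only [nextF, Subgroup.mem_iInf]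

/-- normal closures of elements satisfying the relation have no proper subgroup of finite index -/
theorem no_finite_index (r w : G) (k : ℕ) (l : ℤ)
    (h : (w⁻¹ * r ^ l * w)⁻¹ * r ^ k * (w⁻¹ * r ^ l * w) = r ^ (k + 1))
    (K : Subgroup G) (hK : K.relIndex (Subgroup.normalClosure {r}) ≠ 0) :
    Subgroup.normalClosure {r} ≤ K := by
  set R := Subgroup.normalClosure {r} with hR
  have hrR : r ∈ R := Subgroup.subset_normalClosure (Set.mem_singleton _)
  have hconj : ∀ g : G, g⁻¹ * r * g ∈ R := by
    intro g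
    have := (inferInstance : R.Normal).conj_mem r hrR g⁻¹
    simpa using this
  let x : G → R := fun g => ⟨g⁻¹ * r * g, hconj g⟩
  have hfi : (K.subgroupOf R).FiniteIndex := ⟨hK⟩
  let C : Subgroup R := (K.subgroupOf R).normalCore
  have hfin : Finite (R ⧸ C) := Subgroup.finite_quotient_of_finiteIndex
  let ψ : R →* R ⧸ C := QuotientGroup.mk' C
  have hrel : ∀ g : G, (x (w * g) ^ l)⁻¹ * x g ^ k * x (w * g) ^ l = x g ^ (k + 1) := by
    intro g
    apply Subtype.ext
    change ((((w * g)⁻¹ * r * (w * g)) ^ l)⁻¹ * (g⁻¹ * r * g) ^ k * ((w * g)⁻¹ * r * (w * g)) ^ l : G)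
      = (g⁻¹ * r * g) ^ (k + 1)
    have e1 : ∀ (y z : G) (n : ℕ), (y⁻¹ * z * y) ^ n = y⁻¹ * z ^ n * y := by
      intro y z n
      have : y⁻¹ * z * y = y⁻¹ * z * (y⁻¹)⁻¹ := by rw [inv_inv]
      rw [this, conj_pow, inv_inv]
    have e2 : ∀ (y z : G) (n : ℤ), (y⁻¹ * z * y) ^ n = y⁻¹ * z ^ n * y := by
      intro y z n
      have : y⁻¹ * z * y = y⁻¹ * z * (y⁻¹)⁻¹ := by rw [inv_inv]
      rw [this, conj_zpow, inv_inv]
    rw [e1, e1, e2, ← h]
    group
  have htriv := chain_trivial (fun g => ψ (x g)) (fun g => w * g) k l (by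
    intro g
    have := congrArg ψ (hrel g)
    simpa only [map_mul, map_inv, map_pow, map_zpow] using this)
  have hmem : ∀ g : G, g⁻¹ * r * g ∈ K := by
    intro g
    have h1 : x g ∈ C := (QuotientGroup.eq_one_iff _).mp (htriv g)
    have h2 : x g ∈ K.subgroupOf R := Subgroup.normalCore_le _ h1
    exact h2
  rw [hR, Subgroup.normalClosure, Subgroup.closure_le]
  intro y hy
  rw [Group.mem_conjugatesOfSet_iff] at hy
  obtain ⟨a, ha, hc⟩ := hy
  rw [Set.mem_singleton_iff] at ha
  subst ha
  obtain ⟨c, hc⟩ := isConj_iff.mp hc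
  rw [← hc]
  have := hmem c⁻¹
  simpa using this

/-- pulling back along a surjection whose kernel has no finite quotients -/
theorem nextF_comap (π : G →* Q) (hπ : Function.Surjective π)
    (hker : ∀ K : Subgroup G, K.relIndex π.ker ≠ 0 → π.ker ≤ K) (T : Subgroup Q) :
    nextF (T.comap π) = (nextF T).comap π := by
  ext g
  rw [Subgroup.mem_comap, mem_nextF, mem_nextF]
  constructor
  · intro hg K hKT hK
    have := hg (K.comap π) (Subgroup.comap_mono hKT) (by
      change (K.comap π).relIndex (T.comap π) ≠ 0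
      rw [Subgroup.relIndex_comap, Subgroup.map_comap_eq_self_of_surjective hπ]
      exact hK)
    exact this
  · intro hg K hKT hK
    have h1 : π.ker ≤ T.comap π := by
      intro x hx
      rw [Subgroup.mem_comap, MonoidHom.mem_ker.mp hx]
      exact T.one_mem
    have h2 : K.relIndex π.ker ≠ 0 := fun h0 => hK (Subgroup.relIndex_eq_zero_of_le_right h1 h0)
    have h3 : π.ker ≤ K := hker K h2
    have h4 : (K.map π).comap π = K := Subgroup.comap_map_eq_self h3
    have h5 := hg (K.map π) (by
      rw [Subgroup.map_le_iff_le_comap]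
      exact hKT) (by
      change (K.map π).relIndex T ≠ 0
      have : (K.map π).relIndex T = K.relIndex (T.comap π) := by
        conv_rhs => rw [← h4]
        rw [Subgroup.relIndex_comap, Subgroup.map_comap_eq_self_of_surjective hπ]
      rw [this]
      exact hK)
    rw [← h4]
    exact h5

/-- the relator `(w⁻¹ r^l w)⁻¹ r^k (w⁻¹ r^l w) r^{-(k+1)}` -/
def towerRel {X : Type*} (r w : FreeGroup X) (k : ℕ) (l : ℤ) : FreeGroup X :=
  (w⁻¹ * r ^ l * w)⁻¹ * r ^ k * (w⁻¹ * r ^ l * w) * (r ^ (k + 1))⁻¹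

section

variable {X : Type*} (r w : FreeGroup X) (k : ℕ) (l : ℤ)

lemma towerRel_mem : Subgroup.normalClosure {towerRel r w k l} ≤ Subgroup.normalClosure {r} := by
  apply Subgroup.normalClosure_le_normal
  rintro x rfl
  have hr : r ∈ Subgroup.normalClosure {r} := Subgroup.subset_normalClosure (Set.mem_singleton _)
  have hn : (Subgroup.normalClosure {r}).Normal := inferInstance
  have h1 : w⁻¹ * r ^ l * w ∈ Subgroup.normalClosure {r} := by
    have := hn.conj_mem (r ^ l) (Subgroup.zpow_mem _ hr l) w⁻¹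
    simpa using this
  exact mul_mem (mul_mem (mul_mem (inv_mem h1) (pow_mem hr k)) h1) (inv_mem (pow_mem hr _))

/-- the projection -/
def proj : PresentedGroup {towerRel r w k l} →* PresentedGroup {r} :=
  QuotientGroup.map _ _ (MonoidHom.id _) (towerRel_mem r w k l)

lemma proj_mk (x : FreeGroup X) : proj r w k l (PresentedGroup.mk _ x) = PresentedGroup.mk _ x :=
  rfl

lemma proj_surjective : Function.Surjective (proj r w k l) := by
  intro y
  obtain ⟨x, rfl⟩ := QuotientGroup.mk_surjective y
  exact ⟨PresentedGroup.mk _ x, rfl⟩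

lemma proj_ker : (proj r w k l).ker
    = Subgroup.normalClosure {PresentedGroup.mk {towerRel r w k l} r} := by
  apply le_antisymm
  · intro g hg
    obtain ⟨x, rfl⟩ := QuotientGroup.mk_surjective g
    have h1 : x ∈ Subgroup.normalClosure {r} := by
      rw [← QuotientGroup.eq_one_iff]
      exact hg
    have h2 : Function.Surjective (PresentedGroup.mk {towerRel r w k l}) :=
      QuotientGroup.mk_surjective
    have h3 := Subgroup.map_normalClosure {r} (PresentedGroup.mk {towerRel r w k l}) h2
    rw [Set.image_singleton] at h3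
    rw [← h3]
    exact ⟨x, h1, rfl⟩
  · apply Subgroup.normalClosure_le_normal
    rintro x rfl
    rw [SetLike.mem_coe, MonoidHom.mem_ker, proj_mk]
    exact PresentedGroup.one_of_mem (Set.mem_singleton _)

lemma tower_rel : ((PresentedGroup.mk {towerRel r w k l} w)⁻¹ * PresentedGroup.mk _ r ^ l *
      PresentedGroup.mk _ w)⁻¹ * PresentedGroup.mk _ r ^ k *
      ((PresentedGroup.mk {towerRel r w k l} w)⁻¹ * PresentedGroup.mk _ r ^ l *
      PresentedGroup.mk _ w) = PresentedGroup.mk _ r ^ (k + 1) := by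
  have h : PresentedGroup.mk {towerRel r w k l} (towerRel r w k l) = 1 :=
    PresentedGroup.one_of_mem (Set.mem_singleton _)
  have h2 : PresentedGroup.mk {towerRel r w k l} (towerRel r w k l)
      = PresentedGroup.mk _ ((w⁻¹ * r ^ l * w)⁻¹ * r ^ k * (w⁻¹ * r ^ l * w) * (r ^ (k + 1))⁻¹) := rfl
  rw [h2] at h
  simp only [map_mul, map_inv, map_pow, map_zpow] at h
  exact mul_inv_eq_one.mp h

theorem tower (S : ℕ → Subgroup (PresentedGroup {towerRel r w k l}))
    (T : ℕ → Subgroup (PresentedGroup {r}))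
    (hS0 : S 0 = ⊤) (hS : ∀ m, S (m + 1) = nextF (S m))
    (hT0 : T 0 = ⊤) (hT : ∀ m, T (m + 1) = nextF (T m)) (m : ℕ) :
    S m = (T m).comap (proj r w k l) := by
  induction m with
  | zero => rw [hS0, hT0, Subgroup.comap_top]
  | succ m ih =>
    rw [hS, hT, ih]
    apply nextF_comap _ (proj_surjective r w k l)
    intro K hK
    rw [proj_ker] at hK ⊢
    exact no_finite_index _ _ k l (tower_rel r w k l) K hK

end

end Pool.Agent.N151.FR
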