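import Mathlib
import Pool.Agent.N151.RFC.RF
import Pool.Agent.N151.FR.Res
import Pool.Agent.N151.FR.FinQ

set_option autoImplicit false

/-! Second finite residual of HNN extensions. -/

namespace Pool.Agent.N151.FR

open Pool.Agent.N151.RFC

universe v

section

variable {I H : Type v} [Group I] [Group H] (ι : H →* I) (s : I) (u v : H)

/-- the reducedness condition -/
def Red2 (L : List (Bool × H)) : Prop :=
  L.IsChain (fun p q => p.2 ∈ Subgroup.zpowers (cond p.1 u v) → p.1 = q.1)

lemma exists_red2 (hgen : Subgroup.closure (Set.range ι ∪ {s}) = ⊤)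
    (hrel : s * ι u = ι v * s) (g : I) :
    ∃ (h0 : H) (L : List (Bool × H)), Red2 u v L ∧ g = ι h0 * pr ι s L := by
  have hz : ∀ k : ℤ, s * ι (u ^ k) = ι (v ^ k) * s := by
    intro k
    have h1 : s * ι u * s⁻¹ = ι v := by rw [hrel, mul_inv_cancel_right]
    have h2 : s * ι (u ^ k) * s⁻¹ = ι (v ^ k) := by
      rw [map_zpow, map_zpow, ← h1, conj_zpow]
    rw [← h2, inv_mul_cancel_right]
  have hz' : ∀ k : ℤ, s⁻¹ * ι (v ^ k) = ι (u ^ k) * s⁻¹ := by
    intro k
    rw [inv_mul_eq_iff_eq_mul, ← mul_assoc, hz, mul_inv_cancel_right]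
  have hH : ∀ (h : H) (g : I), (∃ (h0 : H) (L : List (Bool × H)), Red2 u v L ∧ g = ι h0 * pr ι s L) →
      ∃ (h0 : H) (L : List (Bool × H)), Red2 u v L ∧ ι h * g = ι h0 * pr ι s L := by
    rintro h g ⟨h0, L, hL, rfl⟩
    exact ⟨h * h0, L, hL, by rw [map_mul, mul_assoc]⟩
  have hS : ∀ (b : Bool) (g : I),
      (∃ (h0 : H) (L : List (Bool × H)), Red2 u v L ∧ g = ι h0 * pr ι s L) →
      ∃ (h0 : H) (L : List (Bool × H)), Red2 u v L ∧ cond b s s⁻¹ * g = ι h0 * pr ι s L := by
    rintro b g ⟨h0, L, hL, rfl⟩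
    cases L with
    | nil =>
      exact ⟨1, [(b, h0)], List.isChain_singleton _, by
        rw [pr_cons, map_one, one_mul, mul_assoc]⟩
    | cons p L =>
      by_cases hc : h0 ∈ Subgroup.zpowers (cond b u v) → b = p.1
      · refine ⟨1, (b, h0) :: p :: L, ?_, ?_⟩
        · exact List.isChain_cons_cons.mpr ⟨hc, hL⟩
        · rw [pr_cons ι s (b, h0), map_one, one_mul, mul_assoc]
      · push Not at hc
        obtain ⟨⟨k, hk⟩, hb⟩ := hc
        change (cond b u v) ^ k = h0 at hk
        refine ⟨(cond b v u) ^ k * p.2, L, List.IsChain.tail hL, ?_⟩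
        rw [pr_cons, map_mul, ← hk]
        rcases p with ⟨b1, h1⟩
        simp only at hb ⊢
        cases b <;> cases b1
        · exact absurd rfl hb
        · simp only [cond_false, cond_true]
          calc s⁻¹ * (ι (v ^ k) * (s * ι h1 * pr ι s L))
              = s⁻¹ * ι (v ^ k) * (s * (ι h1 * pr ι s L)) := by simp only [mul_assoc]
            _ = ι (u ^ k) * s⁻¹ * (s * (ι h1 * pr ι s L)) := by rw [hz']
            _ = ι (u ^ k) * ι h1 * pr ι s L := by
              rw [mul_assoc, inv_mul_cancel_left, mul_assoc]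
        · simp only [cond_false, cond_true]
          calc s * (ι (u ^ k) * (s⁻¹ * ι h1 * pr ι s L))
              = s * ι (u ^ k) * (s⁻¹ * (ι h1 * pr ι s L)) := by simp only [mul_assoc]
            _ = ι (v ^ k) * s * (s⁻¹ * (ι h1 * pr ι s L)) := by rw [hz]
            _ = ι (v ^ k) * ι h1 * pr ι s L := by
              rw [mul_assoc, mul_inv_cancel_left, mul_assoc]
        · exact absurd rfl hb
  have hg : g ∈ Subgroup.closure (Set.range ι ∪ {s}) := by rw [hgen]; trivial
  induction hg using Subgroup.closure_induction_left with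
  | one => exact ⟨1, [], List.isChain_nil, by rw [pr_nil, map_one, one_mul]⟩
  | mul_left x hx y hy ih =>
    rcases hx with ⟨h, rfl⟩ | hx
    · exact hH h _ ih
    · rw [Set.mem_singleton_iff] at hx
      rw [hx]
      exact hS true _ ih
  | inv_mul_cancel x hx y hy ih =>
    rcases hx with ⟨h, rfl⟩ | hx
    · rw [← map_inv]
      exact hH h⁻¹ _ ih
    · rw [Set.mem_singleton_iff] at hx
      rw [hx]
      exact hS false _ ih

end

section

variable {Q : Type v} [Group Q] (z T : Q) {H : Type v} [Group H] (ψ : H →* Q)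

/-- the endpoint -/
def pos : List (Bool × H) → Q
  | [] => 1
  | p :: L => cond p.1 T T⁻¹ * (ψ p.2 * pos L)

/-- the word read along the path -/
def Wd : List (Bool × H) → List (Cs z × Bool)
  | [] => []
  | p :: L => (cls z (cond p.1 (ψ p.2 * pos T ψ L) (T⁻¹ * (ψ p.2 * pos T ψ L))), p.1) :: Wd L

lemma Wd_reduced (u v : H) (hT : T * ψ u = ψ v * T) (hz : z = ψ u)
    (hu : ∀ h, ψ h ∈ Subgroup.zpowers (ψ u) → h ∈ Subgroup.zpowers u)
    (hv : ∀ h, ψ h ∈ Subgroup.zpowers (ψ v) → h ∈ Subgroup.zpowers v) :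
    ∀ L : List (Bool × H), Red2 u v L → FreeGroup.IsReduced (Wd z T ψ L) := by
  intro L
  induction L with
  | nil => intro _; exact List.isChain_nil
  | cons p L ih =>
    intro hL
    cases L with
    | nil => exact List.isChain_singleton _
    | cons p1 L =>
      have h1 := List.isChain_cons_cons.mp hL
      have h2 := ih h1.2
      refine List.isChain_cons_cons.mpr ⟨?_, h2⟩
      intro hc
      rcases p with ⟨b, f⟩
      rcases p1 with ⟨b1, f1⟩
      simp only at hc ⊢
      by_contra hne
      apply hne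
      apply h1.1
      set x := ψ f1 * pos T ψ L with hx
      have hpos : pos T ψ ((b1, f1) :: L) = cond b1 T T⁻¹ * x := rfl
      rw [hpos] at hc
      cases b <;> cases b1
      · exact absurd rfl hne
      · -- `t⁻¹ f t`
        simp only [cond_false, cond_true] at hc ⊢
        have e : T⁻¹ * (ψ f * (T * x)) = (T⁻¹ * ψ f * T) * x := by group
        rw [e] at hc
        have h3 := mem_of_cls z hc
        rw [hz] at h3
        obtain ⟨k, hk⟩ := h3
        change ψ u ^ k = T⁻¹ * ψ f * T at hk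
        apply hv
        refine ⟨k, ?_⟩
        change ψ v ^ k = ψ f
        have e2 : ψ v = T * ψ u * T⁻¹ := by rw [hT, mul_inv_cancel_right]
        rw [e2, conj_zpow, hk]
        group
      · -- `t f t⁻¹`
        simp only [cond_false, cond_true] at hc ⊢
        have h3 := mem_of_cls z hc
        rw [hz] at h3
        exact hu f h3
      · exact absurd rfl hne

end

/-- the permutation given by the stable letter -/
def tact {Q : Type v} [Group Q] (T : Q) {A : Type} [Group A] (x : Q → A) : Equiv.Perm (Q × A) where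
  toFun p := (T * p.1, x p.1 * p.2)
  invFun p := (T⁻¹ * p.1, (x (T⁻¹ * p.1))⁻¹ * p.2)
  left_inv := by
    rintro ⟨a, y⟩
    simp
  right_inv := by
    rintro ⟨a, y⟩
    simp

lemma tact_apply {Q : Type v} [Group Q] (T : Q) {A : Type} [Group A] (x : Q → A) (a : Q) (y : A) :
    tact T x (a, y) = (T * a, x a * y) := rfl

lemma tact_inv_apply {Q : Type v} [Group Q] (T : Q) {A : Type} [Group A] (x : Q → A) (a : Q)
    (y : A) : (tact T x)⁻¹ (a, y) = (T⁻¹ * a, (x (T⁻¹ * a))⁻¹ * y) := rfl

/-- **Subgroups meeting the base trivially have trivial finite residual.** -/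
theorem nextF_eq_bot {I H : Type v} [Group I] [Group H] (ι : H →* I) (s : I) (u v : H)
    (hgen : Subgroup.closure (Set.range ι ∪ {s}) = ⊤)
    (hrel : s * ι u = ι v * s)
    (huniv : ∀ (G : Type v) [Group G] (E : H →* G) (P : G), P * E u = E v * P →
      ∃ Φ : I →* G, (∀ h, Φ (ι h) = E h) ∧ Φ s = P)
    (K : Subgroup I) [K.Normal] (hK : ∀ h, ι h ∈ K → h = 1)
    (S : Subgroup I) (hS : S ≤ K) : nextF S = ⊥ := by
  rw [eq_bot_iff]
  intro g hg
  rw [Subgroup.mem_bot]
  by_contra hne
  have hgS : g ∈ S := by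
    rw [mem_nextF] at hg
    apply hg S le_rfl
    simp
  have hgK : g ∈ K := hS hgS
  obtain ⟨h0, L, hL, hgL⟩ := exists_red2 ι s u v hgen hrel g
  have hLn : L ≠ [] := by
    rintro rfl
    rw [pr_nil, mul_one] at hgL
    rw [hgL] at hgK
    have := hK h0 hgK
    rw [this, map_one] at hgL
    exact hne hgL
  let π : I →* I ⧸ K := QuotientGroup.mk' K
  let ψ : H →* I ⧸ K := π.comp ι
  have hψ : Function.Injective ψ := by
    rw [injective_iff_map_eq_one]
    intro h hh
    exact hK h ((QuotientGroup.eq_one_iff _).mp hh)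
  let T : I ⧸ K := π s
  have hT : T * ψ u = ψ v * T := by
    change π s * π (ι u) = π (ι v) * π s
    rw [← map_mul, ← map_mul, hrel]
  have hz : ∀ (w h : H), ψ h ∈ Subgroup.zpowers (ψ w) → h ∈ Subgroup.zpowers w := by
    rintro w h ⟨k, hk⟩
    refine ⟨k, ?_⟩
    change ψ w ^ k = ψ h at hk
    change w ^ k = h
    apply hψ
    rw [map_zpow, hk]
  have hred := Wd_reduced (ψ u) T ψ u v hT rfl (hz u) (hz v) L hL
  have hWn : Wd (ψ u) T ψ L ≠ [] := by
    cases L with
    | nil => exact absurd rfl hLn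
    | cons p L => simp [Wd]
  obtain ⟨A, _, _, fA, hfA⟩ := free_res _ (mk_ne_one hred hWn)
  let x : I ⧸ K → A := fun q => fA (FreeGroup.of (cls (ψ u) q))
  have hx : ∀ q, x (ψ u * q) = x q := by
    intro q
    simp only [x]
    rw [cls_mul]
  obtain ⟨Φ, hΦ, hΦs⟩ := huniv (Equiv.Perm ((I ⧸ K) × A)) (Eact A ψ) (tact T x) (by
    ext1 ⟨a, y⟩
    rw [Equiv.Perm.mul_apply, Equiv.Perm.mul_apply, Eact_apply, tact_apply, tact_apply, Eact_apply,
      hx, ← mul_assoc, ← mul_assoc, hT])
  -- the first coordinate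
  have hfst : ∀ g : I, ∀ p : (I ⧸ K) × A, (Φ g p).1 = π g * p.1 := by
    intro g
    have hg : g ∈ Subgroup.closure (Set.range ι ∪ {s}) := by rw [hgen]; trivial
    induction hg using Subgroup.closure_induction with
    | mem y hy =>
      rcases hy with ⟨h, rfl⟩ | hy
      · rintro ⟨a, b⟩
        rw [hΦ, Eact_apply]
        rfl
      · rw [Set.mem_singleton_iff] at hy
        subst hy
        rintro ⟨a, b⟩
        rw [hΦs, tact_apply]
    | one => intro p; simp
    | mul y z _ _ hy hz =>
      intro p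
      rw [map_mul, Equiv.Perm.mul_apply, hy, hz, map_mul, mul_assoc]
    | inv y _ hy =>
      intro p
      have h1 := hy (Φ y⁻¹ p)
      rw [← Equiv.Perm.mul_apply, ← map_mul, mul_inv_cancel, map_one, Equiv.Perm.one_apply] at h1
      rw [h1, map_inv π y, inv_mul_cancel_left]
  -- evaluation
  have hval : ∀ L' : List (Bool × H), Φ (pr ι s L') (1, 1)
      = (pos T ψ L', fA (FreeGroup.mk (Wd (ψ u) T ψ L'))) := by
    intro L'
    induction L' with
    | nil =>
      rw [pr_nil, map_one, Equiv.Perm.one_apply]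
      show ((1 : I ⧸ K), (1 : A)) = (1, fA (FreeGroup.mk []))
      rw [← FreeGroup.one_eq_mk, map_one]
    | cons p L' ih =>
      rw [pr_cons, map_mul, map_mul, Equiv.Perm.mul_apply, Equiv.Perm.mul_apply, ih, hΦ,
        Eact_apply]
      rcases p with ⟨b, h⟩
      cases b
      · simp only [cond_false]
        have e2 : FreeGroup.mk (Wd (ψ u) T ψ ((false, h) :: L'))
            = (FreeGroup.of (cls (ψ u) (T⁻¹ * (ψ h * pos T ψ L'))))⁻¹ *
              FreeGroup.mk (Wd (ψ u) T ψ L') := by
          rw [FreeGroup.of, FreeGroup.inv_mk, FreeGroup.mul_mk]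
          rfl
        rw [map_inv, hΦs, tact_inv_apply, e2, map_mul, map_inv]
        rfl
      · simp only [cond_true]
        have e2 : FreeGroup.mk (Wd (ψ u) T ψ ((true, h) :: L'))
            = FreeGroup.of (cls (ψ u) (ψ h * pos T ψ L')) *
              FreeGroup.mk (Wd (ψ u) T ψ L') := by
          rw [FreeGroup.of, FreeGroup.mul_mk]
          rfl
        rw [hΦs, tact_apply, e2, map_mul]
        rfl
  -- the stabilizer
  let _ : MulAction S ((I ⧸ K) × A) := MulAction.compHom _ (Φ.comp S.subtype)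
  have hsmul : ∀ (k : S) (p : (I ⧸ K) × A), k • p = Φ k p := fun k p => rfl
  let St : Subgroup S := MulAction.stabilizer S ((1, 1) : (I ⧸ K) × A)
  have hfin : (MulAction.orbit S ((1, 1) : (I ⧸ K) × A)).Finite := by
    apply Set.Finite.subset (Set.finite_range (fun y : A => ((1, y) : (I ⧸ K) × A)))
    rintro p ⟨k, rfl⟩
    refine ⟨(Φ k (1, 1)).2, ?_⟩
    change (1, (Φ k (1, 1)).2) = Φ k (1, 1)
    refine Prod.ext ?_ rfl
    rw [hfst]
    have : π (k : I) = 1 := (QuotientGroup.eq_one_iff _).mpr (hS k.2)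
    rw [this]
    simp
  have hidx : St.index ≠ 0 := by
    rw [MulAction.index_stabilizer]
    exact Set.ncard_ne_zero_of_mem (MulAction.mem_orbit_self _) hfin
  have hle : St.map S.subtype ≤ S := by
    rintro y ⟨k, -, rfl⟩
    exact k.2
  have hsub : (St.map S.subtype).subgroupOf S = St :=
    Subgroup.comap_map_eq_self_of_injective S.subtype_injective St
  rw [mem_nextF] at hg
  obtain ⟨k, hk, hkg⟩ := hg (St.map S.subtype) hle (by rw [hsub]; exact hidx)
  have h1 : Φ g (1, 1) = (1, 1) := by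
    rw [← hkg]
    exact hk
  rw [hgL, map_mul, Equiv.Perm.mul_apply, hval, hΦ, Eact_apply] at h1
  exact hfA (congrArg Prod.snd h1)

end Pool.Agent.N151.FR
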