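import Mathlib
import Pool.Agent.N151.FR.Hnn

set_option autoImplicit false

/-! Normal subgroups of the HNN extension meeting the base trivially are free. -/

namespace Pool.Agent.N151.FR

open Pool.Agent.N151.RFC

universe v

/-- the permutation action of `H` on `Q × A` through the first factor -/
def eact {H Q : Type v} [Group H] [Group Q] (A : Type v) (ψ : H →* Q) :
    H →* Equiv.Perm (Q × A) where
  toFun h := Equiv.prodCongr (Equiv.mulLeft (ψ h)) (Equiv.refl A)
  map_one' := by
    ext ⟨q, t⟩ <;> simp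
  map_mul' := by
    intro a b
    ext ⟨q, t⟩ <;> simp [mul_assoc]

lemma eact_apply {H Q : Type v} [Group H] [Group Q] (A : Type v) (ψ : H →* Q) (h : H) (q : Q)
    (t : A) : eact A ψ h (q, t) = (ψ h * q, t) := rfl

/-- the permutation given by the stable letter -/
def tactv {Q : Type v} [Group Q] (T : Q) {A : Type v} [Group A] (x : Q → A) :
    Equiv.Perm (Q × A) where
  toFun p := (T * p.1, x p.1 * p.2)
  invFun p := (T⁻¹ * p.1, (x (T⁻¹ * p.1))⁻¹ * p.2)
  left_inv := by
    rintro ⟨a, y⟩
    simp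
  right_inv := by
    rintro ⟨a, y⟩
    simp

lemma tactv_apply {Q : Type v} [Group Q] (T : Q) {A : Type v} [Group A] (x : Q → A) (a : Q)
    (y : A) : tactv T x (a, y) = (T * a, x a * y) := rfl

lemma tactv_inv_apply {Q : Type v} [Group Q] (T : Q) {A : Type v} [Group A] (x : Q → A) (a : Q)
    (y : A) : (tactv T x)⁻¹ (a, y) = (T⁻¹ * a, (x (T⁻¹ * a))⁻¹ * y) := rfl

theorem exists_embed {I H : Type v} [Group I] [Group H] (ι : H →* I) (s : I) (u v : H)
    (hgen : Subgroup.closure (Set.range ι ∪ {s}) = ⊤)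
    (hrel : s * ι u = ι v * s)
    (huniv : ∀ (G : Type v) [Group G] (E : H →* G) (P : G), P * E u = E v * P →
      ∃ Φ : I →* G, (∀ h, Φ (ι h) = E h) ∧ Φ s = P)
    (K : Subgroup I) [K.Normal] (hK : ∀ h, ι h ∈ K → h = 1) :
    ∃ (E : Type v) (c : K →* FreeGroup E), Function.Injective c := by
  let π : I →* I ⧸ K := QuotientGroup.mk' K
  let ψ : H →* I ⧸ K := π.comp ι
  have hψ : Function.Injective ψ := by
    rw [injective_iff_map_eq_one]
    intro h hh
    exact hK h ((QuotientGroup.eq_one_iff _).mp hh)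
  let T : I ⧸ K := π s
  have hT : T * ψ u = ψ v * T := by
    change π s * π (ι u) = π (ι v) * π s
    rw [← map_mul, ← map_mul, hrel]
  have hz : ∀ (w h : H), ψ h ∈ Subgroup.zpowers (ψ w) → h ∈ Subgroup.zpowers w := by
    rintro w h ⟨k, hk⟩
    refine ⟨k, ?_⟩
    change ψ w ^ k = ψ h at hk
    change w ^ k = h
    apply hψ
    rw [map_zpow, hk]
  let A : Type v := FreeGroup (Cs (ψ u))
  let x : I ⧸ K → A := fun q => FreeGroup.of (cls (ψ u) q)
  have hx : ∀ q, x (ψ u * q) = x q := by
    intro q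
    simp only [x]
    rw [cls_mul]
  obtain ⟨Φ, hΦ, hΦs⟩ := huniv (Equiv.Perm ((I ⧸ K) × A)) (eact A ψ) (tactv T x) (by
    ext1 ⟨a, y⟩
    rw [Equiv.Perm.mul_apply, Equiv.Perm.mul_apply, eact_apply, tactv_apply, tactv_apply,
      eact_apply, hx, ← mul_assoc, ← mul_assoc, hT])
  -- the first coordinate and right equivariance
  have hboth : ∀ g : I, ∀ (p : (I ⧸ K) × A) (z : A), (Φ g p).1 = π g * p.1 ∧
      Φ g (p.1, p.2 * z) = ((Φ g p).1, (Φ g p).2 * z) := by
    intro g
    have hg : g ∈ Subgroup.closure (Set.range ι ∪ {s}) := by rw [hgen]; trivial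
    induction hg using Subgroup.closure_induction with
    | mem y hy =>
      rcases hy with ⟨h, rfl⟩ | hy
      · rintro ⟨a, b⟩ z
        rw [hΦ, eact_apply, eact_apply]
        exact ⟨rfl, rfl⟩
      · rw [Set.mem_singleton_iff] at hy
        subst hy
        rintro ⟨a, b⟩ z
        rw [hΦs, tactv_apply, tactv_apply]
        exact ⟨rfl, by rw [mul_assoc]⟩
    | one => intro p z; simp
    | mul y z _ _ hy hz =>
      intro p z'
      have h1 := hz p z'
      have h2 := hy (Φ z p) z'
      refine ⟨?_, ?_⟩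
      · rw [map_mul, Equiv.Perm.mul_apply, h2.1, h1.1, map_mul, mul_assoc]
      · rw [map_mul, Equiv.Perm.mul_apply, Equiv.Perm.mul_apply, h1.2]
        exact h2.2
    | inv y _ hy =>
      intro p z'
      have h0 : Φ y (Φ y⁻¹ p) = p := by
        rw [← Equiv.Perm.mul_apply, ← map_mul, mul_inv_cancel, map_one, Equiv.Perm.one_apply]
      have h1 := hy (Φ y⁻¹ p) z'
      refine ⟨?_, ?_⟩
      · have h2 := h1.1
        rw [h0] at h2
        rw [h2, map_inv π y, inv_mul_cancel_left]
      · have h3 := h1.2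
        rw [h0] at h3
        have h4 : Φ y⁻¹ (Φ y ((Φ y⁻¹ p).1, (Φ y⁻¹ p).2 * z')) = ((Φ y⁻¹ p).1, (Φ y⁻¹ p).2 * z') := by
          rw [← Equiv.Perm.mul_apply, ← map_mul, inv_mul_cancel, map_one, Equiv.Perm.one_apply]
        rw [h3] at h4
        exact h4
  -- evaluation
  have hval : ∀ L' : List (Bool × H), Φ (pr ι s L') (1, 1)
      = (pos T ψ L', FreeGroup.mk (Wd (ψ u) T ψ L')) := by
    intro L'
    induction L' with
    | nil =>
      rw [pr_nil, map_one, Equiv.Perm.one_apply]
      rfl
    | cons p L' ih =>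
      rw [pr_cons, map_mul, map_mul, Equiv.Perm.mul_apply, Equiv.Perm.mul_apply, ih, hΦ,
        eact_apply]
      rcases p with ⟨b, h⟩
      cases b
      · simp only [cond_false]
        have e2 : FreeGroup.mk (Wd (ψ u) T ψ ((false, h) :: L'))
            = (FreeGroup.of (cls (ψ u) (T⁻¹ * (ψ h * pos T ψ L'))))⁻¹ *
              FreeGroup.mk (Wd (ψ u) T ψ L') := by
          rw [FreeGroup.of, FreeGroup.inv_mk, FreeGroup.mul_mk]
          rfl
        rw [map_inv, hΦs, tactv_inv_apply, e2]
        rfl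
      · simp only [cond_true]
        have e2 : FreeGroup.mk (Wd (ψ u) T ψ ((true, h) :: L'))
            = FreeGroup.of (cls (ψ u) (ψ h * pos T ψ L')) *
              FreeGroup.mk (Wd (ψ u) T ψ L') := by
          rw [FreeGroup.of, FreeGroup.mul_mk]
          rfl
        rw [hΦs, tactv_apply, e2]
        rfl
  have hpi : ∀ k : K, π (k : I) = 1 := fun k => (QuotientGroup.eq_one_iff _).mpr k.2
  let c : K →* A :=
    { toFun := fun k => (Φ k (1, 1)).2
      map_one' := by simp
      map_mul' := by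
        intro k k'
        change (Φ ((k : I) * k') (1, 1)).2 = _
        rw [map_mul, Equiv.Perm.mul_apply]
        have h1 : Φ k' (1, 1) = ((1 : I ⧸ K), (1 : A) * (Φ k' (1, 1)).2) := by
          refine Prod.ext ?_ (one_mul _).symm
          rw [(hboth k' (1, 1) 1).1, hpi]
          exact one_mul _
        rw [h1]
        have h2 := (hboth k (1, 1) (Φ k' (1, 1)).2).2
        rw [h2]
        simp }
  refine ⟨Cs (ψ u), c, ?_⟩
  rw [injective_iff_map_eq_one]
  rintro ⟨g, hgK⟩ hg
  apply Subtype.ext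
  change g = 1
  by_contra hne
  obtain ⟨h0, L, hL, hgL⟩ := exists_red2 ι s u v hgen hrel g
  have hLn : L ≠ [] := by
    rintro rfl
    rw [pr_nil, mul_one] at hgL
    rw [hgL] at hgK
    have := hK h0 hgK
    rw [this, map_one] at hgL
    exact hne hgL
  have hred := Wd_reduced (ψ u) T ψ u v hT rfl (hz u) (hz v) L hL
  have hWn : Wd (ψ u) T ψ L ≠ [] := by
    cases L with
    | nil => exact absurd rfl hLn
    | cons p L => simp [Wd]
  have h1 : (Φ g (1, 1)).2 = 1 := hg
  rw [hgL, map_mul, Equiv.Perm.mul_apply, hval, hΦ, eact_apply] at h1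
  exact mk_ne_one hred hWn h1

/-- a group that embeds in a free group is free -/
theorem isFree_of_embed {K : Type v} [Group K] {E : Type v} (c : K →* FreeGroup E)
    (hc : Function.Injective c) : IsFreeGroup K := by
  have h1 : IsFreeGroup c.range := inferInstance
  exact IsFreeGroup.ofMulEquiv (MonoidHom.ofInjective hc).symm

end Pool.Agent.N151.FR
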