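import Mathlib
import Pool.Agent.N151.FR.HnnFree

set_option autoImplicit false

/-! HNN extensions with arbitrary associated subgroups: normal subgroups meeting the base trivially
embed in free groups. -/

namespace Pool.Agent.N151.FR

open Pool.Agent.N151.RFC

universe v w

section

variable {I H : Type v} [Group I] [Group H] {R : Type w} [Group R]
  (ι : H →* I) (s : I) (α γ : R →* H)

/-- the reducedness condition -/
def Red3 (L : List (Bool × H)) : Prop :=
  L.IsChain (fun p q => p.2 ∈ (cond p.1 α γ).range → p.1 = q.1)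

lemma exists_red3 (hgen : Subgroup.closure (Set.range ι ∪ {s}) = ⊤)
    (hrel : ∀ x, s * ι (α x) = ι (γ x) * s) (g : I) :
    ∃ (h0 : H) (L : List (Bool × H)), Red3 α γ L ∧ g = ι h0 * pr ι s L := by
  have hz' : ∀ x, s⁻¹ * ι (γ x) = ι (α x) * s⁻¹ := by
    intro x
    rw [inv_mul_eq_iff_eq_mul, ← mul_assoc, hrel, mul_inv_cancel_right]
  have hH : ∀ (h : H) (g : I), (∃ (h0 : H) (L : List (Bool × H)), Red3 α γ L ∧ g = ι h0 * pr ι s L) →
      ∃ (h0 : H) (L : List (Bool × H)), Red3 α γ L ∧ ι h * g = ι h0 * pr ι s L := by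
    rintro h g ⟨h0, L, hL, rfl⟩
    exact ⟨h * h0, L, hL, by rw [map_mul, mul_assoc]⟩
  have hS : ∀ (b : Bool) (g : I),
      (∃ (h0 : H) (L : List (Bool × H)), Red3 α γ L ∧ g = ι h0 * pr ι s L) →
      ∃ (h0 : H) (L : List (Bool × H)), Red3 α γ L ∧ cond b s s⁻¹ * g = ι h0 * pr ι s L := by
    rintro b g ⟨h0, L, hL, rfl⟩
    cases L with
    | nil =>
      exact ⟨1, [(b, h0)], List.isChain_singleton _, by
        rw [pr_cons, map_one, one_mul, mul_assoc]⟩
    | cons p L =>
      by_cases hc : h0 ∈ (cond b α γ).range → b = p.1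
      · refine ⟨1, (b, h0) :: p :: L, ?_, ?_⟩
        · exact List.isChain_cons_cons.mpr ⟨hc, hL⟩
        · rw [pr_cons ι s (b, h0), map_one, one_mul, mul_assoc]
      · push Not at hc
        obtain ⟨⟨k, hk⟩, hb⟩ := hc
        refine ⟨(cond b γ α) k * p.2, L, List.IsChain.tail hL, ?_⟩
        rw [pr_cons, map_mul, ← hk]
        rcases p with ⟨b1, h1⟩
        simp only at hb ⊢
        cases b <;> cases b1
        · exact absurd rfl hb
        · simp only [cond_false, cond_true]
          calc s⁻¹ * (ι (γ k) * (s * ι h1 * pr ι s L))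
              = s⁻¹ * ι (γ k) * (s * (ι h1 * pr ι s L)) := by simp only [mul_assoc]
            _ = ι (α k) * s⁻¹ * (s * (ι h1 * pr ι s L)) := by rw [hz']
            _ = ι (α k) * ι h1 * pr ι s L := by
              rw [mul_assoc, inv_mul_cancel_left, mul_assoc]
        · simp only [cond_false, cond_true]
          calc s * (ι (α k) * (s⁻¹ * ι h1 * pr ι s L))
              = s * ι (α k) * (s⁻¹ * (ι h1 * pr ι s L)) := by simp only [mul_assoc]
            _ = ι (γ k) * s * (s⁻¹ * (ι h1 * pr ι s L)) := by rw [hrel]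
            _ = ι (γ k) * ι h1 * pr ι s L := by
              rw [mul_assoc, mul_inv_cancel_left, mul_assoc]
        · exact absurd rfl hb
  have hg : g ∈ Subgroup.closure (Set.range ι ∪ {s}) := by rw [hgen]; trivial
  induction hg using Subgroup.closure_induction_left with
  | one => exact ⟨1, [], List.isChain_nil, by rw [pr_nil, map_one, one_mul]⟩
  | mul_left x hx y hy ih =>
    rcases hx with ⟨h, rfl⟩ | hx
    · exact hH h _ ih
    · rw [Set.mem_singleton_iff] at hx
      rw [hx]
      exact hS true _ ih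
  | inv_mul_cancel x hx y hy ih =>
    rcases hx with ⟨h, rfl⟩ | hx
    · rw [← map_inv]
      exact hH h⁻¹ _ ih
    · rw [Set.mem_singleton_iff] at hx
      rw [hx]
      exact hS false _ ih

end

section

variable {Q : Type v} [Group Q] (D : Subgroup Q) (T : Q) {H : Type v} [Group H] (ψ : H →* Q)

/-- right cosets of `D` -/
abbrev CsD : Type v := Quotient (QuotientGroup.rightRel D)

/-- the class of `q` -/
def clD (q : Q) : CsD D := Quotient.mk _ q

lemma clD_eq (q q' : Q) : clD D q = clD D q' ↔ q' * q⁻¹ ∈ D := by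
  rw [clD, clD, Quotient.eq]
  exact QuotientGroup.rightRel_apply

lemma clD_mul {d : Q} (hd : d ∈ D) (q : Q) : clD D (d * q) = clD D q := by
  rw [clD_eq, mul_inv_rev, mul_inv_cancel_left]
  exact D.inv_mem hd

lemma mem_of_clD {h q : Q} (hc : clD D (h * q) = clD D q) : h ∈ D := by
  rw [clD_eq, mul_inv_rev, mul_inv_cancel_left] at hc
  exact (Subgroup.inv_mem_iff _).mp hc

/-- the word read along the path -/
def WdD : List (Bool × H) → List (CsD D × Bool)
  | [] => []
  | p :: L => (clD D (cond p.1 (ψ p.2 * pos T ψ L) (T⁻¹ * (ψ p.2 * pos T ψ L))), p.1) :: WdD L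

lemma WdD_reduced {R : Type w} [Group R] (α γ : R →* H) (hT : ∀ x, T * ψ (α x) = ψ (γ x) * T)
    (hψ : Function.Injective ψ) (hD : D = (ψ.comp α).range) :
    ∀ L : List (Bool × H), Red3 α γ L → FreeGroup.IsReduced (WdD D T ψ L) := by
  intro L
  induction L with
  | nil => intro _; exact List.isChain_nil
  | cons p L ih =>
    intro hL
    cases L with
    | nil => exact List.isChain_singleton _
    | cons p1 L =>
      have h1 := List.isChain_cons_cons.mp hL
      have h2 := ih h1.2
      refine List.isChain_cons_cons.mpr ⟨?_, h2⟩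
      intro hc
      rcases p with ⟨b, f⟩
      rcases p1 with ⟨b1, f1⟩
      simp only at hc ⊢
      by_contra hne
      apply hne
      apply h1.1
      set x := ψ f1 * pos T ψ L with hx
      have hpos : pos T ψ ((b1, f1) :: L) = cond b1 T T⁻¹ * x := rfl
      rw [hpos] at hc
      cases b <;> cases b1
      · exact absurd rfl hne
      · -- `t⁻¹ f t`
        simp only [cond_false, cond_true] at hc ⊢
        have e : T⁻¹ * (ψ f * (T * x)) = (T⁻¹ * ψ f * T) * x := by group
        rw [e] at hc
        have h3 := mem_of_clD D hc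
        rw [hD] at h3
        obtain ⟨k, hk⟩ := h3
        change ψ (α k) = T⁻¹ * ψ f * T at hk
        refine ⟨k, ?_⟩
        apply hψ
        have e2 : ψ (γ k) = T * ψ (α k) * T⁻¹ := by rw [hT, mul_inv_cancel_right]
        rw [e2, hk]
        group
      · -- `t f t⁻¹`
        simp only [cond_false, cond_true] at hc ⊢
        have h3 := mem_of_clD D hc
        rw [hD] at h3
        obtain ⟨k, hk⟩ := h3
        exact ⟨k, hψ hk⟩
      · exact absurd rfl hne

end

theorem exists_embed3 {I H : Type v} [Group I] [Group H] {R : Type w} [Group R]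
    (ι : H →* I) (s : I) (α γ : R →* H)
    (hgen : Subgroup.closure (Set.range ι ∪ {s}) = ⊤)
    (hrel : ∀ x, s * ι (α x) = ι (γ x) * s)
    (huniv : ∀ (G : Type v) [Group G] (E : H →* G) (P : G),
      (∀ x, P * E (α x) = E (γ x) * P) →
      ∃ Φ : I →* G, (∀ h, Φ (ι h) = E h) ∧ Φ s = P)
    (K : Subgroup I) [K.Normal] (hK : ∀ h, ι h ∈ K → h = 1) :
    ∃ (E : Type v) (c : K →* FreeGroup E), Function.Injective c := by
  let π : I →* I ⧸ K := QuotientGroup.mk' K
  let ψ : H →* I ⧸ K := π.comp ι
  have hψ : Function.Injective ψ := by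
    rw [injective_iff_map_eq_one]
    intro h hh
    exact hK h ((QuotientGroup.eq_one_iff _).mp hh)
  let T : I ⧸ K := π s
  have hT : ∀ x, T * ψ (α x) = ψ (γ x) * T := by
    intro x
    change π s * π (ι (α x)) = π (ι (γ x)) * π s
    rw [← map_mul, ← map_mul, hrel]
  let D : Subgroup (I ⧸ K) := (ψ.comp α).range
  let A : Type v := FreeGroup (CsD D)
  let x : I ⧸ K → A := fun q => FreeGroup.of (clD D q)
  have hx : ∀ r q, x (ψ (α r) * q) = x q := by
    intro r q
    simp only [x]
    rw [clD_mul D (show ψ (α r) ∈ D from ⟨r, rfl⟩)]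
  obtain ⟨Φ, hΦ, hΦs⟩ := huniv (Equiv.Perm ((I ⧸ K) × A)) (eact A ψ) (tactv T x) (by
    intro r
    ext1 ⟨a, y⟩
    rw [Equiv.Perm.mul_apply, Equiv.Perm.mul_apply, eact_apply, tactv_apply, tactv_apply,
      eact_apply, hx, ← mul_assoc, ← mul_assoc, hT])
  -- the first coordinate and right equivariance
  have hboth : ∀ g : I, ∀ (p : (I ⧸ K) × A) (z : A), (Φ g p).1 = π g * p.1 ∧
      Φ g (p.1, p.2 * z) = ((Φ g p).1, (Φ g p).2 * z) := by
    intro g
    have hg : g ∈ Subgroup.closure (Set.range ι ∪ {s}) := by rw [hgen]; trivial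
    induction hg using Subgroup.closure_induction with
    | mem y hy =>
      rcases hy with ⟨h, rfl⟩ | hy
      · rintro ⟨a, b⟩ z
        rw [hΦ, eact_apply, eact_apply]
        exact ⟨rfl, rfl⟩
      · rw [Set.mem_singleton_iff] at hy
        subst hy
        rintro ⟨a, b⟩ z
        rw [hΦs, tactv_apply, tactv_apply]
        exact ⟨rfl, by rw [mul_assoc]⟩
    | one => intro p z; simp
    | mul y z _ _ hy hz =>
      intro p z'
      have h1 := hz p z'
      have h2 := hy (Φ z p) z'
      refine ⟨?_, ?_⟩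
      · rw [map_mul, Equiv.Perm.mul_apply, h2.1, h1.1, map_mul, mul_assoc]
      · rw [map_mul, Equiv.Perm.mul_apply, Equiv.Perm.mul_apply, h1.2]
        exact h2.2
    | inv y _ hy =>
      intro p z'
      have h0 : Φ y (Φ y⁻¹ p) = p := by
        rw [← Equiv.Perm.mul_apply, ← map_mul, mul_inv_cancel, map_one, Equiv.Perm.one_apply]
      have h1 := hy (Φ y⁻¹ p) z'
      refine ⟨?_, ?_⟩
      · have h2 := h1.1
        rw [h0] at h2
        rw [h2, map_inv π y, inv_mul_cancel_left]
      · have h3 := h1.2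
        rw [h0] at h3
        have h4 : Φ y⁻¹ (Φ y ((Φ y⁻¹ p).1, (Φ y⁻¹ p).2 * z')) = ((Φ y⁻¹ p).1, (Φ y⁻¹ p).2 * z') := by
          rw [← Equiv.Perm.mul_apply, ← map_mul, inv_mul_cancel, map_one, Equiv.Perm.one_apply]
        rw [h3] at h4
        exact h4
  -- evaluation
  have hval : ∀ L' : List (Bool × H), Φ (pr ι s L') (1, 1)
      = (pos T ψ L', FreeGroup.mk (WdD D T ψ L')) := by
    intro L'
    induction L' with
    | nil =>
      rw [pr_nil, map_one, Equiv.Perm.one_apply]
      rfl
    | cons p L' ih =>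
      rw [pr_cons, map_mul, map_mul, Equiv.Perm.mul_apply, Equiv.Perm.mul_apply, ih, hΦ,
        eact_apply]
      rcases p with ⟨b, h⟩
      cases b
      · simp only [cond_false]
        have e2 : FreeGroup.mk (WdD D T ψ ((false, h) :: L'))
            = (FreeGroup.of (clD D (T⁻¹ * (ψ h * pos T ψ L'))))⁻¹ *
              FreeGroup.mk (WdD D T ψ L') := by
          rw [FreeGroup.of, FreeGroup.inv_mk, FreeGroup.mul_mk]
          rfl
        rw [map_inv, hΦs, tactv_inv_apply, e2]
        rfl
      · simp only [cond_true]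
        have e2 : FreeGroup.mk (WdD D T ψ ((true, h) :: L'))
            = FreeGroup.of (clD D (ψ h * pos T ψ L')) *
              FreeGroup.mk (WdD D T ψ L') := by
          rw [FreeGroup.of, FreeGroup.mul_mk]
          rfl
        rw [hΦs, tactv_apply, e2]
        rfl
  have hpi : ∀ k : K, π (k : I) = 1 := fun k => (QuotientGroup.eq_one_iff _).mpr k.2
  let c : K →* A :=
    { toFun := fun k => (Φ k (1, 1)).2
      map_one' := by simp
      map_mul' := by
        intro k k'
        change (Φ ((k : I) * k') (1, 1)).2 = _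
        rw [map_mul, Equiv.Perm.mul_apply]
        have h1 : Φ k' (1, 1) = ((1 : I ⧸ K), (1 : A) * (Φ k' (1, 1)).2) := by
          refine Prod.ext ?_ (one_mul _).symm
          rw [(hboth k' (1, 1) 1).1, hpi]
          exact one_mul _
        rw [h1]
        have h2 := (hboth k (1, 1) (Φ k' (1, 1)).2).2
        rw [h2]
        simp }
  refine ⟨CsD D, c, ?_⟩
  rw [injective_iff_map_eq_one]
  rintro ⟨g, hgK⟩ hg
  apply Subtype.ext
  change g = 1
  by_contra hne
  obtain ⟨h0, L, hL, hgL⟩ := exists_red3 ι s α γ hgen hrel g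
  have hLn : L ≠ [] := by
    rintro rfl
    rw [pr_nil, mul_one] at hgL
    rw [hgL] at hgK
    have := hK h0 hgK
    rw [this, map_one] at hgL
    exact hne hgL
  have hred := WdD_reduced D T ψ α γ hT hψ rfl L hL
  have hWn : WdD D T ψ L ≠ [] := by
    cases L with
    | nil => exact absurd rfl hLn
    | cons p L => simp [WdD]
  have h1 : (Φ g (1, 1)).2 = 1 := hg
  rw [hgL, map_mul, Equiv.Perm.mul_apply, hval, hΦ, eact_apply] at h1
  exact mk_ne_one hred hWn h1

/-- subgroups that embed in free groups have trivial finite residual -/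
theorem nextF_of_embed {G : Type*} [Group G] (S : Subgroup G) {E : Type*} (c : S →* FreeGroup E)
    (hc : Function.Injective c) : nextF S = ⊥ := by
  rw [eq_bot_iff]
  intro g hg
  rw [Subgroup.mem_bot]
  by_contra hne
  have hgS : g ∈ S := by
    rw [mem_nextF] at hg
    apply hg S le_rfl
    simp
  have h1 : c ⟨g, hgS⟩ ≠ 1 := by
    intro h
    have := hc (h.trans (map_one c).symm)
    exact hne (congrArg Subtype.val this)
  obtain ⟨T, _, _, f, hf⟩ := free_res _ h1
  let Φ : S →* T := f.comp c
  have hfin : Finite (S ⧸ Φ.ker) :=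
    Finite.of_injective _ (QuotientGroup.kerLift_injective Φ)
  have hfi : Φ.ker.FiniteIndex := Subgroup.finiteIndex_of_finite_quotient
  have hle : Φ.ker.map S.subtype ≤ S := by
    rintro y ⟨k, -, rfl⟩
    exact k.2
  have hsub : (Φ.ker.map S.subtype).subgroupOf S = Φ.ker :=
    Subgroup.comap_map_eq_self_of_injective S.subtype_injective _
  rw [mem_nextF] at hg
  obtain ⟨k, hk, hkg⟩ := hg _ hle (by rw [hsub]; exact hfi.index_ne_zero)
  have hk2 : k = ⟨g, hgS⟩ := Subtype.ext hkg
  rw [hk2] at hk
  exact hf hk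

end Pool.Agent.N151.FR
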