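import Mathlib
import Pool.Agent.N151.FR.Hnn
import Pool.Agent.N151.RFC.Transport

set_option autoImplicit false

/-! The second finite residual of `⟨Y, t ; t u t⁻¹ = v⟩` is trivial. -/

namespace Pool.Agent.N151.FR

open Pool.Agent.N151.RFC

universe v

section

variable {Y : Type v} (u v : FreeGroup Y)

/-- the relator `t u t⁻¹ v⁻¹` -/
def hr : FreeGroup (Option Y) := la Y * Rr u * (la Y)⁻¹ * (Rr v)⁻¹

/-- the group -/
abbrev GG : Type v := PresentedGroup {hr u v}

/-- the base -/
def bs : FreeGroup Y →* GG u v := (PresentedGroup.mk _).comp (FreeGroup.map some)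

/-- the stable letter -/
def tt : GG u v := PresentedGroup.of none

lemma rel_GG : tt u v * bs u v u = bs u v v * tt u v := by
  have h : PresentedGroup.mk {hr u v} (hr u v) = 1 :=
    PresentedGroup.one_of_mem (Set.mem_singleton _)
  have h2 : PresentedGroup.mk {hr u v} (hr u v)
      = tt u v * bs u v u * (tt u v)⁻¹ * (bs u v v)⁻¹ := by
    change PresentedGroup.mk {hr u v} (la Y * Rr u * (la Y)⁻¹ * (Rr v)⁻¹) = _
    rw [_root_.map_mul, _root_.map_mul, _root_.map_mul, _root_.map_inv, _root_.map_inv]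
    rfl
  rw [h2, mul_inv_eq_one, mul_inv_eq_iff_eq_mul] at h
  exact h

lemma gen_GG : Subgroup.closure (Set.range (bs u v) ∪ {tt u v}) = ⊤ := by
  rw [eq_top_iff, ← PresentedGroup.closure_range_of, Subgroup.closure_le]
  rintro x ⟨o, rfl⟩
  cases o with
  | none => exact Subgroup.subset_closure (Or.inr rfl)
  | some y =>
    refine Subgroup.subset_closure (Or.inl ⟨FreeGroup.of y, ?_⟩)
    rw [bs, MonoidHom.comp_apply, FreeGroup.map.of]
    rfl

lemma univ_GG {G : Type*} [Group G] (E : FreeGroup Y →* G) (P : G) (hP : P * E u = E v * P) :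
    ∃ Φ : GG u v →* G, (∀ h, Φ (bs u v h) = E h) ∧ Φ (tt u v) = P := by
  let Φ0 : FreeGroup (Option Y) →* G := ev P (fun y => E (FreeGroup.of y))
  have h1 : ∀ g, Φ0 (Rr g) = E g := by
    intro g
    rw [ev_map]
    have : FreeGroup.lift (fun y => E (FreeGroup.of y)) = E := by
      ext y
      simp
    rw [this]
  have h2 : ∀ x ∈ ({hr u v} : Set (FreeGroup (Option Y))), Φ0 x = 1 := by
    intro x hx
    rw [Set.mem_singleton_iff] at hx
    subst hx
    rw [hr, _root_.map_mul, _root_.map_mul, _root_.map_mul, _root_.map_inv, _root_.map_inv, h1, h1]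
    have : Φ0 (la Y) = P := ev_none _ _
    rw [this, hP, mul_inv_cancel_right, mul_inv_cancel]
  refine ⟨PresentedGroup.toGroup h2, ?_, ?_⟩
  · intro h
    exact h1 h
  · exact ev_none P (fun y => E (FreeGroup.of y))

/-- the intersection of the normal subgroups of finite index -/
def KK : Subgroup (GG u v) := ⨅ N : FiniteIndexNormalSubgroup (GG u v), N.toSubgroup

instance : (KK u v).Normal := by
  apply Subgroup.normal_iInf_normal
  intro N
  exact N.isNormal'

lemma nextF_le_KK : nextF (⊤ : Subgroup (GG u v)) ≤ KK u v := by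
  intro g hg
  rw [KK, Subgroup.mem_iInf]
  intro N
  rw [mem_nextF] at hg
  apply hg _ le_top
  have := N.isFiniteIndex'.index_ne_zero
  rw [← Subgroup.relIndex_top_right] at this
  exact this

lemma KK_base (hu : u ≠ 1) (hv : v ≠ 1) (h : FreeGroup Y) (hh : bs u v h ∈ KK u v) : h = 1 := by
  by_contra hne
  obtain ⟨B, _, _, σ, t, ht, hσ⟩ := exists_fin u v h hu hv hne
  obtain ⟨Φ, hΦ, -⟩ := univ_GG u v σ t (by rw [← ht]; group)
  have hfin : Finite (GG u v ⧸ Φ.ker) :=
    Finite.of_injective _ (QuotientGroup.kerLift_injective Φ)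
  have hfi : Φ.ker.FiniteIndex := Subgroup.finiteIndex_of_finite_quotient
  let N : FiniteIndexNormalSubgroup (GG u v) :=
    { toSubgroup := Φ.ker, isNormal' := inferInstance, isFiniteIndex' := hfi }
  rw [KK, Subgroup.mem_iInf] at hh
  have h1 : bs u v h ∈ Φ.ker := hh N
  rw [MonoidHom.mem_ker, hΦ] at h1
  exact hσ h1

/-- **`f² G = 1` for `G = ⟨Y, t ; t u t⁻¹ = v⟩`.** -/
theorem second (hu : u ≠ 1) (hv : v ≠ 1) :
    nextF (nextF (⊤ : Subgroup (GG u v))) = ⊥ :=
  nextF_eq_bot (bs u v) (tt u v) u v (gen_GG u v) (rel_GG u v)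
    (fun _ _ E P hP => univ_GG u v E P hP) (KK u v) (KK_base u v hu hv) _ (nextF_le_KK u v)

end

lemma nextF_bot {G : Type*} [Group G] : nextF (⊥ : Subgroup G) = ⊥ := by
  rw [eq_bot_iff]
  intro g hg
  rw [mem_nextF] at hg
  exact hg ⊥ le_rfl (by simp)

lemma nextF_comap_equiv {G Q : Type*} [Group G] [Group Q] (e : G ≃* Q) (T : Subgroup Q) :
    nextF (T.comap e.toMonoidHom) = (nextF T).comap e.toMonoidHom := by
  apply nextF_comap e.toMonoidHom e.surjective
  intro K _ x hx
  have : x = 1 := e.injective (by rw [map_one]; exact hx)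
  rw [this]
  exact K.one_mem

/-- basis form -/
theorem second_basis {X : Type*} {Y : Type v} (b : FreeGroupBasis (Option Y) (FreeGroup X))
    (u v : FreeGroup X)
    (hu : u ∈ Subgroup.closure (Set.range fun y : Y => b (some y)))
    (hv : v ∈ Subgroup.closure (Set.range fun y : Y => b (some y)))
    (hu1 : u ≠ 1) (hv1 : v ≠ 1) :
    nextF (nextF (⊤ : Subgroup (PresentedGroup {b none * u * (b none)⁻¹ * v⁻¹}))) = ⊥ := by
  obtain ⟨u0, hu0⟩ := exists_word' _ _ hu
  obtain ⟨v0, hv0⟩ := exists_word' _ _ hv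
  let e : FreeGroup (Option Y) ≃* FreeGroup X := b.repr.symm
  have he : ∀ o, e (FreeGroup.of o) = b o := fun o => rfl
  have hcomp : e.toMonoidHom.comp (FreeGroup.map some) = FreeGroup.lift fun y : Y => b (some y) := by
    ext y
    simp [he]
  have e1 : e (Rr u0) = u := by
    rw [← hu0]
    exact DFunLike.congr_fun hcomp u0
  have e2 : e (Rr v0) = v := by
    rw [← hv0]
    exact DFunLike.congr_fun hcomp v0
  have hu01 : u0 ≠ 1 := by
    rintro rfl
    apply hu1
    rw [← e1, Rr, _root_.map_one, _root_.map_one]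
  have hv01 : v0 ≠ 1 := by
    rintro rfl
    apply hv1
    rw [← e2, Rr, _root_.map_one, _root_.map_one]
  have e3 : e (hr u0 v0) = b none * u * (b none)⁻¹ * v⁻¹ := by
    rw [hr, _root_.map_mul, _root_.map_mul, _root_.map_mul, _root_.map_inv, _root_.map_inv, e1, e2,
      he]
  have E := oneRelCongr e _ _ e3
  have h1 := second u0 v0 hu01 hv01
  have h2 : nextF (nextF (⊤ : Subgroup (PresentedGroup {b none * u * (b none)⁻¹ * v⁻¹})))
      = (nextF (nextF (⊤ : Subgroup (GG u0 v0)))).comap E.symm.toMonoidHom := by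
    rw [← nextF_comap_equiv E.symm, ← nextF_comap_equiv E.symm, Subgroup.comap_top]
  rw [h2, h1, eq_bot_iff]
  intro x hx
  rw [Subgroup.mem_bot]
  apply E.symm.injective
  rw [_root_.map_one]
  exact hx

end Pool.Agent.N151.FR
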