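import Mathlib
import Pool.Agent.N151.FR.Main
import Pool.Agent.N151.FR.HnnFree

set_option autoImplicit false

/-! The finite residual of `⟨Y, t ; t u t⁻¹ = v⟩` is free. -/

namespace Pool.Agent.N151.FR

open Pool.Agent.N151.RFC

universe v

theorem free_first {Y : Type v} (u v : FreeGroup Y) (hu : u ≠ 1) (hv : v ≠ 1) :
    IsFreeGroup (nextF (⊤ : Subgroup (GG u v))) := by
  obtain ⟨E, c, hc⟩ := exists_embed (bs u v) (tt u v) u v (gen_GG u v) (rel_GG u v)
    (fun _ _ E P hP => univ_GG u v E P hP) (KK u v) (KK_base u v hu hv)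
  apply isFree_of_embed (c.comp (Subgroup.inclusion (nextF_le_KK u v)))
  exact hc.comp (Subgroup.inclusion_injective _)

/-- basis form -/
theorem free_first_basis {X : Type*} {Y : Type v} (b : FreeGroupBasis (Option Y) (FreeGroup X))
    (u v : FreeGroup X)
    (hu : u ∈ Subgroup.closure (Set.range fun y : Y => b (some y)))
    (hv : v ∈ Subgroup.closure (Set.range fun y : Y => b (some y)))
    (hu1 : u ≠ 1) (hv1 : v ≠ 1) :
    IsFreeGroup (nextF (⊤ : Subgroup (PresentedGroup {b none * u * (b none)⁻¹ * v⁻¹}))) := by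
  obtain ⟨u0, hu0⟩ := exists_word' _ _ hu
  obtain ⟨v0, hv0⟩ := exists_word' _ _ hv
  let e : FreeGroup (Option Y) ≃* FreeGroup X := b.repr.symm
  have he : ∀ o, e (FreeGroup.of o) = b o := fun o => rfl
  have hcomp : e.toMonoidHom.comp (FreeGroup.map some) = FreeGroup.lift fun y : Y => b (some y) := by
    ext y
    simp [he]
  have e1 : e (Rr u0) = u := by
    rw [← hu0]
    exact DFunLike.congr_fun hcomp u0
  have e2 : e (Rr v0) = v := by
    rw [← hv0]
    exact DFunLike.congr_fun hcomp v0
  have hu01 : u0 ≠ 1 := by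
    rintro rfl
    apply hu1
    rw [← e1, Rr, _root_.map_one, _root_.map_one]
  have hv01 : v0 ≠ 1 := by
    rintro rfl
    apply hv1
    rw [← e2, Rr, _root_.map_one, _root_.map_one]
  have e3 : e (hr u0 v0) = b none * u * (b none)⁻¹ * v⁻¹ := by
    rw [hr, _root_.map_mul, _root_.map_mul, _root_.map_mul, _root_.map_inv, _root_.map_inv, e1, e2,
      he]
  have E := oneRelCongr e _ _ e3
  have h1 := free_first u0 v0 hu01 hv01
  have h2 : nextF (⊤ : Subgroup (PresentedGroup {b none * u * (b none)⁻¹ * v⁻¹}))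
      = (nextF (⊤ : Subgroup (GG u0 v0))).comap E.symm.toMonoidHom := by
    rw [← nextF_comap_equiv E.symm, Subgroup.comap_top]
  rw [h2]
  have h3 : (nextF (⊤ : Subgroup (GG u0 v0))) ≃*
      ((nextF (⊤ : Subgroup (GG u0 v0))).comap E.symm.toMonoidHom) :=
    { toFun := fun x => ⟨E x, by
        rw [Subgroup.mem_comap]
        change E.symm (E x) ∈ _
        rw [E.symm_apply_apply]
        exact x.2⟩
      invFun := fun x => ⟨E.symm x, x.2⟩
      left_inv := fun x => Subtype.ext (E.symm_apply_apply _)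
      right_inv := fun x => Subtype.ext (E.apply_symm_apply _)
      map_mul' := fun x y => Subtype.ext (_root_.map_mul E _ _) }
  exact IsFreeGroup.ofMulEquiv h3

end Pool.Agent.N151.FR
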