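import Mathlib
import Pool.Agent.N151.FR.FinQ

set_option autoImplicit false

/-! Homomorphisms to finite `q`-groups. -/

namespace Pool.Agent.N151.FR

universe u

open Pool.Agent.N151.RFC

/-- a proper subgroup of a finite `q`-group lies in the kernel of a nontrivial homomorphism to an
abelian `q`-group -/
lemma exists_hom_of_lt {q : ℕ} [Fact q.Prime] {P : Type} [Group P] [Finite P] (hP : IsPGroup q P)
    (S : Subgroup P) (hS : S ≠ ⊤) :
    ∃ (C : Type) (_ : CommGroup C) (χ : P →* C), IsPGroup q C ∧ (∀ x ∈ S, χ x = 1) ∧ χ ≠ 1 := by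
  obtain ⟨M, hM, hSM⟩ := (eq_top_or_exists_le_coatom S).resolve_left hS
  have hnil : Group.IsNilpotent P := hP.isNilpotent
  have hMn : M.Normal := ((Group.isNilpotent_of_finite_tfae (G := P)).out 0 2 rfl rfl).mp hnil M hM
  have hcyc : IsCyclic (P ⧸ M) := by
    have hne : M ≠ ⊤ := hM.1
    obtain ⟨x, hx⟩ : ∃ x : P, x ∉ M := by
      by_contra hcon
      push Not at hcon
      exact hne (eq_top_iff.mpr fun x _ => hcon x)
    refine ⟨⟨(x : P ⧸ M), ?_⟩⟩
    intro y
    obtain ⟨y, rfl⟩ := QuotientGroup.mk_surjective y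
    have h1 : M < (Subgroup.zpowers (x : P ⧸ M)).comap (QuotientGroup.mk' M) := by
      refine lt_of_le_of_ne ?_ ?_
      · intro z hz
        rw [Subgroup.mem_comap]
        have : QuotientGroup.mk' M z = 1 := (QuotientGroup.eq_one_iff z).mpr hz
        rw [this]
        exact one_mem _
      · intro h
        apply hx
        rw [h, Subgroup.mem_comap]
        exact Subgroup.mem_zpowers _
    have h2 := hM.2 _ h1
    have h3 : y ∈ (Subgroup.zpowers (x : P ⧸ M)).comap (QuotientGroup.mk' M) := by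
      rw [h2]; trivial
    exact h3
  refine ⟨P ⧸ M, IsCyclic.commGroup, QuotientGroup.mk' M, hP.to_quotient M, ?_, ?_⟩
  · intro x hx
    exact (QuotientGroup.eq_one_iff x).mpr (hSM hx)
  · intro h
    apply hM.1
    rw [eq_top_iff]
    intro x _
    have := DFunLike.congr_fun h x
    exact (QuotientGroup.eq_one_iff x).mp this

/-- homomorphisms to `q`-groups are determined by their restriction along a homomorphism which is
onto modulo the `q`-Frattini subgroup -/
lemma hom_ext_of_frattini {q : ℕ} [Fact q.Prime] {B F : Type*} [Group B] [Group F] (α : F →* B)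
    (hα : ∀ (C : Type) [CommGroup C], IsPGroup q C → ∀ f : B →* C, f.comp α = 1 → f = 1)
    {T : Type} [Group T] [Finite T] (hT : IsPGroup q T) (f g : B →* T)
    (hfg : f.comp α = g.comp α) : f = g := by
  let P : Subgroup (T × T) := (f.prod g).range
  have hTT : IsPGroup q (T × T) := by
    rintro ⟨x, y⟩
    obtain ⟨a, ha⟩ := hT x
    obtain ⟨b, hb⟩ := hT y
    refine ⟨a + b, ?_⟩
    rw [Prod.pow_mk, pow_add, pow_mul, ha, one_pow, mul_comm, pow_mul, hb, one_pow]
    rfl
  have hP : IsPGroup q P := hTT.to_subgroup P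
  let φ : B →* P := (f.prod g).rangeRestrict
  have hφs : Function.Surjective φ := MonoidHom.rangeRestrict_surjective _
  let S : Subgroup P := (φ.comp α).range
  have hS : S = ⊤ := by
    by_contra hne
    obtain ⟨C, _, χ, hC, h1, h2⟩ := exists_hom_of_lt hP S hne
    apply h2
    have h3 := hα C hC (χ.comp φ) (by
      ext x
      exact h1 _ ⟨x, rfl⟩)
    ext x
    obtain ⟨b, rfl⟩ := hφs x
    exact DFunLike.congr_fun h3 b
  ext b
  have hb : φ b ∈ S := by rw [hS]; trivial
  obtain ⟨x, hx⟩ := hb
  have h1 : f b = f (α x) := (congrArg (fun p : P => p.1.1) hx).symm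
  have h2 : g b = g (α x) := (congrArg (fun p : P => p.1.2) hx).symm
  rw [h1, h2]
  exact DFunLike.congr_fun hfg x

/-- the restriction is bijective -/
lemma restrict_bijective {q : ℕ} [Fact q.Prime] {B : Type*} [Group B] {M : Type*} [Finite M]
    (e : B ≃* FreeGroup M) (α : FreeGroup M →* B)
    (hα : ∀ (C : Type) [CommGroup C], IsPGroup q C → ∀ f : B →* C, f.comp α = 1 → f = 1)
    {T : Type} [Group T] [Finite T] (hT : IsPGroup q T) :
    Finite (B →* T) ∧ Function.Bijective (fun f : B →* T => f.comp α) := by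
  have hfin : Finite (FreeGroup M →* T) := Finite.of_equiv _ (FreeGroup.lift (α := M) (β := T))
  let E : (B →* T) ≃ (FreeGroup M →* T) :=
    { toFun := fun f => f.comp e.symm.toMonoidHom
      invFun := fun f => f.comp e.toMonoidHom
      left_inv := fun f => by ext x; simp
      right_inv := fun f => by ext x; simp }
  have hinj : Function.Injective (fun f : B →* T => f.comp α) :=
    fun f g h => hom_ext_of_frattini α hα hT f g h
  refine ⟨Finite.of_equiv _ E.symm, hinj, ?_⟩
  have h1 : Function.Injective ((fun f : B →* T => f.comp α) ∘ E.symm) := hinj.comp E.symm.injective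
  have h2 := Finite.injective_iff_surjective.mp h1
  exact Function.Surjective.of_comp h2

/-- the finite quotients of an HNN extension of a free group -/
theorem exists_finite_rep {q : ℕ} [Fact q.Prime] {B : Type u} [Group B] {M : Type*} [Finite M]
    (e : B ≃* FreeGroup M) (α γ : FreeGroup M →* B)
    (hα : ∀ (C : Type) [CommGroup C], IsPGroup q C → ∀ f : B →* C, f.comp α = 1 → f = 1)
    (hγ : ∀ (C : Type) [CommGroup C], IsPGroup q C → ∀ f : B →* C, f.comp γ = 1 → f = 1)
    {T : Type} [Group T] [Finite T] (hT : IsPGroup q T) :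
    ∃ (Ω : Type u) (_ : Finite Ω) (E : B →* Equiv.Perm Ω) (P : Equiv.Perm Ω),
      (∀ x, P * E (α x) = E (γ x) * P) ∧ ∀ (f : B →* T) (b : B), f b ≠ 1 → E b ≠ 1 := by
  obtain ⟨hf1, ha⟩ := restrict_bijective e α hα hT
  obtain ⟨-, hc⟩ := restrict_bijective e γ hγ hT
  let a := Equiv.ofBijective _ ha
  let c := Equiv.ofBijective _ hc
  let τ : Equiv.Perm (B →* T) := a.trans c.symm
  have hτ : ∀ (f : B →* T) x, (τ f) (γ x) = f (α x) := by
    intro f x
    have h1 : (fun f : B →* T => f.comp γ) (τ f) = (fun f : B →* T => f.comp α) f := by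
      change c (c.symm (a f)) = a f
      exact c.apply_symm_apply _
    exact DFunLike.congr_fun h1 x
  let E : B →* Equiv.Perm ((B →* T) × T) :=
    { toFun := fun b => Equiv.prodShear (Equiv.refl _) (fun f => Equiv.mulLeft (f b))
      map_one' := by
        ext ⟨f, y⟩ <;> simp
      map_mul' := by
        intro b b'
        ext ⟨f, y⟩ <;> simp }
  have hE : ∀ b (f : B →* T) y, E b (f, y) = (f, f b * y) := fun b f y => rfl
  refine ⟨(B →* T) × T, inferInstance, E, Equiv.prodCongr τ (Equiv.refl T), ?_, ?_⟩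
  · intro x
    ext1 ⟨f, y⟩
    rw [Equiv.Perm.mul_apply, Equiv.Perm.mul_apply, hE]
    change (τ f, f (α x) * y) = E (γ x) (τ f, y)
    rw [hE, hτ]
  · intro f b hb h
    apply hb
    have h1 := congrArg (fun σ : Equiv.Perm ((B →* T) × T) => (σ (f, 1)).2) h
    simpa [hE] using h1

/-- free groups are residually `q`-groups for arbitrarily large `q` -/
theorem exists_large_prime {Y : Type*} (g : FreeGroup Y) (hg : g ≠ 1) (N : ℕ) :
    ∃ q : ℕ, q.Prime ∧ N < q ∧ ∃ (T : Type) (_ : Group T) (_ : Finite T) (f : FreeGroup Y →* T),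
      IsPGroup q T ∧ f g ≠ 1 := by
  obtain ⟨n3, f3, h3⟩ := exists_rep g hg
  obtain ⟨r3, c3, hx3, hp3⟩ := exists_entry (f3 g) h3
  obtain ⟨q, hq1, hq⟩ := Nat.exists_infinite_primes (n3 + 1 + N +
    ((((f3 g : U n3) : (MZ n3)ˣ) : MZ n3) r3 c3).natAbs)
  have : NeZero q := ⟨hq.ne_zero⟩
  refine ⟨q, hq, by omega, (red n3 q).range, inferInstance, inferInstance,
    (red n3 q).rangeRestrict.comp f3, ?_, ?_⟩
  · rintro ⟨x, y, rfl⟩
    refine ⟨1, ?_⟩
    apply Subtype.ext
    rw [pow_one]
    exact red_pow n3 q hq (by omega) y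
  · intro h
    exact red_ne_one n3 q _ r3 c3 hx3 hp3 (by omega) (congrArg Subtype.val h)

end Pool.Agent.N151.FR
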