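import Mathlib
import Pool.Agent.N151.FR.HnnGen
import Pool.Agent.N151.FR.QHom
import Pool.Agent.N151.FR.MainFree

set_option autoImplicit false

/-! HNN extensions of free groups whose associated subgroups are homologically injective. -/

namespace Pool.Agent.N151.FR

open Pool.Agent.N151.RFC

universe v w

/-- the intersection of the normal subgroups of finite index -/
def KI (I : Type*) [Group I] : Subgroup I := ⨅ N : FiniteIndexNormalSubgroup I, N.toSubgroup

instance (I : Type*) [Group I] : (KI I).Normal := by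
  apply Subgroup.normal_iInf_normal
  intro N
  exact N.isNormal'

lemma nextF_le_KI (I : Type*) [Group I] : nextF (⊤ : Subgroup I) ≤ KI I := by
  intro g hg
  rw [KI, Subgroup.mem_iInf]
  intro N
  rw [mem_nextF] at hg
  apply hg _ le_top
  have := N.isFiniteIndex'.index_ne_zero
  rw [← Subgroup.relIndex_top_right] at this
  exact this

theorem hnn_free {I B : Type v} [Group I] [Group B] {R : Type w} [Group R] {M : Type*} [Finite M]
    (e : B ≃* FreeGroup M) (ι : B →* I) (s : I) (j : R →* FreeGroup M) (α γ : FreeGroup M →* B)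
    (hgen : Subgroup.closure (Set.range ι ∪ {s}) = ⊤)
    (hrel : ∀ x : R, s * ι (α (j x)) = ι (γ (j x)) * s)
    (huniv : ∀ (G : Type v) [Group G] (E : B →* G) (P : G),
      (∀ x : R, P * E (α (j x)) = E (γ (j x)) * P) →
      ∃ Φ : I →* G, (∀ h, Φ (ι h) = E h) ∧ Φ s = P)
    (N : ℕ)
    (hα : ∀ q : ℕ, q.Prime → N < q → ∀ (C : Type) [CommGroup C], IsPGroup q C →
      ∀ f : B →* C, f.comp α = 1 → f = 1)
    (hγ : ∀ q : ℕ, q.Prime → N < q → ∀ (C : Type) [CommGroup C], IsPGroup q C →
      ∀ f : B →* C, f.comp γ = 1 → f = 1) :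
    IsFreeGroup (nextF (⊤ : Subgroup I)) ∧ nextF (nextF (⊤ : Subgroup I)) = ⊥ := by
  have hK : ∀ h, ι h ∈ KI I → h = 1 := by
    intro h hh
    by_contra hne
    have hne' : e h ≠ 1 := by
      intro h1
      apply hne
      apply e.injective
      rw [h1, map_one]
    obtain ⟨q, hq, hNq, T, _, _, f, hT, hf⟩ := exists_large_prime (e h) hne' N
    have : Fact q.Prime := ⟨hq⟩
    obtain ⟨Ω, _, E, P, hP, hE⟩ := exists_finite_rep e α γ (hα q hq hNq) (hγ q hq hNq) hT
    obtain ⟨Φ, hΦ, -⟩ := huniv (Equiv.Perm Ω) E P (fun x => hP (j x))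
    have hfin : Finite (I ⧸ Φ.ker) :=
      Finite.of_injective _ (QuotientGroup.kerLift_injective Φ)
    have hfi : Φ.ker.FiniteIndex := Subgroup.finiteIndex_of_finite_quotient
    let N' : FiniteIndexNormalSubgroup I :=
      { toSubgroup := Φ.ker, isNormal' := inferInstance, isFiniteIndex' := hfi }
    rw [KI, Subgroup.mem_iInf] at hh
    have h1 : ι h ∈ Φ.ker := hh N'
    rw [MonoidHom.mem_ker, hΦ] at h1
    exact hE (f.comp e.toMonoidHom) h hf h1
  obtain ⟨E, c, hc⟩ := exists_embed3 ι s (α.comp j) (γ.comp j) hgen hrel huniv (KI I) hK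
  have h1 : Function.Injective (c.comp (Subgroup.inclusion (nextF_le_KI I))) :=
    hc.comp (Subgroup.inclusion_injective _)
  exact ⟨isFree_of_embed _ h1, nextF_of_embed _ _ h1⟩

section

variable {Y : Type} (k : Y → ℕ)

/-- the letters `y_0, ..., y_{k y}` for `y ∈ Y` -/
abbrev JJ : Type := Σ y : Y, Fin (k y + 1)

/-- the letters without the last ones -/
abbrev JJ' : Type := Σ y : Y, Fin (k y)

/-- `y_i ↦ t^i y t^{-i}` -/
def sub {G : Type*} [Group G] (t : G) (b : Y → G) : FreeGroup (JJ k) →* G :=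
  FreeGroup.lift (fun x => t ^ (x.2 : ℕ) * b x.1 * (t ^ (x.2 : ℕ))⁻¹)

lemma sub_of {G : Type*} [Group G] (t : G) (b : Y → G) (x : JJ k) :
    sub k t b (FreeGroup.of x) = t ^ (x.2 : ℕ) * b x.1 * (t ^ (x.2 : ℕ))⁻¹ := by
  simp [sub]

lemma map_sub' {G K : Type*} [Group G] [Group K] (φ : G →* K) (t : G) (b : Y → G)
    (x : FreeGroup (JJ k)) : φ (sub k t b x) = sub k (φ t) (fun y => φ (b y)) x := by
  have : φ.comp (sub k t b) = sub k (φ t) (fun y => φ (b y)) := by
    ext y
    simp [sub_of]
  exact DFunLike.congr_fun this x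

/-- the one-relator group -/
abbrev GW (w : FreeGroup (JJ k)) : Type :=
  PresentedGroup {sub k (FreeGroup.of (none : Option Y)) (fun y => FreeGroup.of (some y)) w}

/-- the base -/
abbrev BW (w : FreeGroup (JJ k)) : Type := PresentedGroup ({w} : Set (FreeGroup (JJ k)))

variable (w : FreeGroup (JJ k))

lemma exists_iotaW : ∃ ι : BW k w →* GW k w, ∀ x : JJ k, ι (PresentedGroup.of x) =
    (PresentedGroup.of none) ^ (x.2 : ℕ) * PresentedGroup.of (some x.1) *
      ((PresentedGroup.of none) ^ (x.2 : ℕ))⁻¹ := by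
  have h : ∀ r ∈ ({w} : Set (FreeGroup (JJ k))), FreeGroup.lift (fun x : JJ k =>
      ((PresentedGroup.of none : GW k w) ^ (x.2 : ℕ) * PresentedGroup.of (some x.1) *
      ((PresentedGroup.of none) ^ (x.2 : ℕ))⁻¹)) r = 1 := by
    intro r hr
    rw [Set.mem_singleton_iff] at hr
    subst hr
    have h1 : PresentedGroup.mk {sub k (FreeGroup.of (none : Option Y))
        (fun y => FreeGroup.of (some y)) r} (sub k (FreeGroup.of (none : Option Y))
        (fun y => FreeGroup.of (some y)) r) = 1 :=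
      PresentedGroup.one_of_mem (Set.mem_singleton _)
    rw [map_sub'] at h1
    exact h1
  refine ⟨PresentedGroup.toGroup h, ?_⟩
  intro x
  rw [PresentedGroup.toGroup.of]

lemma univW (ι : BW k w →* GW k w) (hι : ∀ x : JJ k, ι (PresentedGroup.of x) =
    (PresentedGroup.of none) ^ (x.2 : ℕ) * PresentedGroup.of (some x.1) *
      ((PresentedGroup.of none) ^ (x.2 : ℕ))⁻¹)
    {G : Type*} [Group G] (E : BW k w →* G) (P : G)
    (hP : ∀ x : JJ' k, P * E (PresentedGroup.of ⟨x.1, x.2.castSucc⟩)
      = E (PresentedGroup.of ⟨x.1, x.2.succ⟩) * P) :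
    ∃ Φ : GW k w →* G, (∀ h, Φ (ι h) = E h) ∧ Φ (PresentedGroup.of none) = P := by
  have key : ∀ x : JJ k, P ^ (x.2 : ℕ) * E (PresentedGroup.of ⟨x.1, 0⟩) * (P ^ (x.2 : ℕ))⁻¹
      = E (PresentedGroup.of x) := by
    rintro ⟨y, i, hi⟩
    induction i with
    | zero => simp
    | succ i ih =>
      have h1 := ih (by omega)
      have h2 := hP ⟨y, ⟨i, by omega⟩⟩
      simp only at h1 h2 ⊢
      have h3 : E (PresentedGroup.of ⟨y, (⟨i, by omega⟩ : Fin (k y)).castSucc⟩)
          = P ^ i * E (PresentedGroup.of ⟨y, 0⟩) * (P ^ i)⁻¹ := h1.symm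
      have h4 : E (PresentedGroup.of ⟨y, ⟨i + 1, hi⟩⟩)
          = P * E (PresentedGroup.of ⟨y, (⟨i, by omega⟩ : Fin (k y)).castSucc⟩) * P⁻¹ := by
        rw [h2, mul_inv_cancel_right]
        rfl
      rw [h4, h3, pow_succ']
      group
  have h : ∀ r ∈ ({sub k (FreeGroup.of (none : Option Y)) (fun y => FreeGroup.of (some y)) w} :
      Set (FreeGroup (Option Y))),
      ev P (fun y => E (PresentedGroup.of ⟨y, 0⟩)) r = 1 := by
    intro r hr
    rw [Set.mem_singleton_iff] at hr
    subst hr
    rw [map_sub', ev_none]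
    have h1 : sub k P (fun y => ev P (fun y => E (PresentedGroup.of ⟨y, 0⟩))
        (FreeGroup.of (some y))) = E.comp (PresentedGroup.mk _) := by
      ext x
      rw [sub_of, ev_some, key]
      rfl
    rw [h1, MonoidHom.comp_apply]
    have h2 : PresentedGroup.mk {w} w = 1 := PresentedGroup.one_of_mem (Set.mem_singleton _)
    rw [h2, map_one]
  let Φ : GW k w →* G := PresentedGroup.toGroup h
  have hΦ1 : Φ (PresentedGroup.of none) = P := ev_none P _
  have hΦ2 : ∀ y, Φ (PresentedGroup.of (some y)) = E (PresentedGroup.of ⟨y, 0⟩) :=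
    fun y => ev_some P _ y
  refine ⟨Φ, ?_, hΦ1⟩
  have h1 : Φ.comp ι = E := by
    apply PresentedGroup.ext
    intro x
    rw [MonoidHom.comp_apply, hι, map_mul, map_mul, map_inv, map_pow, hΦ1, hΦ2, key]
  intro g
  exact DFunLike.congr_fun h1 g

lemma genW (ι : BW k w →* GW k w) (hι : ∀ x : JJ k, ι (PresentedGroup.of x) =
    (PresentedGroup.of none) ^ (x.2 : ℕ) * PresentedGroup.of (some x.1) *
      ((PresentedGroup.of none) ^ (x.2 : ℕ))⁻¹) :
    Subgroup.closure (Set.range ι ∪ {(PresentedGroup.of none : GW k w)}) = ⊤ := by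
  rw [eq_top_iff, ← PresentedGroup.closure_range_of, Subgroup.closure_le]
  rintro x ⟨o, rfl⟩
  cases o with
  | none => exact Subgroup.subset_closure (Or.inr rfl)
  | some y =>
    refine Subgroup.subset_closure (Or.inl ⟨PresentedGroup.of ⟨y, 0⟩, ?_⟩)
    rw [hι]
    simp

/-- exponent sum of the letter `x` -/
def expo {J : Type*} [DecidableEq J] (x : J) : FreeGroup J →* Multiplicative ℤ :=
  FreeGroup.lift (fun z => if z = x then Multiplicative.ofAdd 1 else 1)

/-- homomorphisms to abelian `q`-groups killing all letters but one -/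
lemma kill {J : Type*} [DecidableEq J] (w : FreeGroup J) (x : J) (q : ℕ) (hq : q.Prime)
    (hlt : (Multiplicative.toAdd (expo x w)).natAbs < q) (hne : expo x w ≠ 1)
    {C : Type} [CommGroup C] (hC : IsPGroup q C) (f : PresentedGroup ({w} : Set (FreeGroup J)) →* C)
    (hf : ∀ z, z ≠ x → f (PresentedGroup.of z) = 1) : f = 1 := by
  have h1 : (f.comp (PresentedGroup.mk {w})) =
      (zpowersHom C (f (PresentedGroup.of x))).comp (expo x) := by
    ext z
    by_cases hz : z = x
    · subst hz
      simp [expo]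
      rfl
    · have h2 := hf z hz
      rw [MonoidHom.comp_apply, MonoidHom.comp_apply]
      have h3 : expo x (FreeGroup.of z) = 1 := by simp [expo, hz]
      rw [h3, map_one]
      exact h2
  have h2 : f (PresentedGroup.of x) ^ (Multiplicative.toAdd (expo x w)) = 1 := by
    have h3 := DFunLike.congr_fun h1 w
    rw [MonoidHom.comp_apply, MonoidHom.comp_apply] at h3
    have h4 : PresentedGroup.mk {w} w = 1 := PresentedGroup.one_of_mem (Set.mem_singleton _)
    rw [h4, map_one] at h3
    exact h3.symm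
  have hx : f (PresentedGroup.of x) = 1 := by
    obtain ⟨a, ha⟩ := hC (f (PresentedGroup.of x))
    have d1 : orderOf (f (PresentedGroup.of x)) ∣ q ^ a := orderOf_dvd_of_pow_eq_one ha
    have d2 : orderOf (f (PresentedGroup.of x)) ∣ (Multiplicative.toAdd (expo x w)).natAbs := by
      have := orderOf_dvd_iff_zpow_eq_one.mpr h2
      exact Int.natCast_dvd.mp this
    have hpos : 0 < (Multiplicative.toAdd (expo x w)).natAbs := by
      rw [Int.natAbs_pos]
      intro h
      apply hne
      exact h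
    have hcop : Nat.Coprime (q ^ a) (Multiplicative.toAdd (expo x w)).natAbs := by
      apply Nat.Coprime.pow_left
      rw [Nat.Prime.coprime_iff_not_dvd hq]
      intro hd
      exact absurd (Nat.le_of_dvd hpos hd) (by omega)
    have := Nat.eq_one_of_dvd_coprimes hcop d1 d2
    exact orderOf_eq_one_iff.mp this
  apply PresentedGroup.ext
  intro z
  by_cases hz : z = x
  · subst hz
    rw [hx]
    rfl
  · rw [hf z hz]
    rfl

end

end Pool.Agent.N151.FR
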