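import Mathlib
import Pool.Agent.N151.FR.FreeBase

set_option autoImplicit false

/-! One-relator groups whose Magnus base is free, with nonzero extreme exponent sums. -/

namespace Pool.Agent.N151.FR

open Pool.Agent.N151.RFC

/-- killing a basis element leaves a free group -/
noncomputable def killNone (M : Type*) :
    PresentedGroup ({FreeGroup.of none} : Set (FreeGroup (Option M))) ≃* FreeGroup M := by
  refine MonoidHom.toMulEquiv
    (PresentedGroup.toGroup (f := fun o : Option M => o.elim 1 FreeGroup.of) ?_)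
    (FreeGroup.lift fun m => PresentedGroup.of (some m)) ?_ ?_
  · intro r hr
    rw [Set.mem_singleton_iff] at hr
    subst hr
    simp
  · apply PresentedGroup.ext
    intro o
    cases o with
    | none =>
      rw [MonoidHom.comp_apply, PresentedGroup.toGroup.of]
      simp only [Option.elim_none, map_one]
      symm
      exact PresentedGroup.one_of_mem (Set.mem_singleton _)
    | some m =>
      rw [MonoidHom.comp_apply, PresentedGroup.toGroup.of]
      simp
  · ext m
    have h1 : (FreeGroup.lift fun m => (PresentedGroup.of (some m) :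
        PresentedGroup ({FreeGroup.of none} : Set (FreeGroup (Option M))))) (FreeGroup.of m)
        = PresentedGroup.of (some m) := FreeGroup.lift_apply_of
    rw [MonoidHom.comp_apply]
    refine (congrArg _ h1).trans ?_
    rw [PresentedGroup.toGroup.of]
    rfl

section

variable {Y : Type} (k : Y → ℕ)

theorem mainW [Finite Y] (w : FreeGroup (JJ k)) {M0 : Type*}
    (b : FreeGroupBasis (Option M0) (FreeGroup (JJ k))) (hb : b none = w) (y0 y1 : Y)
    [DecidableEq (JJ k)]
    (h0 : expo (⟨y0, Fin.last (k y0)⟩ : JJ k) w ≠ 1) (h1 : expo (⟨y1, 0⟩ : JJ k) w ≠ 1) :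
    IsFreeGroup (nextF (⊤ : Subgroup (GW k w))) ∧
      nextF (nextF (⊤ : Subgroup (GW k w))) = ⊥ := by
  classical
  -- the base is free of the right rank
  let M : Type := JJ' k ⊕ {y : Y // y ≠ y0}
  have hMM : Nonempty (M0 ≃ M) := by
    have e1 : JJ k ≃ Option M0 := Equiv.ofFreeGroupEquiv b.repr
    have : Fintype Y := Fintype.ofFinite Y
    have hc : Fintype.card (JJ k) = Fintype.card (Option M) := by
      rw [Fintype.card_option, Fintype.card_sum, Fintype.card_sigma, Fintype.card_sigma]
      simp only [Fintype.card_fin]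
      rw [Finset.sum_add_distrib, Finset.sum_const, Finset.card_univ, smul_eq_mul, mul_one,
        Fintype.card_subtype_compl, Fintype.card_subtype_eq]
      have : 0 < Fintype.card Y := Fintype.card_pos_iff.mpr ⟨y0⟩
      omega
    have e2 : JJ k ≃ Option M := Fintype.equivOfCardEq hc
    exact ⟨Equiv.removeNone (e1.symm.trans e2)⟩
  obtain ⟨eM⟩ := hMM
  let e : BW k w ≃* FreeGroup M :=
    (oneRelCongr b.repr w (FreeGroup.of none) (by
      rw [← hb]
      exact b.repr_apply_coe none)).trans ((killNone M0).trans (FreeGroup.freeGroupCongr eM))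
  obtain ⟨ι, hι⟩ := exists_iotaW k w
  let α : FreeGroup M →* BW k w := FreeGroup.lift (Sum.elim
    (fun x : JJ' k => PresentedGroup.of ⟨x.1, x.2.castSucc⟩)
    (fun y : {y : Y // y ≠ y0} => PresentedGroup.of ⟨y, Fin.last _⟩))
  let σ : {y : Y // y ≠ y0} ≃ {y : Y // y ≠ y1} := (Equiv.swap y0 y1).subtypeEquiv (by
    intro y
    rw [not_iff_not]
    constructor
    · rintro rfl
      exact Equiv.swap_apply_left _ _
    · intro h
      have := congrArg (Equiv.swap y0 y1) h
      simpa using this)
  let γ : FreeGroup M →* BW k w := FreeGroup.lift (Sum.elim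
    (fun x : JJ' k => PresentedGroup.of ⟨x.1, x.2.succ⟩)
    (fun y : {y : Y // y ≠ y0} => PresentedGroup.of ⟨σ y, 0⟩))
  let j : FreeGroup (JJ' k) →* FreeGroup M := FreeGroup.map Sum.inl
  have hαj : ∀ x : JJ' k, α (j (FreeGroup.of x)) = PresentedGroup.of ⟨x.1, x.2.castSucc⟩ := by
    intro x; simp [α, j]
  have hγj : ∀ x : JJ' k, γ (j (FreeGroup.of x)) = PresentedGroup.of ⟨x.1, x.2.succ⟩ := by
    intro x; simp [γ, j]
  have hαr : ∀ y : {y : Y // y ≠ y0}, α (FreeGroup.of (Sum.inr y))
      = PresentedGroup.of ⟨y, Fin.last _⟩ := by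
    intro x; simp [α]
  have hγr : ∀ y : {y : Y // y ≠ y0}, γ (FreeGroup.of (Sum.inr y))
      = PresentedGroup.of ⟨σ y, 0⟩ := by
    intro x; simp [γ]
  refine hnn_free e ι (PresentedGroup.of none) j α γ (genW k w ι hι) ?_ ?_
    ((Multiplicative.toAdd (expo (⟨y0, Fin.last (k y0)⟩ : JJ k) w)).natAbs +
      (Multiplicative.toAdd (expo (⟨y1, 0⟩ : JJ k) w)).natAbs) ?_ ?_
  · -- the relation
    have h2 : (MulAut.conj (PresentedGroup.of none : GW k w)).toMonoidHom.comp
        (ι.comp (α.comp j)) = ι.comp (γ.comp j) := by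
      ext x
      simp only [MonoidHom.comp_apply]
      rw [hαj, hγj, hι, hι]
      change (PresentedGroup.of none : GW k w) * _ * (PresentedGroup.of none)⁻¹ = _
      simp only [Fin.val_castSucc, Fin.val_succ]
      rw [pow_succ']
      group
    intro x
    have h3 := DFunLike.congr_fun h2 x
    simp only [MonoidHom.comp_apply] at h3
    rw [← h3]
    change _ = (PresentedGroup.of none : GW k w) * _ * (PresentedGroup.of none)⁻¹ * _
    rw [inv_mul_cancel_right]
  · intro G _ E P hP
    apply univW k w ι hι E P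
    intro x
    have := hP (FreeGroup.of x)
    rw [hαj, hγj] at this
    exact this
  · intro q hq hN C _ hC f hf
    apply kill w (⟨y0, Fin.last (k y0)⟩ : JJ k) q hq (by omega) h0 hC f
    rintro ⟨y, i⟩ hz
    by_cases hi : i = Fin.last (k y)
    · subst hi
      have hy : y ≠ y0 := by
        rintro rfl
        exact hz rfl
      have h2 := DFunLike.congr_fun hf (FreeGroup.of (Sum.inr ⟨y, hy⟩))
      rw [MonoidHom.comp_apply, hαr] at h2
      exact h2
    · obtain ⟨i', rfl⟩ := Fin.exists_castSucc_eq.mpr hi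
      have h2 := DFunLike.congr_fun hf (j (FreeGroup.of ⟨y, i'⟩))
      rw [MonoidHom.comp_apply, hαj] at h2
      exact h2
  · intro q hq hN C _ hC f hf
    apply kill w (⟨y1, 0⟩ : JJ k) q hq (by omega) h1 hC f
    rintro ⟨y, i⟩ hz
    by_cases hi : i = 0
    · subst hi
      have hy : y ≠ y1 := by
        rintro rfl
        exact hz rfl
      have h2 := DFunLike.congr_fun hf (FreeGroup.of (Sum.inr (σ.symm ⟨y, hy⟩)))
      rw [MonoidHom.comp_apply, hγr, Equiv.apply_symm_apply] at h2
      exact h2
    · obtain ⟨i', rfl⟩ := Fin.exists_succ_eq.mpr hi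
      have h2 := DFunLike.congr_fun hf (j (FreeGroup.of ⟨y, i'⟩))
      rw [MonoidHom.comp_apply, hγj] at h2
      exact h2

end

end Pool.Agent.N151.FR
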