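import Mathlib
import Pool.Agent.N151.FR.FreeBase2

set_option autoImplicit false

/-! Basis form of the theorem on free Magnus bases. -/

namespace Pool.Agent.N151.FR

open Pool.Agent.N151.RFC

/-- transport of the conclusion along an isomorphism -/
theorem transport_concl {G Q : Type*} [Group G] [Group Q] (E : G ≃* Q)
    (h : IsFreeGroup (nextF (⊤ : Subgroup G)) ∧ nextF (nextF (⊤ : Subgroup G)) = ⊥) :
    IsFreeGroup (nextF (⊤ : Subgroup Q)) ∧ nextF (nextF (⊤ : Subgroup Q)) = ⊥ := by
  obtain ⟨h1, h1'⟩ := h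
  have h2 : nextF (⊤ : Subgroup Q) = (nextF (⊤ : Subgroup G)).comap E.symm.toMonoidHom := by
    rw [← nextF_comap_equiv E.symm, Subgroup.comap_top]
  have h4 : nextF (nextF (⊤ : Subgroup Q))
      = (nextF (nextF (⊤ : Subgroup G))).comap E.symm.toMonoidHom := by
    rw [h2]
    exact nextF_comap_equiv E.symm _
  constructor
  · rw [h2]
    have h3 : (nextF (⊤ : Subgroup G)) ≃*
        ((nextF (⊤ : Subgroup G)).comap E.symm.toMonoidHom) :=
      { toFun := fun x => ⟨E x, by
          rw [Subgroup.mem_comap]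
          change E.symm (E x) ∈ _
          rw [E.symm_apply_apply]
          exact x.2⟩
        invFun := fun x => ⟨E.symm x, x.2⟩
        left_inv := fun x => Subtype.ext (E.symm_apply_apply _)
        right_inv := fun x => Subtype.ext (E.apply_symm_apply _)
        map_mul' := fun x y => Subtype.ext (_root_.map_mul E _ _) }
    exact IsFreeGroup.ofMulEquiv h3
  · rw [h4, h1', eq_bot_iff]
    intro x hx
    rw [Subgroup.mem_bot]
    apply E.symm.injective
    rw [_root_.map_one]
    exact hx

theorem mainW_basis {X : Type*} {Y : Type} [Finite Y] (b : FreeGroupBasis (Option Y) (FreeGroup X))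
    (k : Y → ℕ) (w : FreeGroup (JJ k)) {M0 : Type*}
    (c : FreeGroupBasis (Option M0) (FreeGroup (JJ k))) (hc : c none = w) (y0 y1 : Y)
    [DecidableEq (JJ k)]
    (h0 : expo (⟨y0, Fin.last (k y0)⟩ : JJ k) w ≠ 1) (h1 : expo (⟨y1, 0⟩ : JJ k) w ≠ 1) :
    IsFreeGroup (nextF (⊤ : Subgroup
      (PresentedGroup {sub k (b none) (fun y => b (some y)) w}))) ∧
    nextF (nextF (⊤ : Subgroup
      (PresentedGroup {sub k (b none) (fun y => b (some y)) w}))) = ⊥ := by
  have h2 := mainW k w c hc y0 y1 h0 h1
  let e : FreeGroup (Option Y) ≃* FreeGroup X := b.repr.symm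
  have he : ∀ o, e (FreeGroup.of o) = b o := fun o => rfl
  have e3 : e (sub k (FreeGroup.of (none : Option Y)) (fun y => FreeGroup.of (some y)) w)
      = sub k (b none) (fun y => b (some y)) w := by
    change e.toMonoidHom _ = _
    rw [map_sub']
    rfl
  exact transport_concl (oneRelCongr e _ _ e3) h2

end Pool.Agent.N151.FR
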