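import Mathlib
import Pool.Agent.N151.FR.FreeBase3

set_option autoImplicit false

/-! HNN extensions of residually finite groups: subgroups meeting the associated subgroups
trivially are residually finite. -/

namespace Pool.Agent.N151.FR

open Pool.Agent.N151.RFC

universe v w

/-- finitely many nontrivial elements of a residually finite group can be avoided -/
lemma avoid_list {B : Type v} [Group B] (hB : Group.ResiduallyFinite B) (L : List B) :
    ∃ V : Subgroup B, V.Normal ∧ V.FiniteIndex ∧ ∀ b ∈ L, b ≠ 1 → b ∉ V := by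
  induction L with
  | nil => exact ⟨⊤, inferInstance, inferInstance, by simp⟩
  | cons b L ih =>
    obtain ⟨V, hn, hf, hV⟩ := ih
    by_cases hb : b = 1
    · refine ⟨V, hn, hf, ?_⟩
      intro c hc hc1
      rcases List.mem_cons.mp hc with rfl | hc
      · exact absurd hb hc1
      · exact hV c hc hc1
    · obtain ⟨N0, hN0⟩ := Group.exists_finiteIndexNormalSubgroup_notMem _ hb
      have hn' : N0.toSubgroup.Normal := N0.isNormal'
      have hf' : N0.toSubgroup.FiniteIndex := N0.isFiniteIndex'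
      refine ⟨V ⊓ N0.toSubgroup, inferInstance, inferInstance, ?_⟩
      intro c hc hc1 hmem
      rcases List.mem_cons.mp hc with rfl | hc
      · exact hN0 hmem.2
      · exact hV c hc hc1 hmem.1

lemma pinv {Z : Type*} (σ : Equiv.Perm Z) (z : Z) : σ⁻¹ (σ z) = z := σ.symm_apply_apply z

lemma papi {Z : Type*} (σ : Equiv.Perm Z) (z : Z) : σ (σ⁻¹ z) = z := σ.apply_symm_apply z

section

variable {Z : Type v} {H : Type v} [Group H] {R : Type w} [Group R] (α γ : R →* H)
  (A : H →* Equiv.Perm Z) (θ : Equiv.Perm Z)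

/-- orbits of the first associated subgroup -/
def orbS : Setoid Z where
  r z z' := ∃ x : R, A (α x) z = z'
  iseqv := by
    refine ⟨fun z => ⟨1, by simp⟩, ?_, ?_⟩
    · rintro z z' ⟨x, rfl⟩
      exact ⟨x⁻¹, by rw [map_inv, map_inv, pinv]⟩
    · rintro z z' z'' ⟨x, rfl⟩ ⟨y, rfl⟩
      exact ⟨y * x, by rw [map_mul, map_mul, Equiv.Perm.mul_apply]⟩

/-- the class of `z` -/
def clZ (z : Z) : Quotient (orbS α A) := Quotient.mk _ z

lemma clZ_eq (z z' : Z) : clZ α A z = clZ α A z' ↔ ∃ x : R, A (α x) z = z' := by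
  rw [clZ, clZ, Quotient.eq]
  exact Iff.rfl

variable (z0 : Z)

/-- the endpoint -/
def posZ : List (Bool × H) → Z
  | [] => z0
  | p :: L => (cond p.1 θ θ⁻¹) (A p.2 (posZ L))

/-- the word read along the path -/
def WdZ : List (Bool × H) → List (Quotient (orbS α A) × Bool)
  | [] => []
  | p :: L => (clZ α A (cond p.1 (A p.2 (posZ A θ z0 L)) (θ⁻¹ (A p.2 (posZ A θ z0 L)))), p.1) ::
      WdZ L

lemma WdZ_reduced (hT : ∀ x, θ * A (α x) = A (γ x) * θ) :
    ∀ L : List (Bool × H), Red3 α γ L →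
      (∀ p ∈ L, ∀ (x : R) (z : Z), A (((cond p.1 α γ) x)⁻¹ * p.2) z = z →
        ((cond p.1 α γ) x)⁻¹ * p.2 = 1) →
      FreeGroup.IsReduced (WdZ α A θ z0 L) := by
  intro L
  induction L with
  | nil => intro _ _; exact List.isChain_nil
  | cons p L ih =>
    intro hL hfree
    cases L with
    | nil => exact List.isChain_singleton _
    | cons p1 L =>
      have h1 := List.isChain_cons_cons.mp hL
      have h2 := ih h1.2 (fun p hp => hfree p (List.mem_cons_of_mem _ hp))
      refine List.isChain_cons_cons.mpr ⟨?_, h2⟩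
      intro hc
      have hfp := hfree p List.mem_cons_self
      rcases p with ⟨b, f⟩
      rcases p1 with ⟨b1, f1⟩
      simp only at hc hfp ⊢
      by_contra hne
      apply hne
      apply h1.1
      set z := A f1 (posZ A θ z0 L) with hz
      have hpos : posZ A θ z0 ((b1, f1) :: L) = (cond b1 θ θ⁻¹) z := rfl
      rw [hpos] at hc
      cases b <;> cases b1
      · exact absurd rfl hne
      · -- `t⁻¹ f t`
        simp only [cond_false, cond_true] at hc hfp ⊢
        obtain ⟨x, hx⟩ := (clZ_eq α A _ _).mp hc.symm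
        have h3 : A f (θ z) = A (γ x) (θ z) := by
          have h4 : θ (A (α x) z) = A (γ x) (θ z) := by
            have := congrArg (fun σ : Equiv.Perm Z => σ z) (hT x)
            simpa [Equiv.Perm.mul_apply] using this
          rw [← h4, hx, papi]
        have h5 := hfp x (θ z) (by
          rw [map_mul, Equiv.Perm.mul_apply, h3, map_inv, pinv])
        exact ⟨x, (inv_mul_eq_one.mp h5)⟩
      · -- `t f t⁻¹`
        simp only [cond_false, cond_true] at hc hfp ⊢
        obtain ⟨x, hx⟩ := (clZ_eq α A _ _).mp hc.symm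
        have h5 := hfp x (θ⁻¹ z) (by
          rw [map_mul, Equiv.Perm.mul_apply, ← hx, map_inv, pinv])
        exact ⟨x, (inv_mul_eq_one.mp h5)⟩
      · exact absurd rfl hne

end

/-- **Subgroups meeting the associated subgroups trivially are residually finite.** -/
theorem nextF_eq_bot_rf {I H : Type v} [Group I] [Group H] {R : Type w} [Group R]
    (ι : H →* I) (s : I) (α γ : R →* H)
    (hgen : Subgroup.closure (Set.range ι ∪ {s}) = ⊤)
    (hrel : ∀ x, s * ι (α x) = ι (γ x) * s)
    (huniv : ∀ (G : Type v) [Group G] (E : H →* G) (P : G),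
      (∀ x, P * E (α x) = E (γ x) * P) →
      ∃ Φ : I →* G, (∀ h, Φ (ι h) = E h) ∧ Φ s = P)
    (hH : Group.ResiduallyFinite H)
    (K : Subgroup I) [K.Normal] (hKα : ∀ x, ι (α x) ∈ K → x = 1) (hKγ : ∀ x, ι (γ x) ∈ K → x = 1)
    (S : Subgroup I) (hS : S ≤ K) : nextF S = ⊥ := by
  classical
  rw [eq_bot_iff]
  intro g hg
  rw [Subgroup.mem_bot]
  by_contra hne
  obtain ⟨h0, L, hL, hgL⟩ := exists_red3 ι s α γ hgen hrel g
  let π : I →* I ⧸ K := QuotientGroup.mk' K
  let ψ : H →* I ⧸ K := π.comp ι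
  have hψker : ∀ h, ψ h = 1 ↔ ι h ∈ K := fun h => QuotientGroup.eq_one_iff (ι h)
  have hψα : ∀ x y, ψ (α x) = ψ (α y) → x = y := by
    intro x y hxy
    have h1 : ψ (α (x * y⁻¹)) = 1 := by rw [map_mul, map_mul, hxy, map_inv, map_inv, mul_inv_cancel]
    have h2 := hKα _ ((hψker _).mp h1)
    exact mul_inv_eq_one.mp h2
  -- the avoided elements
  let nn : Bool × H → H := fun p =>
    if h : ∃ x : R, ι (((cond p.1 α γ) x)⁻¹ * p.2) ∈ K then ((cond p.1 α γ) h.choose)⁻¹ * p.2 else 1
  obtain ⟨V, hVn, hVf, hV⟩ := avoid_list hH (h0 :: L.map nn)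
  have hVL : ∀ p ∈ L, ∀ x : R, ι (((cond p.1 α γ) x)⁻¹ * p.2) ∈ K →
      ((cond p.1 α γ) x)⁻¹ * p.2 ∈ V → ((cond p.1 α γ) x)⁻¹ * p.2 = 1 := by
    intro p hp x hx hxV
    have hex : ∃ x : R, ι (((cond p.1 α γ) x)⁻¹ * p.2) ∈ K := ⟨x, hx⟩
    have h1 : nn p = ((cond p.1 α γ) hex.choose)⁻¹ * p.2 := dif_pos hex
    have h2 : hex.choose = x := by
      have h3 := hex.choose_spec
      have h4 : ι ((cond p.1 α γ) ((hex.choose)⁻¹ * x)) ∈ K := by
        have h5 := K.mul_mem h3 (K.inv_mem hx)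
        have h6 : ι ((cond p.1 α γ) ((hex.choose)⁻¹ * x)) =
            ι (((cond p.1 α γ) hex.choose)⁻¹ * p.2) * (ι (((cond p.1 α γ) x)⁻¹ * p.2))⁻¹ := by
          rw [map_mul (cond p.1 α γ), map_inv (cond p.1 α γ)]
          simp only [map_mul ι, map_inv ι, mul_inv_rev, inv_inv]
          group
        rw [h6]
        exact h5
      have h6 : (hex.choose)⁻¹ * x = 1 := by
        rcases p with ⟨b, f⟩
        cases b
        · exact hKγ _ h4
        · exact hKα _ h4
      exact inv_mul_eq_one.mp h6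
    rw [h2] at h1
    by_contra hne1
    apply hV (nn p) (List.mem_cons_of_mem _ (List.mem_map_of_mem hp))
    · rw [h1]; exact hne1
    · rw [h1]; exact hxV
  have hfinP : Finite (H ⧸ V) := Subgroup.finite_quotient_of_finiteIndex
  let pr' : H →* H ⧸ V := QuotientGroup.mk' V
  let T : I ⧸ K := π s
  have hT : ∀ x, T * ψ (α x) = ψ (γ x) * T := by
    intro x
    change π s * π (ι (α x)) = π (ι (γ x)) * π s
    rw [← map_mul, ← map_mul, hrel]
  -- the twisting function
  let D : Subgroup (I ⧸ K) := (ψ.comp α).range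
  have hrep : ∀ q : I ⧸ K, ∃ x : R, ψ (α x) * (Quotient.out (clD D q)) = q := by
    intro q
    have h1 : clD D (Quotient.out (clD D q)) = clD D q := Quotient.out_eq _
    rw [clD_eq] at h1
    obtain ⟨x, hx⟩ := h1
    refine ⟨x, ?_⟩
    change (ψ.comp α) x * _ = q
    rw [hx, inv_mul_cancel_right]
  choose xr hxr using hrep
  have hxr_mul : ∀ x q, xr (ψ (α x) * q) = x * xr q := by
    intro x q
    apply hψα
    have h1 := hxr (ψ (α x) * q)
    rw [clD_mul D (show ψ (α x) ∈ D from ⟨x, rfl⟩)] at h1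
    have h2 := hxr q
    rw [map_mul, map_mul]
    apply mul_right_cancel (b := Quotient.out (clD D q))
    rw [h1, mul_assoc, h2]
  let lam : I ⧸ K → H ⧸ V := fun q => pr' (γ (xr q)) * (pr' (α (xr q)))⁻¹
  have hlam : ∀ x q, lam (ψ (α x) * q) = pr' (γ x) * lam q * (pr' (α x))⁻¹ := by
    intro x q
    simp only [lam]
    rw [hxr_mul, map_mul, map_mul, map_mul, map_mul, mul_inv_rev]
    simp only [mul_assoc]
  -- the space
  let Z : Type v := (I ⧸ K) × (H ⧸ V)
  let A : H →* Equiv.Perm Z :=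
    { toFun := fun h => Equiv.prodCongr (Equiv.mulLeft (ψ h)) (Equiv.mulLeft (pr' h))
      map_one' := by ext ⟨a, b⟩ <;> simp
      map_mul' := by
        intro h h'
        ext ⟨a, b⟩ <;> simp [mul_assoc] }
  have hA : ∀ h (a : I ⧸ K) (b : H ⧸ V), A h (a, b) = (ψ h * a, pr' h * b) := fun _ _ _ => rfl
  let θ : Equiv.Perm Z :=
    { toFun := fun z => (T * z.1, lam z.1 * z.2)
      invFun := fun z => (T⁻¹ * z.1, (lam (T⁻¹ * z.1))⁻¹ * z.2)
      left_inv := by rintro ⟨a, b⟩; simp
      right_inv := by rintro ⟨a, b⟩; simp }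
  have hθ : ∀ (a : I ⧸ K) (b : H ⧸ V), θ (a, b) = (T * a, lam a * b) := fun _ _ => rfl
  have hTθ : ∀ x, θ * A (α x) = A (γ x) * θ := by
    intro x
    ext1 ⟨a, b⟩
    rw [Equiv.Perm.mul_apply, Equiv.Perm.mul_apply, hA, hθ, hθ, hA, hlam, ← mul_assoc, hT,
      mul_assoc, mul_assoc, inv_mul_cancel_left, mul_assoc]
  let z0 : Z := (1, 1)
  have hfix : ∀ p ∈ L, ∀ (x : R) (z : Z), A (((cond p.1 α γ) x)⁻¹ * p.2) z = z →
      ((cond p.1 α γ) x)⁻¹ * p.2 = 1 := by
    rintro p hp x ⟨a, b⟩ hz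
    rw [hA] at hz
    have h1 := congrArg Prod.fst hz
    have h2 := congrArg Prod.snd hz
    simp only at h1 h2
    apply hVL p hp x
    · exact (hψker _).mp (mul_eq_right.mp h1)
    · exact (QuotientGroup.eq_one_iff _).mp (mul_eq_right.mp h2)
  have hred := WdZ_reduced α γ A θ z0 hTθ L hL hfix
  -- the finite quotient of the free group
  obtain ⟨F, hFg, hFf, fF, hfF⟩ : ∃ (F : Type) (_ : Group F) (_ : Finite F)
      (f : FreeGroup (Quotient (orbS α A)) →* F),
      WdZ α A θ z0 L ≠ [] → f (FreeGroup.mk (WdZ α A θ z0 L)) ≠ 1 := by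
    by_cases hW : WdZ α A θ z0 L = []
    · exact ⟨Unit, inferInstance, inferInstance, 1, fun h => absurd hW h⟩
    · obtain ⟨F, h1, h2, f, hf⟩ := free_res _ (mk_ne_one hred hW)
      exact ⟨F, h1, h2, f, fun _ => hf⟩
  let X : Z → F := fun z => fF (FreeGroup.of (clZ α A z))
  have hX : ∀ x z, X (A (α x) z) = X z := by
    intro x z
    simp only [X]
    congr 2
    exact ((clZ_eq α A _ _).mpr ⟨x, rfl⟩).symm
  let E : H →* Equiv.Perm (Z × F) :=
    { toFun := fun h => Equiv.prodCongr (A h) (Equiv.refl F)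
      map_one' := by ext1 ⟨z, y⟩; rw [map_one]; rfl
      map_mul' := by
        intro h h'
        ext1 ⟨z, y⟩
        rw [map_mul]
        rfl }
  have hE : ∀ h z y, E h (z, y) = (A h z, y) := fun _ _ _ => rfl
  let P : Equiv.Perm (Z × F) :=
    { toFun := fun z => (θ z.1, X z.1 * z.2)
      invFun := fun z => (θ⁻¹ z.1, (X (θ⁻¹ z.1))⁻¹ * z.2)
      left_inv := by rintro ⟨a, b⟩; simp
      right_inv := by rintro ⟨a, b⟩; simp }
  have hP : ∀ z y, P (z, y) = (θ z, X z * y) := fun _ _ => rfl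
  have hPi : ∀ z y, P⁻¹ (z, y) = (θ⁻¹ z, (X (θ⁻¹ z))⁻¹ * y) := fun _ _ => rfl
  obtain ⟨Φ, hΦ, hΦs⟩ := huniv (Equiv.Perm (Z × F)) E P (by
    intro x
    ext1 ⟨z, y⟩
    rw [Equiv.Perm.mul_apply, Equiv.Perm.mul_apply, hE, hP, hP, hE, hX]
    have := congrArg (fun σ : Equiv.Perm Z => σ z) (hTθ x)
    simp only [Equiv.Perm.mul_apply] at this
    rw [this])
  -- the first coordinate
  have hfst : ∀ g : I, ∀ p : Z × F, (Φ g p).1.1 = π g * p.1.1 := by
    intro g
    have hg : g ∈ Subgroup.closure (Set.range ι ∪ {s}) := by rw [hgen]; trivial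
    induction hg using Subgroup.closure_induction with
    | mem y hy =>
      rcases hy with ⟨h, rfl⟩ | hy
      · rintro ⟨⟨a, b⟩, c⟩
        rw [hΦ, hE, hA]
        rfl
      · rw [Set.mem_singleton_iff] at hy
        subst hy
        rintro ⟨⟨a, b⟩, c⟩
        rw [hΦs, hP, hθ]
    | one => intro p; simp
    | mul y z _ _ hy hz =>
      intro p
      rw [map_mul, Equiv.Perm.mul_apply, hy, hz, map_mul, mul_assoc]
    | inv y _ hy =>
      intro p
      have h1 := hy (Φ y⁻¹ p)
      rw [← Equiv.Perm.mul_apply, ← map_mul, mul_inv_cancel, map_one, Equiv.Perm.one_apply] at h1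
      rw [h1, map_inv π y, inv_mul_cancel_left]
  -- evaluation
  have hval : ∀ L' : List (Bool × H), Φ (pr ι s L') (z0, 1)
      = (posZ A θ z0 L', fF (FreeGroup.mk (WdZ α A θ z0 L'))) := by
    intro L'
    induction L' with
    | nil =>
      rw [pr_nil, map_one, Equiv.Perm.one_apply]
      show (z0, (1 : F)) = (z0, fF (FreeGroup.mk []))
      rw [← FreeGroup.one_eq_mk, map_one]
    | cons p L' ih =>
      rw [pr_cons, map_mul, map_mul, Equiv.Perm.mul_apply, Equiv.Perm.mul_apply, ih, hΦ, hE]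
      rcases p with ⟨b, h⟩
      cases b
      · simp only [cond_false]
        have e2 : FreeGroup.mk (WdZ α A θ z0 ((false, h) :: L'))
            = (FreeGroup.of (clZ α A (θ⁻¹ (A h (posZ A θ z0 L')))))⁻¹ *
              FreeGroup.mk (WdZ α A θ z0 L') := by
          rw [FreeGroup.of, FreeGroup.inv_mk, FreeGroup.mul_mk]
          rfl
        rw [map_inv, hΦs, hPi, e2, map_mul, map_inv]
        rfl
      · simp only [cond_true]
        have e2 : FreeGroup.mk (WdZ α A θ z0 ((true, h) :: L'))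
            = FreeGroup.of (clZ α A (A h (posZ A θ z0 L'))) *
              FreeGroup.mk (WdZ α A θ z0 L') := by
          rw [FreeGroup.of, FreeGroup.mul_mk]
          rfl
        rw [hΦs, hP, e2, map_mul]
        rfl
  -- the stabilizer
  let _ : MulAction S (Z × F) := MulAction.compHom _ (Φ.comp S.subtype)
  let St : Subgroup S := MulAction.stabilizer S ((z0, 1) : Z × F)
  have hfin : (MulAction.orbit S ((z0, 1) : Z × F)).Finite := by
    apply Set.Finite.subset
      (Set.finite_range (fun y : (H ⧸ V) × F => (((1, y.1), y.2) : Z × F)))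
    rintro p ⟨k, rfl⟩
    refine ⟨((Φ k (z0, 1)).1.2, (Φ k (z0, 1)).2), ?_⟩
    change ((1, (Φ k (z0, 1)).1.2), (Φ k (z0, 1)).2) = Φ k (z0, 1)
    refine Prod.ext (Prod.ext ?_ rfl) rfl
    rw [hfst]
    have : π (k : I) = 1 := (QuotientGroup.eq_one_iff _).mpr (hS k.2)
    rw [this]
    exact (one_mul _).symm
  have hidx : St.index ≠ 0 := by
    rw [MulAction.index_stabilizer]
    exact Set.ncard_ne_zero_of_mem (MulAction.mem_orbit_self _) hfin
  have hle : St.map S.subtype ≤ S := by
    rintro y ⟨k, -, rfl⟩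
    exact k.2
  have hsub : (St.map S.subtype).subgroupOf S = St :=
    Subgroup.comap_map_eq_self_of_injective S.subtype_injective St
  rw [mem_nextF] at hg
  obtain ⟨k, hk, hkg⟩ := hg (St.map S.subtype) hle (by rw [hsub]; exact hidx)
  have h1 : Φ g (z0, 1) = (z0, 1) := by
    rw [← hkg]
    exact hk
  rw [hgL, map_mul, Equiv.Perm.mul_apply, hval, hΦ, hE] at h1
  by_cases hLn : L = []
  · subst hLn
    have h2 := congrArg (fun p : Z × F => p.1.2) h1
    have h3 : pr' h0 * 1 = 1 := h2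
    rw [mul_one] at h3
    have h4 : h0 ∈ V := (QuotientGroup.eq_one_iff _).mp h3
    have h5 : h0 = 1 := by
      by_contra hh
      exact hV h0 List.mem_cons_self hh h4
    rw [h5, map_one, pr_nil, mul_one] at hgL
    exact hne hgL
  · have hWn : WdZ α A θ z0 L ≠ [] := by
      cases L with
      | nil => exact absurd rfl hLn
      | cons p L => simp [WdZ]
    exact hfF hWn (congrArg Prod.snd h1)

end Pool.Agent.N151.FR
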