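import Mathlib
import Pool.Agent.N151.FR.RfBase

set_option autoImplicit false

/-! One-relator groups whose Magnus base is residually finite, with nonzero extreme exponent
sums. -/

namespace Pool.Agent.N151.FR

open Pool.Agent.N151.RFC

universe u

/-- changing one letter by a central element -/
lemma lift_central {J : Type*} [DecidableEq J] (w : FreeGroup J) (x : J) {G : Type*} [Group G]
    (f : J → G) (ξ c : G) (hc : c ∈ Subgroup.center G) :
    FreeGroup.lift (Function.update f x (ξ * c)) w
      = FreeGroup.lift (Function.update f x ξ) w * c ^ (Multiplicative.toAdd (expo x w)) := by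
  let h : FreeGroup J →* G :=
    { toFun := fun w => FreeGroup.lift (Function.update f x ξ) w *
        c ^ (Multiplicative.toAdd (expo x w))
      map_one' := by simp
      map_mul' := by
        intro a b
        rw [map_mul, map_mul, toAdd_mul, zpow_add]
        have h1 : ∀ g : G, ∀ n : ℤ, g * c ^ n = c ^ n * g := fun g n =>
          Subgroup.mem_center_iff.mp (Subgroup.zpow_mem _ hc n) g
        simp only [mul_assoc]
        congr 1
        rw [← mul_assoc, h1, h1 _ (Multiplicative.toAdd (expo x a)),
          h1 _ (Multiplicative.toAdd (expo x b)), ← mul_assoc, ← mul_assoc, ← zpow_add,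
          ← zpow_add, add_comm] }
  have h2 : FreeGroup.lift (Function.update f x (ξ * c)) = h := by
    ext z
    change _ = FreeGroup.lift (Function.update f x ξ) (FreeGroup.of z) *
        c ^ (Multiplicative.toAdd (expo x (FreeGroup.of z)))
    by_cases hz : z = x
    · subst hz
      simp [expo]
    · simp [expo, hz]
  exact DFunLike.congr_fun h2 w

/-- equations with exponent sum prime to `q` can be solved in finite `q`-groups -/
theorem solve {J : Type*} [DecidableEq J] (w : FreeGroup J) (x : J) (q : ℕ) (hq : q.Prime)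
    (hlt : (Multiplicative.toAdd (expo x w)).natAbs < q) (hne : expo x w ≠ 1)
    (T : Type) [Group T] [Group.IsNilpotent T] :
    IsPGroup q T → ∀ f : J → T, ∃ ξ : T, FreeGroup.lift (Function.update f x ξ) w = 1 := by
  refine Group.nilpotent_center_quotient_ind
    (P := fun T _ _ => IsPGroup q T → ∀ f : J → T, ∃ ξ : T,
      FreeGroup.lift (Function.update f x ξ) w = 1) T ?_ ?_
  · intro G _ _ _ f
    exact ⟨1, Subsingleton.elim _ _⟩
  · intro G _ _ ih hG f
    let q0 : G →* G ⧸ Subgroup.center G := QuotientGroup.mk' _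
    obtain ⟨β, hβ⟩ := ih (hG.to_quotient _) (fun y => q0 (f y))
    obtain ⟨ξ0, hξ0⟩ := QuotientGroup.mk'_surjective (Subgroup.center G) β
    set v := FreeGroup.lift (Function.update f x ξ0) w with hv
    have h1 : q0 v = 1 := by
      rw [← hβ, hv]
      have : q0.comp (FreeGroup.lift (Function.update f x ξ0))
          = FreeGroup.lift (Function.update (fun y => q0 (f y)) x β) := by
        ext z
        by_cases hz : z = x
        · subst hz
          simp only [MonoidHom.comp_apply, FreeGroup.lift_apply_of, Function.update_self]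
          exact hξ0
        · simp [hz]
      exact DFunLike.congr_fun this w
    have hvc : v ∈ Subgroup.center G := (QuotientGroup.eq_one_iff v).mp h1
    obtain ⟨a, ha⟩ := hG v
    have hpos : 0 < (Multiplicative.toAdd (expo x w)).natAbs := by
      rw [Int.natAbs_pos]
      intro h
      apply hne
      exact h
    have hcop : IsCoprime (Multiplicative.toAdd (expo x w)) ((q ^ a : ℕ) : ℤ) := by
      rw [Int.isCoprime_iff_gcd_eq_one, Int.gcd_comm]
      change Nat.gcd _ _ = 1
      rw [Int.natAbs_natCast]
      apply Nat.Coprime.pow_left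
      rw [Nat.Prime.coprime_iff_not_dvd hq]
      intro hd
      exact absurd (Nat.le_of_dvd hpos hd) (by omega)
    obtain ⟨m, n, hmn⟩ := hcop
    refine ⟨ξ0 * v ^ (-m), ?_⟩
    rw [lift_central w x f ξ0 _ (Subgroup.zpow_mem _ hvc _), ← hv, ← zpow_mul]
    have h3 : v ^ (m * Multiplicative.toAdd (expo x w)) = v := by
      have h4 : m * Multiplicative.toAdd (expo x w) = 1 + ((q ^ a : ℕ) : ℤ) * (-n) := by linarith
      rw [h4, zpow_add, zpow_one, zpow_mul, zpow_natCast, ha, one_zpow, mul_one]
    rw [neg_mul, zpow_neg, h3, mul_inv_cancel]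

/-- the finite quotients of an HNN extension, from bijectivity of the restrictions -/
theorem exists_finite_rep' {B : Type u} [Group B] {F : Type*} [Group F] (α γ : F →* B)
    {T : Type} [Group T] [Finite T] [Finite (B →* T)]
    (ha : Function.Bijective (fun f : B →* T => f.comp α))
    (hc : Function.Bijective (fun f : B →* T => f.comp γ)) :
    ∃ (Ω : Type u) (_ : Finite Ω) (E : B →* Equiv.Perm Ω) (P : Equiv.Perm Ω),
      (∀ x, P * E (α x) = E (γ x) * P) ∧ ∀ (f : B →* T) (b : B), f b ≠ 1 → E b ≠ 1 := by
  let a := Equiv.ofBijective _ ha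
  let c := Equiv.ofBijective _ hc
  let τ : Equiv.Perm (B →* T) := a.trans c.symm
  have hτ : ∀ (f : B →* T) x, (τ f) (γ x) = f (α x) := by
    intro f x
    have h1 : (fun f : B →* T => f.comp γ) (τ f) = (fun f : B →* T => f.comp α) f := by
      change c (c.symm (a f)) = a f
      exact c.apply_symm_apply _
    exact DFunLike.congr_fun h1 x
  let E : B →* Equiv.Perm ((B →* T) × T) :=
    { toFun := fun b => Equiv.prodShear (Equiv.refl _) (fun f => Equiv.mulLeft (f b))
      map_one' := by
        ext ⟨f, y⟩ <;> simp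
      map_mul' := by
        intro b b'
        ext ⟨f, y⟩ <;> simp }
  have hE : ∀ b (f : B →* T) y, E b (f, y) = (f, f b * y) := fun b f y => rfl
  refine ⟨(B →* T) × T, inferInstance, E, Equiv.prodCongr τ (Equiv.refl T), ?_, ?_⟩
  · intro x
    ext1 ⟨f, y⟩
    rw [Equiv.Perm.mul_apply, Equiv.Perm.mul_apply, hE]
    change (τ f, f (α x) * y) = E (γ x) (τ f, y)
    rw [hE, hτ]
  · intro f b hb h
    apply hb
    have h1 := congrArg (fun σ : Equiv.Perm ((B →* T) × T) => (σ (f, 1)).2) h
    simpa [hE] using h1

/-- the restriction to all letters but one is bijective on homomorphisms to `q`-groups -/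
lemma restrict_bij {J : Type} [DecidableEq J] (w : FreeGroup J) (x : J) (q : ℕ) (hq : q.Prime)
    (hlt : (Multiplicative.toAdd (expo x w)).natAbs < q) (hne : expo x w ≠ 1)
    {M : Type} [Finite M] (α : FreeGroup M →* PresentedGroup ({w} : Set (FreeGroup J)))
    (ρ : M → J) (hρ : ∀ m, α (FreeGroup.of m) = PresentedGroup.of (ρ m))
    (hρ1 : Function.Injective ρ) (hρ2 : ∀ m, ρ m ≠ x) (hρ3 : ∀ z, z ≠ x → ∃ m, ρ m = z)
    {T : Type} [Group T] [Finite T] (hT : IsPGroup q T) :
    Finite (PresentedGroup ({w} : Set (FreeGroup J)) →* T) ∧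
      Function.Bijective (fun f : PresentedGroup ({w} : Set (FreeGroup J)) →* T => f.comp α) := by
  classical
  have : Fact q.Prime := ⟨hq⟩
  have hnil : Group.IsNilpotent T := hT.isNilpotent
  have hfin : Finite (FreeGroup M →* T) := Finite.of_equiv _ (FreeGroup.lift (α := M) (β := T))
  have hinj : Function.Injective
      (fun f : PresentedGroup ({w} : Set (FreeGroup J)) →* T => f.comp α) := by
    intro f g h
    refine hom_ext_of_frattini α ?_ hT f g h
    intro C _ hC φ hφ
    apply kill w x q hq hlt hne hC φ
    intro z hz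
    obtain ⟨m, rfl⟩ := hρ3 z hz
    have := DFunLike.congr_fun hφ (FreeGroup.of m)
    rw [MonoidHom.comp_apply, hρ] at this
    exact this
  refine ⟨Finite.of_injective _ hinj, hinj, ?_⟩
  intro g0
  let f : J → T := fun z => if h : ∃ m, ρ m = z then g0 (FreeGroup.of h.choose) else 1
  obtain ⟨ξ, hξ⟩ := solve w x q hq hlt hne T hT f
  have hrel : ∀ r ∈ ({w} : Set (FreeGroup J)), FreeGroup.lift (Function.update f x ξ) r = 1 := by
    intro r hr
    rw [Set.mem_singleton_iff] at hr
    rw [hr, hξ]
  refine ⟨PresentedGroup.toGroup hrel, ?_⟩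
  ext m
  simp only [MonoidHom.comp_apply]
  rw [hρ, PresentedGroup.toGroup.of, Function.update_of_ne (hρ2 m)]
  have hex : ∃ m', ρ m' = ρ m := ⟨m, rfl⟩
  have h1 : f (ρ m) = g0 (FreeGroup.of hex.choose) := dif_pos hex
  rw [h1, hρ1 hex.choose_spec]

end Pool.Agent.N151.FR
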