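import Mathlib
import Pool.Agent.N151.FR.RfBase

set_option autoImplicit false

/-! The general form: only the intersection with the base has to be residually finite. -/

namespace Pool.Agent.N151.FR

open Pool.Agent.N151.RFC

universe v w

/-- finitely many nontrivial elements of `N` can be avoided if `nextF N = ⊥` -/
lemma avoid_list' {H : Type v} [Group H] (N : Subgroup H) (hN : nextF N = ⊥) (L : List N) :
    ∃ V : Subgroup N, V.Normal ∧ V.FiniteIndex ∧ ∀ b ∈ L, b ≠ 1 → b ∉ V := by
  induction L with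
  | nil => exact ⟨⊤, inferInstance, inferInstance, by simp⟩
  | cons b L ih =>
    obtain ⟨V, hn, hf, hV⟩ := ih
    by_cases hb : b = 1
    · refine ⟨V, hn, hf, ?_⟩
      intro c hc hc1
      rcases List.mem_cons.mp hc with rfl | hc
      · exact absurd hb hc1
      · exact hV c hc hc1
    · have h1 : (b : H) ∉ nextF N := by
        rw [hN, Subgroup.mem_bot]
        intro h
        exact hb (Subtype.ext h)
      rw [mem_nextF] at h1
      push Not at h1
      obtain ⟨W, hWN, hWi, hbW⟩ := h1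
      have hf' : (W.subgroupOf N).FiniteIndex := ⟨hWi⟩
      refine ⟨V ⊓ (W.subgroupOf N).normalCore, inferInstance, inferInstance, ?_⟩
      intro c hc hc1 hmem
      rcases List.mem_cons.mp hc with rfl | hc
      · exact hbW (show (c : H) ∈ W from Subgroup.normalCore_le (W.subgroupOf N) hmem.2)
      · exact hV c hc hc1 hmem.1

section

variable {Z : Type v} {H : Type v} [Group H] {R : Type w} [Group R] (α γ : R →* H)
  (A : H →* Equiv.Perm Z) (θ : Equiv.Perm Z) (z0 : Z)

/-- freeness along the path -/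
def FreeAlong : List (Bool × H) → Prop
  | [] => True
  | p :: L => (∀ x : R, A (((cond p.1 α γ) x)⁻¹ * p.2) (posZ A θ z0 L) = posZ A θ z0 L →
      ((cond p.1 α γ) x)⁻¹ * p.2 = 1) ∧ FreeAlong L

lemma WdZ_reduced' (hT : ∀ x, θ * A (α x) = A (γ x) * θ) :
    ∀ L : List (Bool × H), Red3 α γ L → FreeAlong α γ A θ z0 L →
      FreeGroup.IsReduced (WdZ α A θ z0 L) := by
  intro L
  induction L with
  | nil => intro _ _; exact List.isChain_nil
  | cons p L ih =>
    intro hL hfree
    cases L with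
    | nil => exact List.isChain_singleton _
    | cons p1 L =>
      have h1 := List.isChain_cons_cons.mp hL
      have h2 := ih h1.2 hfree.2
      refine List.isChain_cons_cons.mpr ⟨?_, h2⟩
      intro hc
      have hfp := hfree.1
      rcases p with ⟨b, f⟩
      rcases p1 with ⟨b1, f1⟩
      simp only at hc hfp ⊢
      by_contra hne
      apply hne
      apply h1.1
      set z := A f1 (posZ A θ z0 L) with hz
      have hpos : posZ A θ z0 ((b1, f1) :: L) = (cond b1 θ θ⁻¹) z := rfl
      rw [hpos] at hc hfp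
      cases b <;> cases b1
      · exact absurd rfl hne
      · -- `t⁻¹ f t`
        simp only [cond_false, cond_true] at hc hfp ⊢
        obtain ⟨x, hx⟩ := (clZ_eq α A _ _).mp hc.symm
        have h3 : A f (θ z) = A (γ x) (θ z) := by
          have h4 : θ (A (α x) z) = A (γ x) (θ z) := by
            have := congrArg (fun σ : Equiv.Perm Z => σ z) (hT x)
            simpa [Equiv.Perm.mul_apply] using this
          rw [← h4, hx, papi]
        have h5 := hfp x (by
          rw [map_mul, Equiv.Perm.mul_apply, h3, map_inv, pinv])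
        exact ⟨x, (inv_mul_eq_one.mp h5)⟩
      · -- `t f t⁻¹`
        simp only [cond_false, cond_true] at hc hfp ⊢
        obtain ⟨x, hx⟩ := (clZ_eq α A _ _).mp hc.symm
        have h5 := hfp x (by
          rw [map_mul, Equiv.Perm.mul_apply, ← hx, map_inv, pinv])
        exact ⟨x, (inv_mul_eq_one.mp h5)⟩
      · exact absurd rfl hne

end

/-- the data of a group generated by the base and a stable letter, with a normal subgroup meeting
the associated subgroups trivially -/
structure HD (I H : Type v) [Group I] [Group H] (R : Type w) [Group R] where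
  ι : H →* I
  s : I
  α : R →* H
  γ : R →* H
  hgen : Subgroup.closure (Set.range ι ∪ {s}) = ⊤
  hrel : ∀ x, s * ι (α x) = ι (γ x) * s
  huniv : ∀ (G : Type v) [Group G] (E : H →* G) (P : G),
      (∀ x, P * E (α x) = E (γ x) * P) →
      ∃ Φ : I →* G, (∀ h, Φ (ι h) = E h) ∧ Φ s = P

section

variable {I H : Type v} [Group I] [Group H] {R : Type w} [Group R] (D : HD I H R)
  (K : Subgroup I) [K.Normal]

/-- a principal bundle over `I ⧸ K` with an action of `I` -/
theorem exists_bundle (hKα : ∀ x, D.ι (D.α x) ∈ K → x = 1) :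
    ∃ (c : H → I ⧸ K → K.comap D.ι) (lam : I ⧸ K → K.comap D.ι) (β : I ⧸ K → H),
      (∀ q, c 1 q = 1) ∧
      (∀ h h' q, c (h * h') q = c h (QuotientGroup.mk' K (D.ι h') * q) * c h' q) ∧
      (∀ x q, lam (QuotientGroup.mk' K (D.ι (D.α x)) * q) * c (D.α x) q
        = c (D.γ x) (QuotientGroup.mk' K D.s * q) * lam q) ∧
      (∀ n ∈ K.comap D.ι, ∀ q, ((c n q : K.comap D.ι) : H) = (β q)⁻¹ * n * β q) := by
  classical
  let π : I →* I ⧸ K := QuotientGroup.mk' K
  let ψ : H →* I ⧸ K := π.comp D.ι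
  have hψker : ∀ h, ψ h = 1 ↔ D.ι h ∈ K := fun h => QuotientGroup.eq_one_iff (D.ι h)
  -- base points
  have hβ : ∀ q : I ⧸ K, ∃ b : H, ψ b * Quotient.out (clD ψ.range q) = q := by
    intro q
    have h1 : clD ψ.range (Quotient.out (clD ψ.range q)) = clD ψ.range q := Quotient.out_eq _
    rw [clD_eq] at h1
    obtain ⟨x, hx⟩ := h1
    exact ⟨x, by rw [hx, inv_mul_cancel_right]⟩
  choose β hβ using hβ
  have hmem : ∀ h q, (β (ψ h * q))⁻¹ * h * β q ∈ K.comap D.ι := by
    intro h q
    rw [Subgroup.mem_comap, ← hψker]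
    have h1 := hβ (ψ h * q)
    rw [clD_mul ψ.range (show ψ h ∈ ψ.range from ⟨h, rfl⟩)] at h1
    have h2 := hβ q
    have h3 : ψ (β (ψ h * q)) = ψ h * ψ (β q) := by
      apply mul_right_cancel (b := Quotient.out (clD ψ.range q))
      rw [h1, mul_assoc, h2]
    rw [map_mul, map_mul, map_inv, h3]
    group
  let c : H → I ⧸ K → K.comap D.ι := fun h q => ⟨(β (ψ h * q))⁻¹ * h * β q, hmem h q⟩
  have hc : ∀ h h' q, c (h * h') q = c h (ψ h' * q) * c h' q := by
    intro h h' q
    apply Subtype.ext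
    change (β (ψ (h * h') * q))⁻¹ * (h * h') * β q
      = ((β (ψ h * (ψ h' * q)))⁻¹ * h * β (ψ h' * q)) * ((β (ψ h' * q))⁻¹ * h' * β q)
    rw [map_mul, mul_assoc (ψ h)]
    group
  have hc1 : ∀ q, c 1 q = 1 := by
    intro q
    apply Subtype.ext
    change (β (ψ 1 * q))⁻¹ * 1 * β q = 1
    rw [map_one, one_mul]
    group
  -- representatives for the first associated subgroup
  have hψα : ∀ x y, ψ (D.α x) = ψ (D.α y) → x = y := by
    intro x y hxy
    have h1 : ψ (D.α (x * y⁻¹)) = 1 := by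
      rw [map_mul, map_mul, hxy, map_inv, map_inv, mul_inv_cancel]
    have h2 := hKα _ ((hψker _).mp h1)
    exact mul_inv_eq_one.mp h2
  let DD : Subgroup (I ⧸ K) := (ψ.comp D.α).range
  have hrep : ∀ q : I ⧸ K, ∃ x : R, ψ (D.α x) * (Quotient.out (clD DD q)) = q := by
    intro q
    have h1 : clD DD (Quotient.out (clD DD q)) = clD DD q := Quotient.out_eq _
    rw [clD_eq] at h1
    obtain ⟨x, hx⟩ := h1
    refine ⟨x, ?_⟩
    change (ψ.comp D.α) x * _ = q
    rw [hx, inv_mul_cancel_right]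
  choose xr hxr using hrep
  have hxr_mul : ∀ x q, xr (ψ (D.α x) * q) = x * xr q := by
    intro x q
    apply hψα
    have h1 := hxr (ψ (D.α x) * q)
    rw [clD_mul DD (show ψ (D.α x) ∈ DD from ⟨x, rfl⟩)] at h1
    have h2 := hxr q
    rw [map_mul, map_mul]
    apply mul_right_cancel (b := Quotient.out (clD DD q))
    rw [h1, mul_assoc, h2]
  have hT : ∀ x, π D.s * ψ (D.α x) = ψ (D.γ x) * π D.s := by
    intro x
    change π D.s * π (D.ι (D.α x)) = π (D.ι (D.γ x)) * π D.s
    rw [← map_mul, ← map_mul, D.hrel]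
  let q0 : I ⧸ K → I ⧸ K := fun q => Quotient.out (clD DD q)
  let lam : I ⧸ K → K.comap D.ι := fun q =>
    c (D.γ (xr q)) (π D.s * q0 q) * (c (D.α (xr q)) (q0 q))⁻¹
  have hq0 : ∀ x q, q0 (ψ (D.α x) * q) = q0 q := by
    intro x q
    simp only [q0]
    rw [clD_mul DD (show ψ (D.α x) ∈ DD from ⟨x, rfl⟩)]
  refine ⟨c, lam, β, hc1, hc, ?_, ?_⟩
  · intro x q
    change lam (ψ (D.α x) * q) * c (D.α x) q = c (D.γ x) (π D.s * q) * lam q
    simp only [lam]
    rw [hxr_mul, hq0, map_mul, map_mul, hc, hc]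
    have h1 : ψ (D.α (xr q)) * q0 q = q := hxr q
    have h2 : ψ (D.γ (xr q)) * (π D.s * q0 q) = π D.s * q := by
      rw [← mul_assoc, ← hT, mul_assoc, h1]
    have h1' : QuotientGroup.mk' K (D.ι (D.α (xr q))) * q0 q = q := h1
    have h2' : QuotientGroup.mk' K (D.ι (D.γ (xr q))) * (π D.s * q0 q) = π D.s * q := h2
    rw [h1, h2, mul_inv_rev]
    group
  · intro n hn q
    change (β (ψ n * q))⁻¹ * n * β q = _
    rw [(hψker n).mpr hn, one_mul]

/-- the base embeds -/
theorem ι_injective (hKα : ∀ x, D.ι (D.α x) ∈ K → x = 1) : Function.Injective D.ι := by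
  obtain ⟨c, lam, β, hc1, hc, hlam, hcn⟩ := exists_bundle D K hKα
  let π : I →* I ⧸ K := QuotientGroup.mk' K
  let ψ : H →* I ⧸ K := π.comp D.ι
  let N := K.comap D.ι
  have hinv : ∀ h q, c h⁻¹ (ψ h * q) = (c h q)⁻¹ := by
    intro h q
    have h1 := hc h⁻¹ h q
    rw [inv_mul_cancel, hc1] at h1
    exact eq_inv_of_mul_eq_one_left h1.symm
  let E : H →* Equiv.Perm ((I ⧸ K) × N) :=
    { toFun := fun h =>
        { toFun := fun z => (ψ h * z.1, c h z.1 * z.2)
          invFun := fun z => ((ψ h)⁻¹ * z.1, (c h ((ψ h)⁻¹ * z.1))⁻¹ * z.2)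
          left_inv := by rintro ⟨a, b⟩; simp
          right_inv := by rintro ⟨a, b⟩; simp }
      map_one' := by
        ext1 ⟨a, b⟩
        change (ψ 1 * a, c 1 a * b) = (a, b)
        rw [hc1, map_one, one_mul, one_mul]
      map_mul' := by
        intro h h'
        ext1 ⟨a, b⟩
        change (ψ (h * h') * a, c (h * h') a * b) = (ψ h * (ψ h' * a), c h (ψ h' * a) * (c h' a * b))
        rw [hc, map_mul, mul_assoc, mul_assoc]
        rfl }
  let P : Equiv.Perm ((I ⧸ K) × N) :=
    { toFun := fun z => (π D.s * z.1, lam z.1 * z.2)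
      invFun := fun z => ((π D.s)⁻¹ * z.1, (lam ((π D.s)⁻¹ * z.1))⁻¹ * z.2)
      left_inv := by rintro ⟨a, b⟩; simp
      right_inv := by rintro ⟨a, b⟩; simp }
  have hT : ∀ x, π D.s * ψ (D.α x) = ψ (D.γ x) * π D.s := by
    intro x
    change π D.s * π (D.ι (D.α x)) = π (D.ι (D.γ x)) * π D.s
    rw [← map_mul, ← map_mul, D.hrel]
  obtain ⟨Φ, hΦ, -⟩ := D.huniv _ E P (by
    intro x
    ext1 ⟨a, b⟩
    change (π D.s * (ψ (D.α x) * a), lam (ψ (D.α x) * a) * (c (D.α x) a * b))
      = (ψ (D.γ x) * (π D.s * a), c (D.γ x) (π D.s * a) * (lam a * b))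
    rw [← mul_assoc, hT, mul_assoc, ← mul_assoc (lam _)]
    have := hlam x a
    change lam (ψ (D.α x) * a) * c (D.α x) a = c (D.γ x) (π D.s * a) * lam a at this
    rw [this, mul_assoc])
  rw [injective_iff_map_eq_one]
  intro h hh
  have hE : E h = 1 := by rw [← hΦ, hh, map_one]
  have h1 : E h (1, 1) = (1, 1) := by rw [hE]; rfl
  have h2 : c h 1 * 1 = 1 := congrArg Prod.snd h1
  rw [mul_one] at h2
  have hN : h ∈ K.comap D.ι := by
    rw [Subgroup.mem_comap, hh]
    exact K.one_mem
  have h3 := hcn h hN 1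
  rw [h2] at h3
  have h4 : (β 1)⁻¹ * h * β 1 = 1 := h3.symm
  have h5 : h = β 1 * ((β 1)⁻¹ * h * β 1) * (β 1)⁻¹ := by group
  rw [h5, h4]
  group

end

end Pool.Agent.N151.FR
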