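import Mathlib
import Pool.Agent.N151.FR.RfGen

set_option autoImplicit false

/-! Normal subgroups whose intersection with the base is residually finite. -/

namespace Pool.Agent.N151.FR

open Pool.Agent.N151.RFC

universe v w

theorem nextF_eq_bot_gen {I H : Type v} [Group I] [Group H] {R : Type w} [Group R] (D : HD I H R)
    (K : Subgroup I) [K.Normal] (hKα : ∀ x, D.ι (D.α x) ∈ K → x = 1)
    (hKγ : ∀ x, D.ι (D.γ x) ∈ K → x = 1) (hN : nextF (K.comap D.ι) = ⊥)
    (S : Subgroup I) (hS : S ≤ K) : nextF S = ⊥ := by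
  classical
  rw [eq_bot_iff]
  intro g hg
  rw [Subgroup.mem_bot]
  by_contra hne
  have hgS : g ∈ S := by
    rw [mem_nextF] at hg
    apply hg S le_rfl
    simp
  obtain ⟨h0, L, hL, hgL⟩ := exists_red3 D.ι D.s D.α D.γ D.hgen D.hrel g
  obtain ⟨c, lam, β, hc1, hc, hlam, hcn⟩ := exists_bundle D K hKα
  let π : I →* I ⧸ K := QuotientGroup.mk' K
  let ψ : H →* I ⧸ K := π.comp D.ι
  have hψker : ∀ h, ψ h = 1 ↔ D.ι h ∈ K := fun h => QuotientGroup.eq_one_iff (D.ι h)
  let N := K.comap D.ι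
  let T : I ⧸ K := π D.s
  have hT : ∀ x, T * ψ (D.α x) = ψ (D.γ x) * T := by
    intro x
    change π D.s * π (D.ι (D.α x)) = π (D.ι (D.γ x)) * π D.s
    rw [← map_mul, ← map_mul, D.hrel]
  let cc : Bool → (R →* H) := fun b => cond b D.α D.γ
  have hcc : ∀ b x, D.ι (cc b x) ∈ K → x = 1 := by
    intro b x
    cases b
    · exact hKγ x
    · exact hKα x
  -- the avoided elements
  let nn : Bool × H → H := fun p =>
    if h : ∃ x : R, D.ι ((cc p.1 x)⁻¹ * p.2) ∈ K then (cc p.1 h.choose)⁻¹ * p.2 else 1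
  have hnn : ∀ (p : Bool × H) (x : R), D.ι ((cc p.1 x)⁻¹ * p.2) ∈ K →
      nn p = (cc p.1 x)⁻¹ * p.2 := by
    intro p x hx
    have hex : ∃ x : R, D.ι ((cc p.1 x)⁻¹ * p.2) ∈ K := ⟨x, hx⟩
    have h1 : nn p = (cc p.1 hex.choose)⁻¹ * p.2 := dif_pos hex
    have h2 : hex.choose = x := by
      have h3 := hex.choose_spec
      have h4 : D.ι ((cc p.1) ((hex.choose)⁻¹ * x)) ∈ K := by
        have h5 := K.mul_mem h3 (K.inv_mem hx)
        have h6 : D.ι ((cc p.1) ((hex.choose)⁻¹ * x)) =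
            D.ι ((cc p.1 hex.choose)⁻¹ * p.2) * (D.ι ((cc p.1 x)⁻¹ * p.2))⁻¹ := by
          rw [map_mul (cc p.1), map_inv (cc p.1)]
          simp only [map_mul D.ι, map_inv D.ι, mul_inv_rev, inv_inv]
          group
        rw [h6]
        exact h5
      exact inv_mul_eq_one.mp (hcc _ _ h4)
    rw [h1, h2]
  let rec_AL : List (Bool × H) → List N := fun L =>
    L.rec [] (fun p L ih => c (nn p) (pos T ψ L) :: ih)
  have hAL : ∀ p L, rec_AL (p :: L) = c (nn p) (pos T ψ L) :: rec_AL L := fun _ _ => rfl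
  obtain ⟨V, hVn, hVf, hV⟩ := avoid_list' N hN (c h0 1 :: rec_AL L)
  have hfinP : Finite (N ⧸ V) := Subgroup.finite_quotient_of_finiteIndex
  let mV : N →* N ⧸ V := QuotientGroup.mk' V
  -- the space
  let Z : Type v := (I ⧸ K) × (N ⧸ V)
  let A : H →* Equiv.Perm Z :=
    { toFun := fun h =>
        { toFun := fun z => (ψ h * z.1, mV (c h z.1) * z.2)
          invFun := fun z => ((ψ h)⁻¹ * z.1, (mV (c h ((ψ h)⁻¹ * z.1)))⁻¹ * z.2)
          left_inv := by rintro ⟨a, b⟩; simp
          right_inv := by rintro ⟨a, b⟩; simp }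
      map_one' := by
        ext1 ⟨a, b⟩
        change (ψ 1 * a, mV (c 1 a) * b) = (a, b)
        rw [hc1, map_one, map_one, one_mul, one_mul]
      map_mul' := by
        intro h h'
        ext1 ⟨a, b⟩
        change (ψ (h * h') * a, mV (c (h * h') a) * b)
          = (ψ h * (ψ h' * a), mV (c h (ψ h' * a)) * (mV (c h' a) * b))
        rw [hc, map_mul, map_mul, mul_assoc, mul_assoc]
        rfl }
  have hA : ∀ h (a : I ⧸ K) (b : N ⧸ V), A h (a, b) = (ψ h * a, mV (c h a) * b) :=
    fun _ _ _ => rfl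
  let θ : Equiv.Perm Z :=
    { toFun := fun z => (T * z.1, mV (lam z.1) * z.2)
      invFun := fun z => (T⁻¹ * z.1, (mV (lam (T⁻¹ * z.1)))⁻¹ * z.2)
      left_inv := by rintro ⟨a, b⟩; simp
      right_inv := by rintro ⟨a, b⟩; simp }
  have hθ : ∀ (a : I ⧸ K) (b : N ⧸ V), θ (a, b) = (T * a, mV (lam a) * b) := fun _ _ => rfl
  have hTθ : ∀ x, θ * A (D.α x) = A (D.γ x) * θ := by
    intro x
    ext1 ⟨a, b⟩
    rw [Equiv.Perm.mul_apply, Equiv.Perm.mul_apply, hA, hθ, hθ, hA]
    rw [← mul_assoc, hT, mul_assoc, ← mul_assoc (mV (lam _)), ← map_mul]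
    have := hlam x a
    change lam (ψ (D.α x) * a) * c (D.α x) a = c (D.γ x) (T * a) * lam a at this
    rw [this, map_mul, mul_assoc]
  let z0 : Z := (1, 1)
  have hpos1 : ∀ L' : List (Bool × H), (posZ A θ z0 L').1 = pos T ψ L' := by
    intro L'
    induction L' with
    | nil => rfl
    | cons p L' ih =>
      rcases p with ⟨b, h⟩
      cases b
      · change T⁻¹ * (ψ h * (posZ A θ z0 L').1) = T⁻¹ * (ψ h * pos T ψ L')
        rw [ih]
      · change T * (ψ h * (posZ A θ z0 L').1) = T * (ψ h * pos T ψ L')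
        rw [ih]
  have hfree : ∀ L' : List (Bool × H), (∀ b ∈ rec_AL L', b ≠ 1 → b ∉ V) →
      FreeAlong D.α D.γ A θ z0 L' := by
    intro L'
    induction L' with
    | nil => intro _; trivial
    | cons p L' ih =>
      intro hb
      rw [hAL] at hb
      refine ⟨?_, ih (fun b hbb => hb b (List.mem_cons_of_mem _ hbb))⟩
      intro x hx
      change A ((cc p.1 x)⁻¹ * p.2) (posZ A θ z0 L') = posZ A θ z0 L' at hx
      change (cc p.1 x)⁻¹ * p.2 = 1
      set n := (cc p.1 x)⁻¹ * p.2 with hn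
      have e1 : ψ n * (posZ A θ z0 L').1 = (posZ A θ z0 L').1 := congrArg Prod.fst hx
      have e2 : mV (c n (posZ A θ z0 L').1) * (posZ A θ z0 L').2 = (posZ A θ z0 L').2 :=
        congrArg Prod.snd hx
      have e3 : D.ι n ∈ K := (hψker n).mp (mul_eq_right.mp e1)
      have e4 : mV (c n (posZ A θ z0 L').1) = 1 := mul_eq_right.mp e2
      rw [hpos1] at e4
      have e5 : nn p = n := hnn p x e3
      have e6 : c n (pos T ψ L') ∈ V := (QuotientGroup.eq_one_iff _).mp e4
      have e7 : c n (pos T ψ L') = 1 := by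
        by_contra hcon
        apply hb (c (nn p) (pos T ψ L')) List.mem_cons_self
        · rw [e5]; exact hcon
        · rw [e5]; exact e6
      have e8 := hcn n e3 (pos T ψ L')
      rw [e7] at e8
      have e9 : n = β (pos T ψ L') * ((β (pos T ψ L'))⁻¹ * n * β (pos T ψ L')) *
          (β (pos T ψ L'))⁻¹ := by group
      rw [e9, ← e8]
      simp
  have hred := WdZ_reduced' D.α D.γ A θ z0 hTθ L hL
    (hfree L (fun b hb => hV b (List.mem_cons_of_mem _ hb)))
  -- the finite quotient of the free group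
  obtain ⟨F, hFg, hFf, fF, hfF⟩ : ∃ (F : Type) (_ : Group F) (_ : Finite F)
      (f : FreeGroup (Quotient (orbS D.α A)) →* F),
      WdZ D.α A θ z0 L ≠ [] → f (FreeGroup.mk (WdZ D.α A θ z0 L)) ≠ 1 := by
    by_cases hW : WdZ D.α A θ z0 L = []
    · exact ⟨Unit, inferInstance, inferInstance, 1, fun h => absurd hW h⟩
    · obtain ⟨F, h1, h2, f, hf⟩ := free_res _ (mk_ne_one hred hW)
      exact ⟨F, h1, h2, f, fun _ => hf⟩
  let X : Z → F := fun z => fF (FreeGroup.of (clZ D.α A z))
  have hX : ∀ x z, X (A (D.α x) z) = X z := by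
    intro x z
    simp only [X]
    congr 2
    exact ((clZ_eq D.α A _ _).mpr ⟨x, rfl⟩).symm
  let E : H →* Equiv.Perm (Z × F) :=
    { toFun := fun h => Equiv.prodCongr (A h) (Equiv.refl F)
      map_one' := by ext1 ⟨z, y⟩; rw [map_one]; rfl
      map_mul' := by
        intro h h'
        ext1 ⟨z, y⟩
        rw [map_mul]
        rfl }
  have hE : ∀ h z y, E h (z, y) = (A h z, y) := fun _ _ _ => rfl
  let P : Equiv.Perm (Z × F) :=
    { toFun := fun z => (θ z.1, X z.1 * z.2)
      invFun := fun z => (θ⁻¹ z.1, (X (θ⁻¹ z.1))⁻¹ * z.2)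
      left_inv := by rintro ⟨a, b⟩; simp
      right_inv := by rintro ⟨a, b⟩; simp }
  have hP : ∀ z y, P (z, y) = (θ z, X z * y) := fun _ _ => rfl
  have hPi : ∀ z y, P⁻¹ (z, y) = (θ⁻¹ z, (X (θ⁻¹ z))⁻¹ * y) := fun _ _ => rfl
  obtain ⟨Φ, hΦ, hΦs⟩ := D.huniv (Equiv.Perm (Z × F)) E P (by
    intro x
    ext1 ⟨z, y⟩
    rw [Equiv.Perm.mul_apply, Equiv.Perm.mul_apply, hE, hP, hP, hE, hX]
    have := congrArg (fun σ : Equiv.Perm Z => σ z) (hTθ x)
    simp only [Equiv.Perm.mul_apply] at this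
    rw [this])
  -- the first coordinate
  have hfst : ∀ g : I, ∀ p : Z × F, (Φ g p).1.1 = π g * p.1.1 := by
    intro g
    have hg : g ∈ Subgroup.closure (Set.range D.ι ∪ {D.s}) := by rw [D.hgen]; trivial
    induction hg using Subgroup.closure_induction with
    | mem y hy =>
      rcases hy with ⟨h, rfl⟩ | hy
      · rintro ⟨⟨a, b⟩, c⟩
        rw [hΦ, hE, hA]
        rfl
      · rw [Set.mem_singleton_iff] at hy
        subst hy
        rintro ⟨⟨a, b⟩, c⟩
        rw [hΦs, hP, hθ]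
    | one => intro p; simp
    | mul y z _ _ hy hz =>
      intro p
      rw [map_mul, Equiv.Perm.mul_apply, hy, hz, map_mul, mul_assoc]
    | inv y _ hy =>
      intro p
      have h1 := hy (Φ y⁻¹ p)
      rw [← Equiv.Perm.mul_apply, ← map_mul, mul_inv_cancel, map_one, Equiv.Perm.one_apply] at h1
      rw [h1, map_inv π y, inv_mul_cancel_left]
  -- evaluation
  have hval : ∀ L' : List (Bool × H), Φ (pr D.ι D.s L') (z0, 1)
      = (posZ A θ z0 L', fF (FreeGroup.mk (WdZ D.α A θ z0 L'))) := by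
    intro L'
    induction L' with
    | nil =>
      rw [pr_nil, map_one, Equiv.Perm.one_apply]
      show (z0, (1 : F)) = (z0, fF (FreeGroup.mk []))
      rw [← FreeGroup.one_eq_mk, map_one]
    | cons p L' ih =>
      rw [pr_cons, map_mul, map_mul, Equiv.Perm.mul_apply, Equiv.Perm.mul_apply, ih, hΦ, hE]
      rcases p with ⟨b, h⟩
      cases b
      · simp only [cond_false]
        have e2 : FreeGroup.mk (WdZ D.α A θ z0 ((false, h) :: L'))
            = (FreeGroup.of (clZ D.α A (θ⁻¹ (A h (posZ A θ z0 L')))))⁻¹ *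
              FreeGroup.mk (WdZ D.α A θ z0 L') := by
          rw [FreeGroup.of, FreeGroup.inv_mk, FreeGroup.mul_mk]
          rfl
        rw [map_inv, hΦs, hPi, e2, map_mul, map_inv]
        rfl
      · simp only [cond_true]
        have e2 : FreeGroup.mk (WdZ D.α A θ z0 ((true, h) :: L'))
            = FreeGroup.of (clZ D.α A (A h (posZ A θ z0 L'))) *
              FreeGroup.mk (WdZ D.α A θ z0 L') := by
          rw [FreeGroup.of, FreeGroup.mul_mk]
          rfl
        rw [hΦs, hP, e2, map_mul]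
        rfl
  -- the stabilizer
  let _ : MulAction S (Z × F) := MulAction.compHom _ (Φ.comp S.subtype)
  let St : Subgroup S := MulAction.stabilizer S ((z0, 1) : Z × F)
  have hfin : (MulAction.orbit S ((z0, 1) : Z × F)).Finite := by
    apply Set.Finite.subset
      (Set.finite_range (fun y : (N ⧸ V) × F => (((1, y.1), y.2) : Z × F)))
    rintro p ⟨k, rfl⟩
    refine ⟨((Φ k (z0, 1)).1.2, (Φ k (z0, 1)).2), ?_⟩
    change ((1, (Φ k (z0, 1)).1.2), (Φ k (z0, 1)).2) = Φ k (z0, 1)
    refine Prod.ext (Prod.ext ?_ rfl) rfl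
    rw [hfst]
    have : π (k : I) = 1 := (QuotientGroup.eq_one_iff _).mpr (hS k.2)
    rw [this]
    exact (one_mul _).symm
  have hidx : St.index ≠ 0 := by
    rw [MulAction.index_stabilizer]
    exact Set.ncard_ne_zero_of_mem (MulAction.mem_orbit_self _) hfin
  have hle : St.map S.subtype ≤ S := by
    rintro y ⟨k, -, rfl⟩
    exact k.2
  have hsub : (St.map S.subtype).subgroupOf S = St :=
    Subgroup.comap_map_eq_self_of_injective S.subtype_injective St
  rw [mem_nextF] at hg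
  obtain ⟨k, hk, hkg⟩ := hg (St.map S.subtype) hle (by rw [hsub]; exact hidx)
  have h1 : Φ g (z0, 1) = (z0, 1) := by
    rw [← hkg]
    exact hk
  rw [hgL, map_mul, Equiv.Perm.mul_apply, hval, hΦ, hE] at h1
  by_cases hLn : L = []
  · subst hLn
    rw [pr_nil, mul_one] at hgL
    have h2 := congrArg (fun p : Z × F => p.1.2) h1
    have h3 : mV (c h0 1) * 1 = 1 := h2
    rw [mul_one] at h3
    have h4 : c h0 1 ∈ V := (QuotientGroup.eq_one_iff _).mp h3
    have h5 : c h0 1 = 1 := by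
      by_contra hh
      exact hV _ List.mem_cons_self hh h4
    have h6 : D.ι h0 ∈ K := by rw [← hgL]; exact hS hgS
    have h7 := hcn h0 h6 1
    rw [h5] at h7
    have h8 : h0 = β 1 * ((β 1)⁻¹ * h0 * β 1) * (β 1)⁻¹ := by group
    have h9 : h0 = 1 := by
      rw [h8, ← h7]
      simp
    rw [h9, map_one] at hgL
    exact hne hgL
  · have hWn : WdZ D.α A θ z0 L ≠ [] := by
      cases L with
      | nil => exact absurd rfl hLn
      | cons p L => simp [WdZ]
    exact hfF hWn (congrArg Prod.snd h1)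

end Pool.Agent.N151.FR
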