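import Mathlib
import Pool.Agent.N151.FR.RfGen2

set_option autoImplicit false

/-! The induction: `f^m` of normal subgroups meeting the associated subgroups trivially. -/

namespace Pool.Agent.N151.FR

open Pool.Agent.N151.RFC

universe v w

lemma nextF_le {G : Type*} [Group G] (S : Subgroup G) : nextF S ≤ S := by
  intro x hx
  rw [mem_nextF] at hx
  exact hx S le_rfl (by simp)

lemma nextF_mono {G : Type*} [Group G] {S S' : Subgroup G} (h : S ≤ S') : nextF S ≤ nextF S' := by
  intro x hx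
  rw [mem_nextF] at hx ⊢
  intro K' hK' hi
  have h1 : (K' ⊓ S).relIndex S ≠ 0 := by
    rw [Subgroup.inf_relIndex_right]
    intro h0
    exact hi (Subgroup.relIndex_eq_zero_of_le_right h h0)
  exact (hx (K' ⊓ S) inf_le_right h1).1

/-- the finite residual maps into the finite residual of the image -/
lemma nextF_map_le {G Q : Type*} [Group G] [Group Q] (p : G →* Q) (S : Subgroup G) :
    (nextF S).map p ≤ nextF (S.map p) := by
  rintro _ ⟨x, hx, rfl⟩
  rw [SetLike.mem_coe, mem_nextF] at hx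
  rw [mem_nextF]
  intro K' hK' hi
  have h1 : ((K'.comap p) ⊓ S).relIndex S ≠ 0 := by
    rw [Subgroup.inf_relIndex_right, Subgroup.relIndex_comap]
    exact hi
  exact (hx _ inf_le_right h1).1

/-- factoring out the finite residual -/
lemma nextF_map_quot {G Q : Type*} [Group G] [Group Q] (q : G →* Q) (N : Subgroup G)
    (hq : q.ker = nextF N) : nextF (N.map q) = ⊥ := by
  rw [eq_bot_iff]
  intro y hy
  have hyN : y ∈ N.map q := nextF_le _ hy
  obtain ⟨x, hx, rfl⟩ := hyN
  rw [Subgroup.mem_bot, ← MonoidHom.mem_ker, hq, mem_nextF]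
  intro K' hK' hi
  rw [mem_nextF] at hy
  have hker : q.ker ≤ K' := by
    rw [hq]
    intro z hz
    rw [mem_nextF] at hz
    exact hz K' hK' hi
  have h4 : (K'.map q).comap q = K' := Subgroup.comap_map_eq_self hker
  have h5 := hy (K'.map q) (Subgroup.map_mono hK') (by
    change (K'.map q).relIndex (N.map q) ≠ 0
    rw [← Subgroup.relIndex_comap, h4]
    exact hi)
  rw [← h4]
  exact h5

instance nextF_normal {G : Type*} [Group G] (N : Subgroup G) [hN : N.Normal] :
    (nextF N).Normal := by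
  constructor
  intro n hn g
  rw [mem_nextF] at hn ⊢
  intro K hK hi
  let e : G ≃* G := MulAut.conj g⁻¹
  have hmap : N.map e.toMonoidHom = N := by
    ext x
    constructor
    · rintro ⟨y, hy, rfl⟩
      exact hN.conj_mem y hy g⁻¹
    · intro hx
      refine ⟨g * x * g⁻¹, hN.conj_mem x hx g, ?_⟩
      change g⁻¹ * (g * x * g⁻¹) * g⁻¹⁻¹ = x
      group
  have hle : K.map e.toMonoidHom ≤ N := by
    rw [← hmap]
    exact Subgroup.map_mono hK
  have hcm : (K.map e.toMonoidHom).comap e.toMonoidHom = K :=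
    Subgroup.comap_map_eq_self_of_injective e.injective K
  have hidx : (K.map e.toMonoidHom).relIndex N ≠ 0 := by
    have : (K.map e.toMonoidHom).relIndex (N.map e.toMonoidHom) ≠ 0 := by
      rw [← Subgroup.relIndex_comap, hcm]
      exact hi
    rw [hmap] at this
    exact this
  obtain ⟨y, hy, hyn⟩ := hn _ hle hidx
  have : g * n * g⁻¹ = y := by
    rw [← hyn]
    change g * (g⁻¹ * y * g⁻¹⁻¹) * g⁻¹ = y
    group
  rw [this]
  exact hy

section

variable {I H : Type v} [Group I] [Group H] {R : Type w} [Group R] (D : HD I H R)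

/-- factoring out a normal subgroup of the base -/
def HD.quot (N1 : Subgroup H) [N1.Normal] :
    HD (I ⧸ Subgroup.normalClosure ((N1.map D.ι : Subgroup I) : Set I)) (H ⧸ N1) R where
  ι := QuotientGroup.map N1 _ D.ι (by
    intro n hn
    exact Subgroup.subset_normalClosure ⟨n, hn, rfl⟩)
  s := QuotientGroup.mk' _ D.s
  α := (QuotientGroup.mk' N1).comp D.α
  γ := (QuotientGroup.mk' N1).comp D.γ
  hgen := by
    rw [eq_top_iff]
    intro x _
    obtain ⟨y, rfl⟩ := QuotientGroup.mk_surjective x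
    have hy : y ∈ Subgroup.closure (Set.range D.ι ∪ {D.s}) := by rw [D.hgen]; trivial
    have h1 := Subgroup.mem_map_of_mem
      (QuotientGroup.mk' (Subgroup.normalClosure ((N1.map D.ι : Subgroup I) : Set I))) hy
    rw [MonoidHom.map_closure] at h1
    refine Subgroup.closure_mono ?_ h1
    rintro _ ⟨z, hz | hz, rfl⟩
    · obtain ⟨h, rfl⟩ := hz
      exact Or.inl ⟨QuotientGroup.mk' N1 h, rfl⟩
    · rw [Set.mem_singleton_iff] at hz
      subst hz
      exact Or.inr rfl
  hrel := by
    intro x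
    change QuotientGroup.mk' _ D.s * QuotientGroup.mk' _ (D.ι (D.α x))
      = QuotientGroup.mk' _ (D.ι (D.γ x)) * QuotientGroup.mk' _ D.s
    rw [← map_mul, ← map_mul, D.hrel]
  huniv := by
    intro G _ E P hP
    obtain ⟨Φ, hΦ, hΦs⟩ := D.huniv G (E.comp (QuotientGroup.mk' N1)) P hP
    have hle : Subgroup.normalClosure ((N1.map D.ι : Subgroup I) : Set I) ≤ Φ.ker := by
      apply Subgroup.normalClosure_le_normal
      rintro _ ⟨n, hn, rfl⟩
      rw [SetLike.mem_coe, MonoidHom.mem_ker, hΦ, MonoidHom.comp_apply]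
      have : QuotientGroup.mk' N1 n = 1 := (QuotientGroup.eq_one_iff n).mpr hn
      rw [this, map_one]
    refine ⟨QuotientGroup.lift _ Φ hle, ?_, ?_⟩
    · intro h
      obtain ⟨h, rfl⟩ := QuotientGroup.mk_surjective h
      exact hΦ h
    · exact hΦs

variable (K : Subgroup I) [K.Normal]

theorem step (hKα : ∀ x, D.ι (D.α x) ∈ K → x = 1) (hKγ : ∀ x, D.ι (D.γ x) ∈ K → x = 1) :
    ∃ (K1 : Subgroup I) (_ : K1.Normal), K1 ≤ K ∧ K1.comap D.ι = nextF (K.comap D.ι) ∧
      ∀ S ≤ K, nextF S ≤ K1 := by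
  let N := K.comap D.ι
  have hNn : N.Normal := inferInstance
  let N1 := nextF N
  let K1 := Subgroup.normalClosure ((N1.map D.ι : Subgroup I) : Set I)
  have hK1K : K1 ≤ K := by
    apply Subgroup.normalClosure_le_normal
    rintro _ ⟨n, hn, rfl⟩
    have h1 : n ∈ N := nextF_le N hn
    exact h1
  let p : I →* I ⧸ K1 := QuotientGroup.mk' K1
  have hpk : p.ker = K1 := QuotientGroup.ker_mk' K1
  let q : H →* H ⧸ N1 := QuotientGroup.mk' N1
  have hqk : q.ker = N1 := QuotientGroup.ker_mk' N1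
  let D1 := D.quot N1
  let Kb : Subgroup (I ⧸ K1) := K.map p
  have hKbn : Kb.Normal := Subgroup.Normal.map inferInstance p (QuotientGroup.mk'_surjective K1)
  have hback : ∀ x : I, p x ∈ Kb → x ∈ K := by
    intro x hx
    have h1 : x ∈ (K.map p).comap p := hx
    rw [Subgroup.comap_map_eq_self (by rw [hpk]; exact hK1K)] at h1
    exact h1
  have hα1 : ∀ x, D1.ι (D1.α x) ∈ Kb → x = 1 := fun x hx => hKα x (hback _ hx)
  have hγ1 : ∀ x, D1.ι (D1.γ x) ∈ Kb → x = 1 := fun x hx => hKγ x (hback _ hx)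
  have hcomap : Kb.comap D1.ι = N.map q := by
    ext y
    obtain ⟨h, rfl⟩ := QuotientGroup.mk_surjective y
    constructor
    · intro hy
      exact ⟨h, hback _ hy, rfl⟩
    · rintro ⟨h', hh', heq⟩
      change D1.ι (QuotientGroup.mk h) ∈ Kb
      rw [← heq]
      exact ⟨D.ι h', hh', rfl⟩
  have hN1 : nextF (Kb.comap D1.ι) = ⊥ := by
    rw [hcomap]
    exact nextF_map_quot q N hqk
  refine ⟨K1, inferInstance, hK1K, ?_, ?_⟩
  · apply le_antisymm
    · intro h hh
      have hinj := ι_injective D1 Kb hα1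
      have h1 : D1.ι (q h) = 1 := (QuotientGroup.eq_one_iff (D.ι h)).mpr hh
      have h2 : q h = 1 := hinj (h1.trans (map_one D1.ι).symm)
      exact (QuotientGroup.eq_one_iff h).mp h2
    · intro h hh
      exact Subgroup.subset_normalClosure ⟨h, hh, rfl⟩
  · intro S hS x hx
    have h1 : p x ∈ nextF (S.map p) := nextF_map_le p S ⟨x, hx, rfl⟩
    rw [nextF_eq_bot_gen D1 Kb hα1 hγ1 hN1 (S.map p) (Subgroup.map_mono hS)] at h1
    exact (QuotientGroup.eq_one_iff x).mp h1

end

/-- **The induction.** -/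
theorem iterate_bot {I H : Type v} [Group I] [Group H] {R : Type w} [Group R] (D : HD I H R)
    (m : ℕ) : ∀ (K : Subgroup I) [K.Normal], (∀ x, D.ι (D.α x) ∈ K → x = 1) →
      (∀ x, D.ι (D.γ x) ∈ K → x = 1) → nextF^[m + 1] (K.comap D.ι) = ⊥ →
      ∀ S ≤ K, nextF^[m + 1] S = ⊥ := by
  induction m with
  | zero =>
    intro K _ hα hγ hN S hS
    exact nextF_eq_bot_gen D K hα hγ hN S hS
  | succ m ih =>
    intro K _ hα hγ hN S hS
    obtain ⟨K1, hK1n, hK1K, hK1N, hK1S⟩ := step D K hα hγ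
    rw [Function.iterate_succ_apply] at hN ⊢
    rw [← hK1N] at hN
    exact ih K1 (fun x hx => hα x (hK1K hx)) (fun x hx => hγ x (hK1K hx)) hN _ (hK1S S hS)

end Pool.Agent.N151.FR
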