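import Mathlib
import Pool.Agent.N151.FR.RfBase2

set_option autoImplicit false

/-! One-relator groups whose Magnus base is residually finite. -/

namespace Pool.Agent.N151.FR

open Pool.Agent.N151.RFC

section

variable {Y : Type} (k : Y → ℕ)

theorem mainRF [Finite Y] (w : FreeGroup (JJ k)) (y0 y1 : Y) [DecidableEq (JJ k)]
    (h0 : expo (⟨y0, Fin.last (k y0)⟩ : JJ k) w ≠ 1) (h1 : expo (⟨y1, 0⟩ : JJ k) w ≠ 1)
    (hB : Group.ResiduallyFinite (BW k w)) :
    nextF (nextF (⊤ : Subgroup (GW k w))) = ⊥ := by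
  classical
  let M : Type := JJ' k ⊕ {y : Y // y ≠ y0}
  obtain ⟨ι, hι⟩ := exists_iotaW k w
  let ρα : M → JJ k := Sum.elim (fun x : JJ' k => ⟨x.1, x.2.castSucc⟩)
    (fun y : {y : Y // y ≠ y0} => ⟨y, Fin.last _⟩)
  let σ : {y : Y // y ≠ y0} ≃ {y : Y // y ≠ y1} := (Equiv.swap y0 y1).subtypeEquiv (by
    intro y
    rw [not_iff_not]
    constructor
    · rintro rfl
      exact Equiv.swap_apply_left _ _
    · intro h
      have := congrArg (Equiv.swap y0 y1) h
      simpa using this)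
  let ργ : M → JJ k := Sum.elim (fun x : JJ' k => ⟨x.1, x.2.succ⟩)
    (fun y : {y : Y // y ≠ y0} => ⟨σ y, 0⟩)
  let α : FreeGroup M →* BW k w := FreeGroup.lift (fun m => PresentedGroup.of (ρα m))
  let γ : FreeGroup M →* BW k w := FreeGroup.lift (fun m => PresentedGroup.of (ργ m))
  have hα : ∀ m, α (FreeGroup.of m) = PresentedGroup.of (ρα m) := fun m => FreeGroup.lift_apply_of
  have hγ : ∀ m, γ (FreeGroup.of m) = PresentedGroup.of (ργ m) := fun m => FreeGroup.lift_apply_of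
  let j : FreeGroup (JJ' k) →* FreeGroup M := FreeGroup.map Sum.inl
  have hj : ∀ x, j (FreeGroup.of x) = FreeGroup.of (Sum.inl x) := fun x => FreeGroup.map.of
  -- the letters
  have hα1 : Function.Injective ρα := by
    rintro (⟨y, i⟩ | ⟨y, hy⟩) (⟨y', i'⟩ | ⟨y', hy'⟩) h
    · simp only [ρα, Sum.elim_inl, Sigma.mk.injEq] at h
      obtain ⟨rfl, h⟩ := h
      have := Fin.castSucc_injective _ (eq_of_heq h)
      rw [this]
    · simp only [ρα, Sum.elim_inl, Sum.elim_inr, Sigma.mk.injEq] at h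
      obtain ⟨rfl, h⟩ := h
      exact absurd (eq_of_heq h) (Fin.castSucc_lt_last _).ne
    · simp only [ρα, Sum.elim_inl, Sum.elim_inr, Sigma.mk.injEq] at h
      obtain ⟨rfl, h⟩ := h
      exact absurd (eq_of_heq h).symm (Fin.castSucc_lt_last _).ne
    · simp only [ρα, Sum.elim_inr, Sigma.mk.injEq] at h
      obtain ⟨rfl, h⟩ := h
      rfl
  have hα2 : ∀ m, ρα m ≠ ⟨y0, Fin.last (k y0)⟩ := by
    rintro (⟨y, i⟩ | ⟨y, hy⟩) h
    · simp only [ρα, Sum.elim_inl, Sigma.mk.injEq] at h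
      obtain ⟨rfl, h⟩ := h
      exact absurd (eq_of_heq h) (Fin.castSucc_lt_last _).ne
    · simp only [ρα, Sum.elim_inr, Sigma.mk.injEq] at h
      exact hy h.1
  have hα3 : ∀ z, z ≠ ⟨y0, Fin.last (k y0)⟩ → ∃ m, ρα m = z := by
    rintro ⟨y, i⟩ hz
    by_cases hi : i = Fin.last (k y)
    · subst hi
      have hy : y ≠ y0 := by
        rintro rfl
        exact hz rfl
      exact ⟨Sum.inr ⟨y, hy⟩, rfl⟩
    · obtain ⟨i', rfl⟩ := Fin.exists_castSucc_eq.mpr hi
      exact ⟨Sum.inl ⟨y, i'⟩, rfl⟩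
  have hγ1 : Function.Injective ργ := by
    rintro (⟨y, i⟩ | y) (⟨y', i'⟩ | y') h
    · simp only [ργ, Sum.elim_inl, Sigma.mk.injEq] at h
      obtain ⟨rfl, h⟩ := h
      have := Fin.succ_injective _ (eq_of_heq h)
      rw [this]
    · exfalso
      simp only [ργ, Sum.elim_inl, Sum.elim_inr, Sigma.mk.injEq] at h
      obtain ⟨h', h⟩ := h
      revert h
      revert i
      rw [h']
      intro i h
      exact absurd (eq_of_heq h) (Fin.succ_ne_zero _)
    · exfalso
      simp only [ργ, Sum.elim_inl, Sum.elim_inr, Sigma.mk.injEq] at h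
      obtain ⟨h', h⟩ := h
      revert h
      revert i'
      rw [← h']
      intro i h
      exact absurd (eq_of_heq h).symm (Fin.succ_ne_zero _)
    · simp only [ργ, Sum.elim_inr, Sigma.mk.injEq] at h
      rw [σ.injective (Subtype.ext h.1)]
  have hγ2 : ∀ m, ργ m ≠ ⟨y1, 0⟩ := by
    rintro (⟨y, i⟩ | y) h
    · simp only [ργ, Sum.elim_inl, Sigma.mk.injEq] at h
      obtain ⟨rfl, h⟩ := h
      exact absurd (eq_of_heq h) (Fin.succ_ne_zero _)
    · simp only [ργ, Sum.elim_inr, Sigma.mk.injEq] at h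
      exact (σ y).2 h.1
  have hγ3 : ∀ z, z ≠ ⟨y1, 0⟩ → ∃ m, ργ m = z := by
    rintro ⟨y, i⟩ hz
    by_cases hi : i = 0
    · subst hi
      have hy : y ≠ y1 := by
        rintro rfl
        exact hz rfl
      refine ⟨Sum.inr (σ.symm ⟨y, hy⟩), ?_⟩
      have hσ : σ (σ.symm ⟨y, hy⟩) = ⟨y, hy⟩ := σ.apply_symm_apply _
      change (⟨(σ (σ.symm ⟨y, hy⟩) : {y : Y // y ≠ y1}), 0⟩ : JJ k) = ⟨y, 0⟩
      rw [hσ]
    · obtain ⟨i', rfl⟩ := Fin.exists_succ_eq.mpr hi
      exact ⟨Sum.inl ⟨y, i'⟩, rfl⟩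
  -- the HNN structure
  have hrel : ∀ x : FreeGroup (JJ' k), (PresentedGroup.of none : GW k w) * ι (α (j x))
      = ι (γ (j x)) * PresentedGroup.of none := by
    have h2 : (MulAut.conj (PresentedGroup.of none : GW k w)).toMonoidHom.comp
        (ι.comp (α.comp j)) = ι.comp (γ.comp j) := by
      ext x
      simp only [MonoidHom.comp_apply]
      rw [hj, hα, hγ, hι, hι]
      change (PresentedGroup.of none : GW k w) * _ * (PresentedGroup.of none)⁻¹ = _
      simp only [ρα, ργ, Sum.elim_inl, Fin.val_castSucc, Fin.val_succ]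
      rw [pow_succ']
      group
    intro x
    have h3 := DFunLike.congr_fun h2 x
    simp only [MonoidHom.comp_apply] at h3
    rw [← h3]
    change _ = (PresentedGroup.of none : GW k w) * _ * (PresentedGroup.of none)⁻¹ * _
    rw [inv_mul_cancel_right]
  have huniv : ∀ (G : Type) [Group G] (E : BW k w →* G) (P : G),
      (∀ x, P * E (α (j x)) = E (γ (j x)) * P) →
      ∃ Φ : GW k w →* G, (∀ h, Φ (ι h) = E h) ∧ Φ (PresentedGroup.of none) = P := by
    intro G _ E P hP
    apply univW k w ι hι E P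
    intro x
    have := hP (FreeGroup.of x)
    rw [hj, hα, hγ] at this
    exact this
  -- detecting the associated subgroups
  have hdet : ∀ x : FreeGroup (JJ' k), x ≠ 1 → ∃ (Ω : Type) (_ : Finite Ω)
      (E : BW k w →* Equiv.Perm Ω) (P : Equiv.Perm Ω),
      (∀ x, P * E (α x) = E (γ x) * P) ∧ E (α (j x)) ≠ 1 ∧ E (γ (j x)) ≠ 1 := by
    intro x hx
    obtain ⟨q, hq, hNq, T, _, _, f0, hT, hf0⟩ := exists_large_prime x hx
      ((Multiplicative.toAdd (expo (⟨y0, Fin.last (k y0)⟩ : JJ k) w)).natAbs +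
      (Multiplicative.toAdd (expo (⟨y1, 0⟩ : JJ k) w)).natAbs)
    obtain ⟨hfin, hbα⟩ := restrict_bij w _ q hq (by omega) h0 α ρα hα hα1 hα2 hα3 hT
    obtain ⟨-, hbγ⟩ := restrict_bij w _ q hq (by omega) h1 γ ργ hγ hγ1 hγ2 hγ3 hT
    obtain ⟨Ω, hΩ, E, P, hP, hE⟩ := exists_finite_rep' α γ hbα hbγ
    let g0 : FreeGroup M →* T := FreeGroup.lift (Sum.elim (fun x => f0 (FreeGroup.of x)) (fun _ => 1))
    have hg0 : ∀ x, g0 (j x) = f0 x := by
      intro x
      have : g0.comp j = f0 := by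
        ext x
        rw [MonoidHom.comp_apply, hj]
        simp [g0]
      exact DFunLike.congr_fun this x
    obtain ⟨fα, hfα⟩ := hbα.2 g0
    obtain ⟨fγ, hfγ⟩ := hbγ.2 g0
    refine ⟨Ω, hΩ, E, P, hP, hE fα _ ?_, hE fγ _ ?_⟩
    · have := DFunLike.congr_fun hfα (j x)
      simp only [MonoidHom.comp_apply] at this
      rw [this, hg0]
      exact hf0
    · have := DFunLike.congr_fun hfγ (j x)
      simp only [MonoidHom.comp_apply] at this
      rw [this, hg0]
      exact hf0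
  have hK : ∀ x : FreeGroup (JJ' k), x ≠ 1 →
      ι (α (j x)) ∉ KI (GW k w) ∧ ι (γ (j x)) ∉ KI (GW k w) := by
    intro x hx
    obtain ⟨Ω, _, E, P, hP, hE1, hE2⟩ := hdet x hx
    obtain ⟨Φ, hΦ, -⟩ := huniv (Equiv.Perm Ω) E P (fun x => hP (j x))
    have hfin : Finite (GW k w ⧸ Φ.ker) :=
      Finite.of_injective _ (QuotientGroup.kerLift_injective Φ)
    have hfi : Φ.ker.FiniteIndex := Subgroup.finiteIndex_of_finite_quotient
    let N' : FiniteIndexNormalSubgroup (GW k w) :=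
      { toSubgroup := Φ.ker, isNormal' := inferInstance, isFiniteIndex' := hfi }
    constructor
    · intro hh
      rw [KI, Subgroup.mem_iInf] at hh
      have h2 : ι (α (j x)) ∈ Φ.ker := hh N'
      rw [MonoidHom.mem_ker, hΦ] at h2
      exact hE1 h2
    · intro hh
      rw [KI, Subgroup.mem_iInf] at hh
      have h2 : ι (γ (j x)) ∈ Φ.ker := hh N'
      rw [MonoidHom.mem_ker, hΦ] at h2
      exact hE2 h2
  refine nextF_eq_bot_rf ι (PresentedGroup.of none) (α.comp j) (γ.comp j) (genW k w ι hι) hrel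
    huniv hB (KI (GW k w)) ?_ ?_ _ (nextF_le_KI _)
  · intro x hx
    by_contra hne
    exact (hK x hne).1 hx
  · intro x hx
    by_contra hne
    exact (hK x hne).2 hx

end

theorem mainRF_basis {X : Type*} {Y : Type} [Finite Y]
    (b : FreeGroupBasis (Option Y) (FreeGroup X)) (k : Y → ℕ) (w : FreeGroup (JJ k)) (y0 y1 : Y)
    [DecidableEq (JJ k)]
    (h0 : expo (⟨y0, Fin.last (k y0)⟩ : JJ k) w ≠ 1) (h1 : expo (⟨y1, 0⟩ : JJ k) w ≠ 1)
    (hB : Group.ResiduallyFinite (PresentedGroup ({w} : Set (FreeGroup (JJ k))))) :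
    nextF (nextF (⊤ : Subgroup
      (PresentedGroup {sub k (b none) (fun y => b (some y)) w}))) = ⊥ := by
  have h2 := mainRF k w y0 y1 h0 h1 hB
  let e : FreeGroup (Option Y) ≃* FreeGroup X := b.repr.symm
  have e3 : e (sub k (FreeGroup.of (none : Option Y)) (fun y => FreeGroup.of (some y)) w)
      = sub k (b none) (fun y => b (some y)) w := by
    change e.toMonoidHom _ = _
    rw [map_sub']
    rfl
  have E := oneRelCongr e _ _ e3
  have h3 : nextF (nextF (⊤ : Subgroup (PresentedGroup {sub k (b none) (fun y => b (some y)) w})))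
      = (nextF (nextF (⊤ : Subgroup (GW k w)))).comap E.symm.toMonoidHom := by
    rw [← nextF_comap_equiv E.symm, ← nextF_comap_equiv E.symm, Subgroup.comap_top]
  rw [h3, h2, eq_bot_iff]
  intro x hx
  rw [Subgroup.mem_bot]
  apply E.symm.injective
  rw [_root_.map_one]
  exact hx

end Pool.Agent.N151.FR
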