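import Mathlib
import Pool.Agent.N151.FR.RfInd
import Pool.Agent.N151.FR.RfBase2

set_option autoImplicit false

/-! The inductive step for stabilisation. -/

namespace Pool.Agent.N151.FR

open Pool.Agent.N151.RFC

universe v w

lemma nofi {G : Type*} [Group G] {P : Subgroup G} (hP : nextF P = P) (L : Subgroup G)
    (hL : L.relIndex P ≠ 0) : P ≤ L := by
  intro x hx
  rw [← hP, mem_nextF] at hx
  exact (hx (L ⊓ P) inf_le_right (by
    change (L ⊓ P).relIndex P ≠ 0
    rw [Subgroup.inf_relIndex_right]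
    exact hL)).1

lemma normal_iterate {G : Type*} [Group G] (n : ℕ) : (nextF^[n] (⊤ : Subgroup G)).Normal := by
  induction n with
  | zero => exact (inferInstance : (⊤ : Subgroup G).Normal)
  | succ n ih =>
    rw [Function.iterate_succ_apply']
    exact nextF_normal _

lemma iterate_map_le {G Q : Type*} [Group G] [Group Q] (p : G →* Q) (n : ℕ) :
    ∀ S : Subgroup G, (nextF^[n] S).map p ≤ nextF^[n] (S.map p) := by
  induction n with
  | zero => intro S; exact le_rfl
  | succ n ih =>
    intro S
    rw [Function.iterate_succ_apply, Function.iterate_succ_apply]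
    refine (ih (nextF S)).trans ?_
    have hmono : Monotone (nextF : Subgroup Q → Subgroup Q) := fun _ _ h => nextF_mono h
    exact hmono.iterate n (nextF_map_le p S)

theorem stab {I H : Type v} [Group I] [Group H] {R : Type w} [Group R] (D : HD I H R)
    (hKα : ∀ x, D.ι (D.α x) ∈ KI I → x = 1) (hKγ : ∀ x, D.ι (D.γ x) ∈ KI I → x = 1)
    (m : ℕ) (hP : nextF (nextF^[m + 1] (⊤ : Subgroup H)) = nextF^[m + 1] ⊤) (n : ℕ)
    (hn : m + 2 ≤ n) :
    nextF^[n] (⊤ : Subgroup I)
      = Subgroup.normalClosure (((nextF^[m + 1] (⊤ : Subgroup H)).map D.ι : Subgroup I) : Set I) := by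
  set P : Subgroup H := nextF^[m + 1] (⊤ : Subgroup H) with hPdef
  have hPn : P.Normal := normal_iterate (m + 1)
  set KP : Subgroup I := Subgroup.normalClosure ((P.map D.ι : Subgroup I) : Set I) with hKPdef
  -- the normal closure has no proper subgroup of finite index
  have hKPfi : ∀ L : Subgroup I, L.relIndex KP ≠ 0 → KP ≤ L := by
    intro L hL
    have h1 : ∀ (g : I) (x : H), x ∈ P → g * D.ι x * g⁻¹ ∈ L := by
      intro g x hx
      let κ : H →* I := (MulAut.conj g).toMonoidHom.comp D.ι
      have hle : P.map κ ≤ KP := by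
        rintro _ ⟨y, hy, rfl⟩
        have h2 : D.ι y ∈ KP := Subgroup.subset_normalClosure ⟨y, hy, rfl⟩
        exact (inferInstance : KP.Normal).conj_mem _ h2 g
      have h3 : (L.comap κ).relIndex P ≠ 0 := by
        rw [Subgroup.relIndex_comap]
        intro h0
        exact hL (Subgroup.relIndex_eq_zero_of_le_right hle h0)
      exact nofi hP (L.comap κ) h3 hx
    rw [hKPdef, Subgroup.normalClosure, Subgroup.closure_le]
    intro y hy
    rw [Group.mem_conjugatesOfSet_iff] at hy
    obtain ⟨a, ⟨x, hx, rfl⟩, hc⟩ := hy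
    obtain ⟨g, hg⟩ := isConj_iff.mp hc
    rw [← hg]
    exact h1 g x hx
  have hKPKI : KP ≤ KI I := by
    rw [KI]
    apply le_iInf
    intro N
    apply hKPfi
    intro h0
    have h1 := Subgroup.relIndex_eq_zero_of_le_right (le_top : KP ≤ ⊤) h0
    rw [Subgroup.relIndex_top_right] at h1
    exact N.isFiniteIndex'.index_ne_zero h1
  have hlow : ∀ j : ℕ, KP ≤ nextF^[j] (⊤ : Subgroup I) := by
    intro j
    induction j with
    | zero => exact le_top
    | succ j ih =>
      rw [Function.iterate_succ_apply']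
      intro x hx
      rw [mem_nextF]
      intro K' hK' hi
      apply hKPfi K' _ hx
      intro h0
      exact hi (Subgroup.relIndex_eq_zero_of_le_right ih h0)
  -- the quotient
  let p : I →* I ⧸ KP := QuotientGroup.mk' KP
  have hpk : p.ker = KP := QuotientGroup.ker_mk' KP
  let q : H →* H ⧸ P := QuotientGroup.mk' P
  have hqk : q.ker = P := QuotientGroup.ker_mk' P
  have hqs : Function.Surjective q := QuotientGroup.mk'_surjective P
  let D1 := D.quot P
  let Kb : Subgroup (I ⧸ KP) := (KI I).map p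
  have hKbn : Kb.Normal :=
    Subgroup.Normal.map inferInstance p (QuotientGroup.mk'_surjective KP)
  have hback : ∀ x : I, p x ∈ Kb → x ∈ KI I := by
    intro x hx
    have h1 : x ∈ ((KI I).map p).comap p := hx
    rw [Subgroup.comap_map_eq_self (by rw [hpk]; exact hKPKI)] at h1
    exact h1
  have hα1 : ∀ x, D1.ι (D1.α x) ∈ Kb → x = 1 := fun x hx => hKα x (hback _ hx)
  have hγ1 : ∀ x, D1.ι (D1.γ x) ∈ Kb → x = 1 := fun x hx => hKγ x (hback _ hx)
  have hcom : ∀ (j : ℕ) (T : Subgroup (H ⧸ P)), nextF^[j] (T.comap q) = (nextF^[j] T).comap q := by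
    intro j
    induction j with
    | zero => intro T; rfl
    | succ j ih =>
      intro T
      rw [Function.iterate_succ_apply, Function.iterate_succ_apply,
        nextF_comap q hqs (fun K hK => by rw [hqk] at hK ⊢; exact nofi hP K hK), ih]
  have hHP : nextF^[m + 1] (⊤ : Subgroup (H ⧸ P)) = ⊥ := by
    have h1 := hcom (m + 1) ⊤
    rw [Subgroup.comap_top, ← hPdef] at h1
    rw [eq_bot_iff]
    intro y hy
    obtain ⟨x, rfl⟩ := hqs y
    have h2 : x ∈ P := by rw [h1]; exact hy
    rw [Subgroup.mem_bot, ← MonoidHom.mem_ker, hqk]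
    exact h2
  have hmonoH : Monotone (nextF : Subgroup (H ⧸ P) → Subgroup (H ⧸ P)) :=
    fun _ _ h => nextF_mono h
  have hN1 : nextF^[m + 1] (Kb.comap D1.ι) = ⊥ := by
    rw [eq_bot_iff, ← hHP]
    exact hmonoH.iterate (m + 1) le_top
  have h1 := iterate_bot D1 m Kb hα1 hγ1 hN1 ((nextF (⊤ : Subgroup I)).map p)
    (Subgroup.map_mono (nextF_le_KI I))
  have h2 : nextF^[m + 2] (⊤ : Subgroup I) ≤ KP := by
    intro x hx
    rw [Function.iterate_succ_apply] at hx
    have h3 := iterate_map_le p (m + 1) (nextF ⊤) ⟨x, hx, rfl⟩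
    rw [h1] at h3
    rw [← hpk]
    exact h3
  have hdecr : ∀ j : ℕ, nextF^[m + 2 + j] (⊤ : Subgroup I) ≤ nextF^[m + 2] ⊤ := by
    intro j
    induction j with
    | zero => exact le_rfl
    | succ j ih =>
      rw [← add_assoc, Function.iterate_succ_apply']
      exact (nextF_le _).trans ih
  obtain ⟨j, rfl⟩ := Nat.exists_eq_add_of_le hn
  exact le_antisymm ((hdecr j).trans h2) (hlow _)

end Pool.Agent.N151.FR
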